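import Pool.Agent.Lib.MP_e6550d_al.DgE

open CategoryTheory

namespace Pool.Agent.Lib.MP_e6550d_al

universe u v

variable {P : SemigroupPresentation.{u, v}}

abbrev Gpd (P : SemigroupPresentation.{u, v}) := CategoryTheory.Quotient (Square P)

abbrev ob (x : Vertex P) : Gpd P := (CategoryTheory.Quotient.functor (Square P)).obj (vtx x)

def arr {x y : Vertex P} (e : Edge P x y) : ob x ⟶ ob y :=
  (CategoryTheory.Quotient.functor (Square P)).map (arrow e)

theorem arr_sq {x x₁ x₂ y : Vertex P} (a b c : Wd P) (r s : P.Rel) (h1 h1' h2 h2' h3 h3' h4 h4') :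
    arr (⟨a, r, b ++ P.lhs s ++ c, h1, h1'⟩ : Edge P x x₁) ≫
      arr (⟨a ++ P.rhs r ++ b, s, c, h2, h2'⟩ : Edge P x₁ y)
    = arr (⟨a ++ P.lhs r ++ b, s, c, h3, h3'⟩ : Edge P x x₂) ≫
      arr (⟨a, r, b ++ P.rhs s ++ c, h4, h4'⟩ : Edge P x₂ y) := by
  unfold arr
  rw [← Functor.map_comp, ← Functor.map_comp]
  apply CategoryTheory.Quotient.sound
  exact Square.mk _ _ _ _ ⟨a, b, c, r, s, ⟨rfl, rfl, rfl⟩, ⟨rfl, rfl, rfl⟩, ⟨rfl, rfl, rfl⟩,
    ⟨rfl, rfl, rfl⟩⟩

theorem hom_induction {x : Vertex P} {motive : ∀ y : Vertex P, (ob x ⟶ ob y) → Prop}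
    (id : motive x (𝟙 _))
    (pos : ∀ (y z : Vertex P) (f : ob x ⟶ ob y) (e : Edge P y z), motive y f →
      motive z (f ≫ arr e))
    (neg : ∀ (y z : Vertex P) (f : ob x ⟶ ob y) (e : Edge P z y), motive y f →
      motive z (f ≫ Groupoid.inv (arr e)))
    (y : Vertex P) (f : ob x ⟶ ob y) : motive y f := by
  have key : ∀ (y : Quiver.Symmetrify (Vertex P))
      (p : Quiver.Path (V := Quiver.Symmetrify (Vertex P)) x y),
      motive y (Quot.mk _ (Quot.mk _ p)) := by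
    intro y p
    induction p with
    | nil => exact id
    | cons p e ih =>
      rcases e with e | e
      · exact pos _ _ _ e ih
      · exact neg _ _ _ e ih
  obtain ⟨⟨p⟩⟩ := f
  exact key y p

def pre : Vertex P ⥤q SingleObj (UG P) where
  obj _ := SingleObj.star _
  map e := (gen e.left e.rel e.right)⁻¹

theorem lift_of {x y : Vertex P} (e : Edge P x y) :
    (Quiver.FreeGroupoid.lift (pre (P := P))).map
      ((Quiver.FreeGroupoid.of (Vertex P)).map (X := x) (Y := y) e)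
      = (gen e.left e.rel e.right)⁻¹ := by
  have := Prefunctor.congr_hom (Quiver.FreeGroupoid.lift_spec (pre (P := P))) (X := x) (Y := y) e
  have h2 : (Quiver.FreeGroupoid.lift (pre (P := P))).map
      ((Quiver.FreeGroupoid.of (Vertex P)).map (X := x) (Y := y) e) = pre.map (X := x) (Y := y) e := by
    simpa using this
  exact h2

theorem lift_of2 {x y z : Vertex P} (e : Edge P x y) (f : Edge P y z) :
    (Quiver.FreeGroupoid.lift (pre (P := P))).map
      ((Quiver.FreeGroupoid.of (Vertex P)).map (X := x) (Y := y) e ≫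
        (Quiver.FreeGroupoid.of (Vertex P)).map (X := y) (Y := z) f)
      = (gen e.left e.rel e.right * gen f.left f.rel f.right)⁻¹ := by
  rw [Functor.map_comp, lift_of, lift_of, SingleObj.comp_as_mul, mul_inv_rev]

def Phi : Gpd P ⥤ SingleObj (UG P) :=
  CategoryTheory.Quotient.lift _ (Quiver.FreeGroupoid.lift pre) (by
    rintro X Y f g ⟨e₁, e₂, e₃, e₄, a, b, c, r, s, ⟨a1, a2, a3⟩, ⟨b1, b2, b3⟩,
      ⟨c1, c2, c3⟩, ⟨d1, d2, d3⟩⟩
    refine (lift_of2 e₁ e₂).trans (Eq.trans ?_ (lift_of2 e₃ e₄).symm)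
    rw [a1, a2, a3, b1, b2, b3, c1, c2, c3, d1, d2, d3, gen_sq])

def phi {x y : Vertex P} (f : ob x ⟶ ob y) : UG P := ((Phi.map f : UG P))⁻¹

theorem phi_id (x : Vertex P) : phi (𝟙 (ob x)) = 1 := by
  unfold phi
  rw [CategoryTheory.Functor.map_id, SingleObj.id_as_one, inv_one]

theorem phi_comp {x y z : Vertex P} (f : ob x ⟶ ob y) (g : ob y ⟶ ob z) :
    phi (f ≫ g) = phi f * phi g := by
  unfold phi
  rw [Functor.map_comp, SingleObj.comp_as_mul, mul_inv_rev]

theorem phi_arr {x y : Vertex P} (e : Edge P x y) : phi (arr e) = gen e.left e.rel e.right := by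
  unfold phi
  rw [inv_eq_iff_eq_inv]
  exact lift_of e

theorem phi_inv {x y : Vertex P} (f : ob x ⟶ ob y) : phi (Groupoid.inv f) = (phi f)⁻¹ := by
  apply eq_inv_of_mul_eq_one_right
  rw [← phi_comp, Groupoid.comp_inv, phi_id]

def vt (e : SE P) : Vertex P := ⟨e.tgt, by simp [SE.tgt, inp_ne]⟩

noncomputable def eh : ∀ (e : SE P) {x y : Vertex P}, x.1 = e.src → y.1 = e.tgt → (ob x ⟶ ob y)
  | ⟨a, r, true, b⟩, _, _, hx, hy => arr ⟨a, r, b, hx, hy⟩
  | ⟨a, r, false, b⟩, _, _, hx, hy => Groupoid.inv (arr ⟨a, r, b, hy, hx⟩)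

theorem phi_eh (e : SE P) {x y : Vertex P} (hx : x.1 = e.src) (hy : y.1 = e.tgt) :
    phi (eh e hx hy) = e.cls := by
  obtain ⟨a, r, _ | _, b⟩ := e
  · exact (phi_inv _).trans (congrArg _ (phi_arr _))
  · exact phi_arr _

open Classical in
noncomputable def gact (w : Vertex P) (e : SE P) (s : Σ y : Vertex P, (ob w ⟶ ob y)) :
    Σ y : Vertex P, (ob w ⟶ ob y) :=
  if h : s.1.1 = e.src then ⟨vt e, s.2 ≫ eh e h rfl⟩ else s

theorem gact_eq (w : Vertex P) (e : SE P) {x y : Vertex P} (f : ob w ⟶ ob x) (hx : x.1 = e.src)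
    (hy : y.1 = e.tgt) : gact w e ⟨x, f⟩ = ⟨y, f ≫ eh e hx hy⟩ := by
  obtain rfl : y = vt e := Subtype.ext hy
  simp [gact, hx]

theorem isAct_gact (w : Vertex P) : IsAct (fun s x => s.1.1 = x) (gact w) where
  at_act := by
    rintro e ⟨x, f⟩ h
    rw [gact_eq w e f h (y := vt e) rfl]
    rfl
  inv_act := by
    rintro e ⟨x, f⟩ h
    rw [gact_eq w e f h (y := vt e) rfl, gact_eq w e.inv _ rfl (y := x) (by simpa using h)]
    congr 1
    obtain ⟨a, r, _ | _, b⟩ := e
    · rw [Category.assoc]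
      exact (congrArg (f ≫ ·) (Groupoid.inv_comp _)).trans (Category.comp_id f)
    · rw [Category.assoc]
      exact (congrArg (f ≫ ·) (Groupoid.comp_inv _)).trans (Category.comp_id f)
  sq_act := by
    rintro a r b t c ⟨x, f⟩ h
    rw [gact_eq w ⟨a, r, true, b ++ P.lhs t ++ c⟩ f h (y := vt ⟨a, r, true, b ++ P.lhs t ++ c⟩) rfl,
      gact_eq w ⟨a ++ P.rhs r ++ b, t, true, c⟩ _ (by simp [vt, SE.src, SE.tgt, inp])
        (y := vt ⟨a, r, true, b ++ P.rhs t ++ c⟩) (by simp [vt, SE.tgt, inp]),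
      gact_eq w ⟨a ++ P.lhs r ++ b, t, true, c⟩ f (by simpa [SE.src, inp] using h)
        (y := vt ⟨a ++ P.lhs r ++ b, t, true, c⟩) rfl,
      gact_eq w ⟨a, r, true, b ++ P.rhs t ++ c⟩ _ (by simp [vt, SE.src, SE.tgt, inp])
        (y := vt ⟨a, r, true, b ++ P.rhs t ++ c⟩) rfl]
    congr 1
    simp only [eh, Category.assoc]
    rw [arr_sq]

theorem exists_walk {w y : Vertex P} (f : ob w ⟶ ob y) : ∃ L, Walk w.1 L y.1 ∧ cls L = phi f ∧
    run (gact w) L ⟨w, 𝟙 _⟩ = ⟨y, f⟩ := by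
  induction y, f using hom_induction with
  | id => exact ⟨[], rfl, (phi_id w).symm, rfl⟩
  | pos y z f e ih =>
    obtain ⟨L, h1, h2, h3⟩ := ih
    refine ⟨L ++ [⟨e.left, e.rel, true, e.right⟩],
      h1.append (M := [⟨e.left, e.rel, true, e.right⟩]) ⟨e.src, e.tgt.symm⟩,
      by simp [h2, phi_comp, phi_arr], ?_⟩
    rw [run_append, h3, run_cons, run_nil, 
      gact_eq w ⟨e.left, e.rel, true, e.right⟩ f e.src (y := z) e.tgt]
    rfl
  | neg y z f e ih =>
    obtain ⟨L, h1, h2, h3⟩ := ih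
    refine ⟨L ++ [⟨e.left, e.rel, false, e.right⟩],
      h1.append (M := [⟨e.left, e.rel, false, e.right⟩]) ⟨e.tgt, e.src.symm⟩,
      by rw [phi_comp, phi_inv, phi_arr]; simp [h2], ?_⟩
    rw [run_append, h3, run_cons, run_nil, 
      gact_eq w ⟨e.left, e.rel, false, e.right⟩ f e.tgt (y := z) e.src]
    rfl

theorem exists_hom {L : List (SE P)} {x y : Vertex P} (h : Walk x.1 L y.1) :
    ∃ f : ob x ⟶ ob y, phi f = cls L := by
  induction L generalizing x with
  | nil =>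
    obtain rfl : x = y := Subtype.ext h
    exact ⟨𝟙 _, phi_id x⟩
  | cons e L ih =>
    obtain ⟨f, hf⟩ := ih (x := vt e) h.2
    exact ⟨eh e h.1 rfl ≫ f, by rw [phi_comp, phi_eh, hf, cls_cons]⟩

def toUG (w : Vertex P) : DiagramGroup P w →* UG P where
  toFun a := (phi a.hom)⁻¹
  map_one' := by rw [inv_eq_one]; exact phi_id w
  map_mul' a b := by
    rw [← mul_inv_rev, ← phi_comp]
    rfl

theorem bridge (w : Vertex P) : Nonempty (DiagramGroup P w ≃* DG w.1) := by
  have hinj : Function.Injective (toUG w) := by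
    rw [injective_iff_map_eq_one]
    intro a ha
    obtain ⟨L, h1, h2, h3⟩ := exists_walk a.hom
    have h4 : phi a.hom = 1 := inv_eq_one.1 ha
    have h5 := (isAct_gact w).action h1 (L' := []) rfl (by rw [h2, h4]; rfl) (s := ⟨w, 𝟙 _⟩) rfl
    rw [h3, run_nil] at h5
    apply Iso.ext
    exact eq_of_heq (Sigma.mk.inj h5).2
  have hr : (toUG w).range = DG w.1 := by
    ext g
    constructor
    · rintro ⟨a, rfl⟩
      obtain ⟨L, h1, h2, -⟩ := exists_walk a.hom
      exact Hom.inv ⟨L, h1, h2⟩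
    · intro hg
      obtain ⟨L, h1, h2⟩ := Hom.inv hg
      obtain ⟨f, hf⟩ := exists_hom h1
      refine ⟨asIso f, ?_⟩
      change (phi f)⁻¹ = g
      rw [hf, h2, inv_inv]
  exact ⟨(MonoidHom.ofInjective hinj).trans (MulEquiv.subgroupCongr hr)⟩

theorem main {G : Type*} [Group G] (w : Vertex P) (e : G ≃* DiagramGroup P w)
    (h : IsProperlyRelHyperbolic G) : Splits G := by
  obtain ⟨f⟩ := bridge w
  exact (splits_DG ((hasPF_of_relHyp h).of_equiv (e.trans f))).of_equiv (e.trans f).symm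

end Pool.Agent.Lib.MP_e6550d_al
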