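import Mathlib

open CategoryTheory

namespace Pool.Agent.Lib.MP_e6550d_al

universe u v w

/-- A semigroup presentation: an alphabet and a family of relations `lhs r = rhs r`
between non-empty words. -/
structure SemigroupPresentation where
  Letter : Type u
  Rel : Type v
  lhs : Rel → List Letter
  rhs : Rel → List Letter
  lhs_ne : ∀ r, lhs r ≠ []
  rhs_ne : ∀ r, rhs r ≠ []

/-- Vertices of the Squier complex: non-empty words. -/
def Vertex (P : SemigroupPresentation.{u, v}) : Type u := {x : List P.Letter // x ≠ []}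

/-- Edges of the Squier complex from `a u b` to `a v b`, for a relation `u = v`. -/
structure Edge (P : SemigroupPresentation.{u, v}) (x y : Vertex P) : Type (max u v) where
  left : List P.Letter
  rel : P.Rel
  right : List P.Letter
  src : x.1 = left ++ P.lhs rel ++ right
  tgt : y.1 = left ++ P.rhs rel ++ right

/-- The 1-skeleton of the Squier complex. -/
instance squierQuiver (P : SemigroupPresentation.{u, v}) : Quiver (Vertex P) := ⟨Edge P⟩

/-- The free groupoid on the 1-skeleton: edge paths up to backtracking. -/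
def EdgeGroupoid (P : SemigroupPresentation.{u, v}) : Type u := Quiver.FreeGroupoid (Vertex P)

instance edgeGroupoid (P : SemigroupPresentation.{u, v}) : Groupoid (EdgeGroupoid P) :=
  Quiver.FreeGroupoid.instGroupoid

/-- A vertex as an object of the free groupoid. -/
def vtx {P : SemigroupPresentation.{u, v}} (x : Vertex P) : EdgeGroupoid P :=
  (Quiver.FreeGroupoid.of (Vertex P)).obj x

/-- An edge as a morphism of the free groupoid. -/
def arrow {P : SemigroupPresentation.{u, v}} {x y : Vertex P} (e : Edge P x y) : vtx x ⟶ vtx y :=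
  (Quiver.FreeGroupoid.of (Vertex P)).map e

/-- The edges `a u b p c → a v b p c → a v b q c` and `a u b p c → a u b q c → a v b q c`. -/
def IsSquare {P : SemigroupPresentation.{u, v}} {x x₁ x₂ y : Vertex P}
    (e₁ : Edge P x x₁) (e₂ : Edge P x₁ y) (e₃ : Edge P x x₂) (e₄ : Edge P x₂ y) : Prop :=
  ∃ (a b c : List P.Letter) (r s : P.Rel),
    (e₁.left = a ∧ e₁.rel = r ∧ e₁.right = b ++ P.lhs s ++ c) ∧
    (e₂.left = a ++ P.rhs r ++ b ∧ e₂.rel = s ∧ e₂.right = c) ∧
    (e₃.left = a ++ P.lhs r ++ b ∧ e₃.rel = s ∧ e₃.right = c) ∧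
    (e₄.left = a ∧ e₄.rel = r ∧ e₄.right = b ++ P.rhs s ++ c)

/-- The two halves of the boundary of each square of the Squier complex are identified. -/
inductive Square (P : SemigroupPresentation.{u, v}) :
    ∀ ⦃X Y : EdgeGroupoid P⦄, (X ⟶ Y) → (X ⟶ Y) → Prop
  | mk {x x₁ x₂ y : Vertex P} (e₁ : Edge P x x₁) (e₂ : Edge P x₁ y) (e₃ : Edge P x x₂)
      (e₄ : Edge P x₂ y) : IsSquare e₁ e₂ e₃ e₄ →
      Square P (arrow e₁ ≫ arrow e₂) (arrow e₃ ≫ arrow e₄)

/-- The diagram group: the vertex group at `w` of the fundamental groupoid of the Squier complex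
(the free groupoid on the 1-skeleton modulo the squares). -/
def DiagramGroup (P : SemigroupPresentation.{u, v}) (w : Vertex P) : Type (max u v) :=
  Aut (CategoryTheory.Quotient.mk (vtx w) : CategoryTheory.Quotient (Square P))

instance diagramGroup (P : SemigroupPresentation.{u, v}) (w : Vertex P) :
    Group (DiagramGroup P w) :=
  Aut.instGroup _

section

variable {G : Type w} [Group G] {n : ℕ}

/-- The free product of the subgroups `H i` and the free group on `X`. -/
abbrev RelFree (H : Fin n → Subgroup G) (X : Finset G) : Type w :=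
  Monoid.Coprod (Monoid.CoprodI fun i => H i) (FreeGroup X)

/-- The canonical homomorphism to `G`. -/
def relEval (H : Fin n → Subgroup G) (X : Finset G) : RelFree H X →* G :=
  Monoid.Coprod.lift (Monoid.CoprodI.lift fun i => (H i).subtype) (FreeGroup.lift Subtype.val)

/-- The alphabet: non-trivial elements of the `H i`, elements of `X` and their inverses. -/
abbrev RelLetter (H : Fin n → Subgroup G) (X : Finset G) : Type w :=
  (Σ i : Fin n, {h : H i // h ≠ 1}) ⊕ (X × Bool)

/-- A letter as an element of the free product. -/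
def relLetter (H : Fin n → Subgroup G) (X : Finset G) : RelLetter H X → RelFree H X
  | Sum.inl ⟨_, h⟩ => Monoid.Coprod.inl (Monoid.CoprodI.of h.1)
  | Sum.inr (x, true) => Monoid.Coprod.inr (FreeGroup.of x)
  | Sum.inr (x, false) => Monoid.Coprod.inr (FreeGroup.of x)⁻¹

/-- `φ` is a product of at most `k` conjugates of elements of `R` and their inverses. -/
def AreaLE {F : Type w} [Group F] (R : Set F) (φ : F) (k : ℕ) : Prop :=
  ∃ l : List (F × F), l.length ≤ k ∧ (∀ p ∈ l, p.2 ∈ R ∨ p.2⁻¹ ∈ R) ∧
    φ = (l.map fun p => p.1⁻¹ * p.2 * p.1).prod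

/-- Relative hyperbolicity in the sense of Osin: a finite relative presentation
with linear relative Dehn function. -/
def IsRelHyperbolic (H : Fin n → Subgroup G) : Prop :=
  ∃ (X : Finset G) (R : Set (RelFree H X)),
    Function.Surjective (relEval H X) ∧ R.Finite ∧
    Subgroup.normalClosure R = (relEval H X).ker ∧
    ∃ C : ℕ, ∀ W : List (RelLetter H X), relEval H X (W.map (relLetter H X)).prod = 1 →
      AreaLE R (W.map (relLetter H X)).prod (C * W.length + C)

end

/-- Hyperbolic relative to a non-empty finite collection of proper infinite subgroups. -/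
def IsProperlyRelHyperbolic (G : Type w) [Group G] : Prop :=
  ∃ (n : ℕ) (H : Fin n → Subgroup G), 0 < n ∧ (∀ i, H i ≠ ⊤ ∧ (H i : Set G).Infinite) ∧
    IsRelHyperbolic H

end Pool.Agent.Lib.MP_e6550d_al
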