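import Pool.Agent.Lib.MP_e6550d_al.Defs

namespace Pool.Agent.Lib.MP_e6550d_al

universe u v

variable {P : SemigroupPresentation.{u, v}}

abbrev Wd (P : SemigroupPresentation.{u, v}) : Type u := List P.Letter

/-- oriented edges of the Squier complex -/
@[ext] structure SE (P : SemigroupPresentation.{u, v}) : Type (max u v) where
  a : Wd P
  r : P.Rel
  s : Bool
  b : Wd P

def inp (r : P.Rel) : Bool → Wd P
  | true => P.lhs r
  | false => P.rhs r

theorem inp_ne (r : P.Rel) (s : Bool) : inp r s ≠ [] := by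
  cases s
  · exact P.rhs_ne r
  · exact P.lhs_ne r

def SE.src (e : SE P) : Wd P := e.a ++ inp e.r e.s ++ e.b
def SE.tgt (e : SE P) : Wd P := e.a ++ inp e.r (!e.s) ++ e.b
def SE.inv (e : SE P) : SE P := ⟨e.a, e.r, !e.s, e.b⟩
def SE.ctx (l r : Wd P) (e : SE P) : SE P := ⟨l ++ e.a, e.r, e.s, e.b ++ r⟩

@[simp] theorem SE.src_inv (e : SE P) : e.inv.src = e.tgt := rfl
@[simp] theorem SE.tgt_inv (e : SE P) : e.inv.tgt = e.src := by simp [SE.inv, SE.tgt, SE.src]
@[simp] theorem SE.inv_inv (e : SE P) : e.inv.inv = e := by simp [SE.inv]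
@[simp] theorem SE.src_ctx (l r : Wd P) (e : SE P) : (e.ctx l r).src = l ++ e.src ++ r := by
  simp [SE.ctx, SE.src]
@[simp] theorem SE.tgt_ctx (l r : Wd P) (e : SE P) : (e.ctx l r).tgt = l ++ e.tgt ++ r := by
  simp [SE.ctx, SE.tgt]

def sqRels (P : SemigroupPresentation.{u, v}) : Set (FreeGroup (Wd P × P.Rel × Wd P)) :=
  {x | ∃ (a : Wd P) (r : P.Rel) (b : Wd P) (s : P.Rel) (c : Wd P),
    x = FreeGroup.of (a, r, b ++ P.lhs s ++ c) * FreeGroup.of (a ++ P.rhs r ++ b, s, c) *
      (FreeGroup.of (a ++ P.lhs r ++ b, s, c) * FreeGroup.of (a, r, b ++ P.rhs s ++ c))⁻¹}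

/-- the universal group of the fundamental groupoid of the Squier complex -/
abbrev UG (P : SemigroupPresentation.{u, v}) : Type (max u v) := PresentedGroup (sqRels P)

def gen (a : Wd P) (r : P.Rel) (b : Wd P) : UG P := PresentedGroup.of (a, r, b)

theorem gen_sq (a : Wd P) (r : P.Rel) (b : Wd P) (s : P.Rel) (c : Wd P) :
    gen a r (b ++ P.lhs s ++ c) * gen (a ++ P.rhs r ++ b) s c
      = gen (a ++ P.lhs r ++ b) s c * gen a r (b ++ P.rhs s ++ c) :=
  PresentedGroup.mk_eq_mk_of_mul_inv_mem (rels := sqRels P) ⟨a, r, b, s, c, rfl⟩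

def mkHom {K : Type*} [Group K] (φ : Wd P → P.Rel → Wd P → K)
    (h : ∀ a r b s c, φ a r (b ++ P.lhs s ++ c) * φ (a ++ P.rhs r ++ b) s c
      = φ (a ++ P.lhs r ++ b) s c * φ a r (b ++ P.rhs s ++ c)) : UG P →* K :=
  PresentedGroup.toGroup (f := fun x => φ x.1 x.2.1 x.2.2) (by
    rintro _ ⟨a, r, b, s, c, rfl⟩
    simp only [map_mul, map_inv, FreeGroup.lift_apply_of, h, mul_inv_cancel])

@[simp] theorem mkHom_gen {K : Type*} [Group K] (φ : Wd P → P.Rel → Wd P → K) (h)
    (a : Wd P) (r : P.Rel) (b : Wd P) : mkHom φ h (gen a r b) = φ a r b :=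
  PresentedGroup.toGroup.of _

def SE.cls (e : SE P) : UG P :=
  match e.s with
  | true => gen e.a e.r e.b
  | false => (gen e.a e.r e.b)⁻¹

@[simp] theorem SE.cls_true (a : Wd P) (r : P.Rel) (b : Wd P) :
    (⟨a, r, true, b⟩ : SE P).cls = gen a r b := rfl
@[simp] theorem SE.cls_false (a : Wd P) (r : P.Rel) (b : Wd P) :
    (⟨a, r, false, b⟩ : SE P).cls = (gen a r b)⁻¹ := rfl

@[simp] theorem SE.cls_inv (e : SE P) : e.inv.cls = e.cls⁻¹ := by
  obtain ⟨a, r, _ | _, b⟩ := e <;> simp [SE.inv]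

theorem cls_sq (a : Wd P) (r : P.Rel) (σ : Bool) (b : Wd P) (s : P.Rel) (τ : Bool) (c : Wd P) :
    (⟨a, r, σ, b ++ inp s τ ++ c⟩ : SE P).cls * (⟨a ++ inp r (!σ) ++ b, s, τ, c⟩ : SE P).cls
      = (⟨a ++ inp r σ ++ b, s, τ, c⟩ : SE P).cls * (⟨a, r, σ, b ++ inp s (!τ) ++ c⟩ : SE P).cls := by
  have h := gen_sq a r b s c
  cases σ <;> cases τ <;> simp only [inp, SE.cls_true, SE.cls_false, Bool.not_true, Bool.not_false]
  · rw [← mul_inv_rev, ← mul_inv_rev, h]
  · rw [inv_mul_eq_iff_eq_mul, ← mul_assoc, h]; group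
  · rw [mul_inv_eq_iff_eq_mul, mul_assoc, h]; group
  · exact h

def cls (L : List (SE P)) : UG P := (L.map SE.cls).prod
def rev (L : List (SE P)) : List (SE P) := (L.map SE.inv).reverse

@[simp] theorem cls_nil : cls ([] : List (SE P)) = 1 := rfl
@[simp] theorem cls_cons (e : SE P) (L : List (SE P)) : cls (e :: L) = e.cls * cls L := by
  simp [cls]
@[simp] theorem cls_append (L M : List (SE P)) : cls (L ++ M) = cls L * cls M := by simp [cls]
@[simp] theorem rev_nil : rev ([] : List (SE P)) = [] := rfl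
@[simp] theorem rev_cons (e : SE P) (L : List (SE P)) : rev (e :: L) = rev L ++ [e.inv] := by
  simp [rev]
@[simp] theorem cls_rev (L : List (SE P)) : cls (rev L) = (cls L)⁻¹ := by
  induction L with
  | nil => simp
  | cons e L ih => simp [ih]
@[simp] theorem length_rev (L : List (SE P)) : (rev L).length = L.length := by simp [rev]
@[simp] theorem rev_rev (L : List (SE P)) : rev (rev L) = L := by
  simp [rev, List.map_reverse, Function.comp_def]
theorem mem_rev {L : List (SE P)} {e : SE P} : e ∈ rev L ↔ e.inv ∈ L := by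
  simp only [rev, List.mem_reverse, List.mem_map]
  constructor
  · rintro ⟨f, hf, rfl⟩; simpa using hf
  · intro h; exact ⟨_, h, by simp⟩

def Walk : Wd P → List (SE P) → Wd P → Prop
  | x, [], y => x = y
  | x, e :: L, y => x = e.src ∧ Walk e.tgt L y

@[simp] theorem walk_nil {x y : Wd P} : Walk x [] y ↔ x = y := Iff.rfl
@[simp] theorem walk_cons {x y : Wd P} {e : SE P} {L : List (SE P)} :
    Walk x (e :: L) y ↔ x = e.src ∧ Walk e.tgt L y := Iff.rfl

theorem walk_append {x y : Wd P} {L M : List (SE P)} :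
    Walk x (L ++ M) y ↔ ∃ z, Walk x L z ∧ Walk z M y := by
  induction L generalizing x with
  | nil => simp
  | cons e L ih =>
    simp only [List.cons_append, walk_cons, ih]
    constructor
    · rintro ⟨h, z, h1, h2⟩; exact ⟨z, ⟨h, h1⟩, h2⟩
    · rintro ⟨z, ⟨h, h1⟩, h2⟩; exact ⟨h, z, h1, h2⟩

theorem Walk.append {x y z : Wd P} {L M : List (SE P)} (h : Walk x L y) (h' : Walk y M z) :
    Walk x (L ++ M) z := walk_append.2 ⟨y, h, h'⟩

theorem walk_single (e : SE P) : Walk e.src [e] e.tgt := ⟨rfl, rfl⟩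

theorem Walk.rev {x y : Wd P} {L : List (SE P)} (h : Walk x L y) : Walk y (rev L) x := by
  induction L generalizing x with
  | nil => exact h.symm
  | cons e L ih =>
    rw [rev_cons]
    refine (ih h.2).append ⟨rfl, ?_⟩
    simp [h.1]

theorem Walk.ctx {x y : Wd P} {L : List (SE P)} (h : Walk x L y) (l r : Wd P) :
    Walk (l ++ x ++ r) (L.map (SE.ctx l r)) (l ++ y ++ r) := by
  induction L generalizing x with
  | nil => simp only [walk_nil] at h; simp [h]
  | cons e L ih =>
    refine ⟨by simp [h.1], ?_⟩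
    rw [SE.tgt_ctx]
    exact ih h.2

theorem Walk.ctxL {x y : Wd P} {L : List (SE P)} (h : Walk x L y) (l : Wd P) :
    Walk (l ++ x) (L.map (SE.ctx l [])) (l ++ y) := by simpa using h.ctx l []

theorem Walk.ctxR {x y : Wd P} {L : List (SE P)} (h : Walk x L y) (r : Wd P) :
    Walk (x ++ r) (L.map (SE.ctx [] r)) (y ++ r) := by simpa using h.ctx [] r

def ctx (l r : Wd P) : UG P →* UG P :=
  mkHom (fun a ρ b => gen (l ++ a) ρ (b ++ r)) (by
    intro a ρ b s c
    have := gen_sq (l ++ a) ρ b s (c ++ r)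
    simpa using this)

@[simp] theorem ctx_gen (l r a : Wd P) (ρ : P.Rel) (b : Wd P) :
    ctx l r (gen a ρ b) = gen (l ++ a) ρ (b ++ r) := mkHom_gen _ _ _ _ _

theorem ctx_secls (l r : Wd P) (e : SE P) : ctx l r e.cls = (e.ctx l r).cls := by
  obtain ⟨a, ρ, _ | _, b⟩ := e <;> simp [SE.ctx]

@[simp] theorem cls_map_ctx (l r : Wd P) (L : List (SE P)) :
    cls (L.map (SE.ctx l r)) = ctx l r (cls L) := by
  induction L with
  | nil => simp
  | cons e L ih => simp [ih, ctx_secls]

theorem ctx_ctx (l r l' r' : Wd P) (g : UG P) :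
    ctx l r (ctx l' r' g) = ctx (l ++ l') (r' ++ r) g := by
  have : (ctx l r).comp (ctx l' r') = ctx (l ++ l') (r' ++ r) := by
    apply PresentedGroup.ext
    rintro ⟨a, ρ, b⟩
    change ctx l r (ctx l' r' (gen a ρ b)) = ctx (l ++ l') (r' ++ r) (gen a ρ b)
    simp
  exact DFunLike.congr_fun this g

@[simp] theorem ctx_nil (g : UG P) : ctx [] [] g = g := by
  have : ctx (P := P) [] [] = MonoidHom.id _ := by
    apply PresentedGroup.ext
    rintro ⟨a, ρ, b⟩
    change ctx [] [] (gen a ρ b) = gen a ρ b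
    simp
  exact DFunLike.congr_fun this g

/-- classes of walks from `x` to `y` -/
def Hom (x y : Wd P) (g : UG P) : Prop := ∃ L, Walk x L y ∧ cls L = g
def Conn (x y : Wd P) : Prop := ∃ L, Walk x L y

theorem Hom.one (x : Wd P) : Hom x x 1 := ⟨[], rfl, rfl⟩
theorem Hom.mul {x y z : Wd P} {g h : UG P} (h1 : Hom x y g) (h2 : Hom y z h) :
    Hom x z (g * h) := by
  obtain ⟨L, a, rfl⟩ := h1
  obtain ⟨M, b, rfl⟩ := h2
  exact ⟨L ++ M, a.append b, by simp⟩
theorem Hom.inv {x y : Wd P} {g : UG P} (h1 : Hom x y g) : Hom y x g⁻¹ := by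
  obtain ⟨L, a, rfl⟩ := h1
  exact ⟨rev L, a.rev, by simp⟩
theorem Hom.pow {x : Wd P} {g : UG P} (h1 : Hom x x g) (m : ℕ) : Hom x x (g ^ m) := by
  induction m with
  | zero => simpa using Hom.one x
  | succ m ih => rw [pow_succ]; exact ih.mul h1
theorem Hom.ctx {x y : Wd P} {g : UG P} (h1 : Hom x y g) (l r : Wd P) :
    Hom (l ++ x ++ r) (l ++ y ++ r) (ctx l r g) := by
  obtain ⟨L, a, rfl⟩ := h1
  exact ⟨_, a.ctx l r, by simp⟩
theorem Hom.ctxL {x y : Wd P} {g : UG P} (h1 : Hom x y g) (l : Wd P) :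
    Hom (l ++ x) (l ++ y) (MP_e6550d_al.ctx l [] g) := by simpa using h1.ctx l []
theorem Hom.ctxR {x y : Wd P} {g : UG P} (h1 : Hom x y g) (r : Wd P) :
    Hom (x ++ r) (y ++ r) (MP_e6550d_al.ctx [] r g) := by simpa using h1.ctx [] r
theorem Hom.edge (e : SE P) : Hom e.src e.tgt e.cls := ⟨[e], walk_single e, by simp⟩
theorem Walk.hom {x y : Wd P} {L : List (SE P)} (h : Walk x L y) : Hom x y (cls L) := ⟨L, h, rfl⟩
theorem Hom.conn {x y : Wd P} {g : UG P} (h : Hom x y g) : Conn x y := h.imp fun _ h => h.1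
theorem Conn.hom {x y : Wd P} (h : Conn x y) : ∃ g, Hom x y g := ⟨_, h.choose_spec.hom⟩
theorem Conn.refl (x : Wd P) : Conn x x := ⟨[], rfl⟩
theorem Conn.symm {x y : Wd P} (h : Conn x y) : Conn y x := ⟨_, h.choose_spec.rev⟩
theorem Conn.trans {x y z : Wd P} (h : Conn x y) (h' : Conn y z) : Conn x z :=
  ⟨_, h.choose_spec.append h'.choose_spec⟩
theorem Conn.edge (e : SE P) : Conn e.src e.tgt := ⟨_, walk_single e⟩
theorem Conn.ctx {x y : Wd P} (h : Conn x y) (l r : Wd P) : Conn (l ++ x ++ r) (l ++ y ++ r) :=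
  ⟨_, h.choose_spec.ctx l r⟩
theorem Conn.ctxL {x y : Wd P} (h : Conn x y) (l : Wd P) : Conn (l ++ x) (l ++ y) :=
  ⟨_, h.choose_spec.ctxL l⟩
theorem Conn.ctxR {x y : Wd P} (h : Conn x y) (r : Wd P) : Conn (x ++ r) (y ++ r) :=
  ⟨_, h.choose_spec.ctxR r⟩

theorem inter_edge (e f : SE P) :
    ctx [] f.src e.cls * ctx e.tgt [] f.cls = ctx e.src [] f.cls * ctx [] f.tgt e.cls := by
  have := cls_sq e.a e.r e.s (e.b ++ f.a) f.r f.s f.b
  simp only [ctx_secls, SE.ctx, SE.src, SE.tgt]
  simpa using this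

/-- the interchange law -/
theorem inter {p p' q q' : Wd P} {g h : UG P} (h1 : Hom p p' g) (h2 : Hom q q' h) :
    ctx [] q g * ctx p' [] h = ctx p [] h * ctx [] q' g := by
  obtain ⟨L, a, rfl⟩ := h1
  obtain ⟨M, b, rfl⟩ := h2
  have k1 : ∀ (e : SE P) (q : Wd P), Walk q M q' →
      ctx [] q e.cls * ctx e.tgt [] (cls M) = ctx e.src [] (cls M) * ctx [] q' e.cls := by
    intro e
    clear b
    induction M with
    | nil => intro q hq; simp only [walk_nil] at hq; simp [hq]
    | cons f M ih =>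
      intro q hq
      rw [hq.1, cls_cons, map_mul, map_mul, ← mul_assoc, inter_edge, mul_assoc, ih _ hq.2,
        mul_assoc]
  induction L generalizing p with
  | nil => simp only [walk_nil] at a; simp [a]
  | cons e L ih =>
    rw [a.1, cls_cons, map_mul, map_mul, mul_assoc, ih a.2, ← mul_assoc, k1 e q b, mul_assoc]

section action

variable {σ : Type*}

def run (act : SE P → σ → σ) (L : List (SE P)) (s : σ) : σ := L.foldl (fun s e => act e s) s

@[simp] theorem run_nil (act : SE P → σ → σ) (s : σ) : run act [] s = s := rfl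
@[simp] theorem run_cons (act : SE P → σ → σ) (e : SE P) (L : List (SE P)) (s : σ) :
    run act (e :: L) s = run act L (act e s) := rfl
@[simp] theorem run_append (act : SE P → σ → σ) (L M : List (SE P)) (s : σ) :
    run act (L ++ M) s = run act M (run act L s) := by simp [run]

/-- a (partially defined) action of the fundamental groupoid -/
structure IsAct (At : σ → Wd P → Prop) (act : SE P → σ → σ) : Prop where
  at_act : ∀ e s, At s e.src → At (act e s) e.tgt
  inv_act : ∀ e s, At s e.src → act e.inv (act e s) = s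
  sq_act : ∀ a r b t c s, At s (a ++ P.lhs r ++ (b ++ P.lhs t ++ c)) →
    act ⟨a ++ P.rhs r ++ b, t, true, c⟩ (act ⟨a, r, true, b ++ P.lhs t ++ c⟩ s)
      = act ⟨a, r, true, b ++ P.rhs t ++ c⟩ (act ⟨a ++ P.lhs r ++ b, t, true, c⟩ s)

variable {At : σ → Wd P → Prop} {act : SE P → σ → σ}

theorem IsAct.at_run (A : IsAct At act) {x y : Wd P} {L : List (SE P)} (h : Walk x L y) {s : σ}
    (hs : At s x) : At (run act L s) y := by
  induction L generalizing x s with
  | nil => exact h ▸ hs
  | cons e L ih => exact ih h.2 (A.at_act e s (h.1 ▸ hs))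

theorem IsAct.run_rev (A : IsAct At act) {x y : Wd P} {L : List (SE P)} (h : Walk x L y) {s : σ}
    (hs : At s x) : run act (rev L) (run act L s) = s := by
  induction L generalizing x s with
  | nil => rfl
  | cons e L ih =>
    have h1 := A.at_act e s (h.1 ▸ hs)
    simp [ih h.2 h1, A.inv_act e s (h.1 ▸ hs)]

theorem IsAct.run_rev' (A : IsAct At act) {x y : Wd P} {L : List (SE P)} (h : Walk x L y) {s : σ}
    (hs : At s y) : run act L (run act (rev L) s) = s := by
  simpa using A.run_rev h.rev hs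

open Classical in
noncomputable def IsAct.pm (A : IsAct At act) (x : Wd P) (M : List (SE P)) :
    Equiv.Perm {s // At s x} :=
  if h : Walk x M x then
    { toFun := fun s => ⟨run act M s.1, A.at_run h s.2⟩
      invFun := fun s => ⟨run act (rev M) s.1, A.at_run h.rev s.2⟩
      left_inv := fun s => Subtype.ext (A.run_rev h s.2)
      right_inv := fun s => Subtype.ext (A.run_rev' h s.2) }
  else 1

theorem IsAct.pm_val (A : IsAct At act) {x : Wd P} {M : List (SE P)} (h : Walk x M x)
    (s : {s // At s x}) : (A.pm x M s).1 = run act M s.1 := by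
  simp [IsAct.pm, h]

open Classical in
noncomputable def tree (x y : Wd P) : List (SE P) := if h : Conn x y then h.choose else []

theorem tree_walk {x y : Wd P} (h : Conn x y) : Walk x (tree x y) y := by
  simp only [tree, h, dif_pos]; exact h.choose_spec

theorem IsAct.action (A : IsAct At act) {x y : Wd P} {L L' : List (SE P)} (hL : Walk x L y)
    (hL' : Walk x L' y) (hc : cls L = cls L') {s : σ} (hs : At s x) :
    run act L s = run act L' s := by
  let lp : SE P → List (SE P) := fun e => tree x e.src ++ [e] ++ rev (tree x e.tgt)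
  have hlp : ∀ e : SE P, Conn x e.src → Walk x (lp e) x := fun e he =>
    ((tree_walk he).append (walk_single e)).append (tree_walk (he.trans (Conn.edge e))).rev
  have hlp' : ∀ e : SE P, ¬ Conn x e.src → A.pm x (lp e) = 1 := by
    intro e he
    have : ¬ Walk x (lp e) x := by
      intro h
      simp only [lp, List.append_assoc, walk_append] at h
      obtain ⟨z, h1, z', h2, -⟩ := h
      exact he ⟨_, h2.1 ▸ h1⟩
    simp [IsAct.pm, this]
  have two : ∀ e f : SE P, Conn x e.src → e.tgt = f.src → ∀ s : {s // At s x},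
      (A.pm x (lp f) (A.pm x (lp e) s)).1
        = run act (rev (tree x f.tgt)) (act f (act e (run act (tree x e.src) s.1))) := by
    intro e f he hef s
    have hf : Conn x f.src := hef ▸ he.trans (Conn.edge e)
    rw [A.pm_val (hlp f hf), A.pm_val (hlp e he)]
    simp only [lp, run_append, run_cons, run_nil]
    rw [hef, A.run_rev' (tree_walk hf)]
    exact hef ▸ A.at_act _ _ (A.at_run (tree_walk he) s.2)
  let Φ : UG P →* (Equiv.Perm {s // At s x})ᵐᵒᵖ :=
    mkHom (fun a r b => MulOpposite.op (A.pm x (lp ⟨a, r, true, b⟩))) (by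
      intro a r b t c
      apply MulOpposite.unop_injective
      simp only [MulOpposite.unop_mul, MulOpposite.unop_op]
      by_cases h : Conn x (a ++ P.lhs r ++ (b ++ P.lhs t ++ c))
      · ext s
        simp only [Equiv.Perm.coe_mul, Function.comp_apply]
        rw [two ⟨a, r, true, b ++ P.lhs t ++ c⟩ ⟨a ++ P.rhs r ++ b, t, true, c⟩ h
            (by simp [SE.src, SE.tgt, inp]),
          two ⟨a ++ P.lhs r ++ b, t, true, c⟩ ⟨a, r, true, b ++ P.rhs t ++ c⟩
            (by simpa [SE.src, inp] using h) (by simp [SE.src, SE.tgt, inp])]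
        have e1 : (⟨a ++ P.lhs r ++ b, t, true, c⟩ : SE P).src
            = (⟨a, r, true, b ++ P.lhs t ++ c⟩ : SE P).src := by simp [SE.src, inp]
        have e2 : (⟨a ++ P.rhs r ++ b, t, true, c⟩ : SE P).tgt
            = (⟨a, r, true, b ++ P.rhs t ++ c⟩ : SE P).tgt := by simp [SE.tgt, inp]
        rw [e1, e2, A.sq_act]
        exact A.at_run (tree_walk h) s.2
      · have c1 := Conn.edge (⟨a, r, true, b ++ P.lhs t ++ c⟩ : SE P)
        have c2 := Conn.edge (⟨a ++ P.lhs r ++ b, t, true, c⟩ : SE P)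
        rw [hlp' ⟨a, r, true, b ++ P.lhs t ++ c⟩ h,
          hlp' ⟨a ++ P.lhs r ++ b, t, true, c⟩ (by simpa [SE.src, inp] using h),
          hlp' ⟨a ++ P.rhs r ++ b, t, true, c⟩, hlp' ⟨a, r, true, b ++ P.rhs t ++ c⟩]
        · intro h'
          apply h
          refine h'.trans ?_
          simpa [SE.src, SE.tgt, inp] using c2.symm
        · intro h'
          apply h
          refine h'.trans ?_
          simpa [SE.src, SE.tgt, inp] using c1.symm)
  have hΦe : ∀ e : SE P, Conn x e.src → ∀ s : {s // At s x},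
      ((Φ e.cls).unop s).1 = run act (lp e) s.1 := by
    rintro ⟨a, r, _ | _, b⟩ he s
    · have he' : Conn x (⟨a, r, true, b⟩ : SE P).src := he.trans (Conn.edge _)
      simp only [SE.cls_false, map_inv, Φ, mkHom_gen, MulOpposite.unop_inv, MulOpposite.unop_op]
      have : (A.pm x (lp ⟨a, r, true, b⟩))⁻¹ s
          = ⟨_, A.at_run (hlp _ he) s.2⟩ := by
        rw [Equiv.Perm.inv_eq_iff_eq]
        apply Subtype.ext
        rw [A.pm_val (hlp _ he')]
        have e : lp ⟨a, r, true, b⟩ = rev (lp ⟨a, r, false, b⟩) := by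
          simp [lp, rev, SE.inv, SE.src, SE.tgt, List.map_reverse, Function.comp_def]
        rw [e, A.run_rev (hlp _ he) s.2]
      rw [this]
    · simp only [SE.cls_true, Φ, mkHom_gen, MulOpposite.unop_op]
      exact A.pm_val (hlp _ he) s
  have hΦ : ∀ (M : List (SE P)) (z : Wd P), Conn x z → Walk z M y → ∀ s : {s // At s x},
      ((Φ (cls M)).unop s).1 = run act (rev (tree x y)) (run act M (run act (tree x z) s.1)) := by
    intro M
    induction M with
    | nil =>
      intro z hz h s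
      simp only [walk_nil] at h
      subst h
      simp [A.run_rev (tree_walk hz) s.2]
    | cons e M ih =>
      intro z hz h s
      obtain ⟨rfl, h⟩ := h
      have hz' := hz.trans (Conn.edge e)
      simp only [cls_cons, map_mul, MulOpposite.unop_mul, Equiv.Perm.coe_mul, Function.comp_apply]
      rw [ih _ hz' h, hΦe e hz]
      simp only [lp, run_append, run_cons, run_nil]
      rw [A.run_rev' (tree_walk hz')]
      exact A.at_act _ _ (A.at_run (tree_walk hz) s.2)
  have hx := tree_walk (Conn.refl x)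
  have hy := tree_walk (⟨L, hL⟩ : Conn x y)
  have h1 := hΦ L x (Conn.refl x) hL ⟨_, A.at_run hx.rev hs⟩
  have h2 := hΦ L' x (Conn.refl x) hL' ⟨_, A.at_run hx.rev hs⟩
  rw [hc, h2] at h1
  simp only [A.run_rev' hx hs] at h1
  have h3 := congrArg (run act (tree x y)) h1
  rw [A.run_rev' hy (A.at_run hL hs), A.run_rev' hy (A.at_run hL' hs)] at h3
  exact h3.symm

end action

end Pool.Agent.Lib.MP_e6550d_al
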