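import Pool.Agent.Lib.MP_e6550d_al.DgA

namespace Pool.Agent.Lib.MP_e6550d_al

universe u v

variable {P : SemigroupPresentation.{u, v}}

/-- causal histories of letter occurrences in a diagram -/
inductive Hist (P : SemigroupPresentation.{u, v}) : Type (max u v)
  | leaf : Bool → Hist P
  | cell : P.Rel → Bool → Hist P → ℕ → Hist P
  | nil : Hist P
  | cons : P.Letter → Hist P → Hist P → Hist P

abbrev St (P : SemigroupPresentation.{u, v}) : Type (max u v) := List (P.Letter × Hist P)

def lab (s : St P) : Wd P := s.map Prod.fst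

@[simp] theorem lab_append (s t : St P) : lab (s ++ t) = lab s ++ lab t := by simp [lab]
@[simp] theorem length_lab (s : St P) : (lab s).length = s.length := by simp [lab]

def enc : St P → Hist P
  | [] => Hist.nil
  | p :: I => Hist.cons p.1 p.2 (enc I)

theorem enc_inj {I J : St P} (h : enc I = enc J) : I = J := by
  induction I generalizing J with
  | nil => cases J with
    | nil => rfl
    | cons q J => simp [enc] at h
  | cons p I ih => cases J with
    | nil => simp [enc] at h
    | cons q J =>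
      simp only [enc, Hist.cons.injEq] at h
      rw [ih h.2.2, Prod.ext h.1 h.2.1]

def outsAux (r : P.Rel) (σ : Bool) (h : Hist P) : ℕ → Wd P → St P
  | _, [] => []
  | j, x :: w => (x, Hist.cell r σ h j) :: outsAux r σ h (j + 1) w

def outs (r : P.Rel) (σ : Bool) (I : St P) : St P := outsAux r σ (enc I) 0 (inp r (!σ))

theorem lab_outsAux (r : P.Rel) (σ : Bool) (h : Hist P) (j : ℕ) (w : Wd P) :
    lab (outsAux r σ h j w) = w := by
  induction w generalizing j with
  | nil => rfl
  | cons x w ih => simp only [outsAux, lab, List.map_cons] at ih ⊢; rw [ih]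

@[simp] theorem lab_outs (r : P.Rel) (σ : Bool) (I : St P) : lab (outs r σ I) = inp r (!σ) :=
  lab_outsAux _ _ _ _ _

theorem mem_outsAux {r : P.Rel} {σ : Bool} {h : Hist P} {j : ℕ} {w : Wd P}
    {p : P.Letter × Hist P} (hp : p ∈ outsAux r σ h j w) : ∃ k, p.2 = Hist.cell r σ h k := by
  induction w generalizing j with
  | nil => simp [outsAux] at hp
  | cons x w ih =>
    simp only [outsAux, List.mem_cons] at hp
    rcases hp with rfl | hp
    · exact ⟨j, rfl⟩
    · exact ih hp

theorem outsAux_pos {r : P.Rel} {σ : Bool} {h : Hist P} {j : ℕ} {w : Wd P} {m c : St P}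
    {p : P.Letter × Hist P} (hp : outsAux r σ h j w = m ++ p :: c) :
    p.2 = Hist.cell r σ h (j + m.length) := by
  induction w generalizing j m with
  | nil => simp [outsAux] at hp
  | cons x w ih =>
    cases m with
    | nil =>
      simp only [outsAux, List.nil_append, List.cons.injEq] at hp
      simp [← hp.1]
    | cons q m =>
      simp only [outsAux, List.cons_append, List.cons.injEq] at hp
      rw [ih hp.2]
      simp [add_assoc, add_comm]

theorem outs_eq_cons (r : P.Rel) (σ : Bool) (I : St P) :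
    ∃ x t, outs r σ I = (x, Hist.cell r σ (enc I) 0) :: t := by
  unfold outs
  have := inp_ne r (!σ)
  cases h : inp r (!σ) with
  | nil => exact absurd h this
  | cons x w => exact ⟨x, _, rfl⟩

theorem outs_inj {r : P.Rel} {σ : Bool} {I J : St P} (h : outs r σ I = outs r σ J) : I = J := by
  obtain ⟨x, t, h1⟩ := outs_eq_cons r σ I
  obtain ⟨y, t', h2⟩ := outs_eq_cons r σ J
  rw [h1, h2] at h
  simp only [List.cons.injEq, Prod.mk.injEq, Hist.cell.injEq] at h
  exact enc_inj h.1.2.2.2.1

def leaves (β : Bool) (w : Wd P) : St P := w.map fun x => (x, Hist.leaf β)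

@[simp] theorem lab_leaves (β : Bool) (w : Wd P) : lab (leaves β w) = w := by
  simp [lab, leaves, Function.comp_def]
theorem leaves_append (β : Bool) (w w' : Wd P) :
    leaves β (w ++ w') = leaves β w ++ leaves β w' := by simp [leaves]

def AllAnon (I : St P) : Prop := ∀ p ∈ I, p.2 = Hist.leaf true

theorem allAnon_leaves (w : Wd P) : AllAnon (leaves true w) := by
  intro p hp
  obtain ⟨x, -, rfl⟩ := List.mem_map.1 hp
  rfl

theorem AllAnon.eq {I : St P} (h : AllAnon I) : leaves true (lab I) = I := by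
  induction I with
  | nil => rfl
  | cons p I ih =>
    have h1 := h p List.mem_cons_self
    have h2 := ih (fun q hq => h q (List.mem_cons_of_mem _ hq))
    simp only [leaves, lab, List.map_cons] at h2 ⊢
    rw [h2, ← h1]

theorem not_allAnon_outs (r : P.Rel) (σ : Bool) (I : St P) : ¬ AllAnon (outs r σ I) := by
  obtain ⟨x, t, h⟩ := outs_eq_cons r σ I
  intro h'
  have := h' (x, Hist.cell r σ (enc I) 0) (by simp [h])
  simp at this

def Ok : Hist P → Prop
  | Hist.leaf _ => True
  | Hist.cell r σ h _ => Ok h ∧ ∀ I, h = enc I →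
      lab I = inp r σ ∧ ¬ AllAnon I ∧ ∀ I', I ≠ outs r (!σ) I'
  | Hist.nil => True
  | Hist.cons _ h t => Ok h ∧ Ok t

def okS (s : St P) : Prop := ∀ p ∈ s, Ok p.2

theorem ok_enc {I : St P} : Ok (enc I) ↔ okS I := by
  induction I with
  | nil => simp [enc, Ok, okS]
  | cons p I ih => simp only [enc, Ok, ih, okS, List.forall_mem_cons]

theorem okS_append {s t : St P} : okS (s ++ t) ↔ okS s ∧ okS t := by
  simp only [okS, List.mem_append, or_imp, forall_and]

theorem okS_leaves (β : Bool) (w : Wd P) : okS (leaves β w) := by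
  intro p hp
  obtain ⟨x, -, rfl⟩ := List.mem_map.1 hp
  trivial

theorem okS_outs {r : P.Rel} {σ : Bool} {I : St P} : okS (outs r σ I) ↔
    okS I ∧ lab I = inp r σ ∧ ¬ AllAnon I ∧ ∀ I', I ≠ outs r (!σ) I' := by
  constructor
  · intro h
    obtain ⟨x, t, h1⟩ := outs_eq_cons r σ I
    have := h (x, Hist.cell r σ (enc I) 0) (by simp [h1])
    exact ⟨ok_enc.1 this.1, this.2 I rfl⟩
  · rintro ⟨h1, h2⟩ p hp
    obtain ⟨k, hk⟩ := mem_outsAux hp
    rw [hk]
    exact ⟨ok_enc.2 h1, fun J hJ => enc_inj hJ ▸ h2⟩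

def wt : Hist P → ℕ
  | Hist.leaf _ => 0
  | Hist.cell _ _ h 0 => 1 + wt h
  | Hist.cell _ _ _ (_ + 1) => 0
  | Hist.nil => 0
  | Hist.cons _ h t => wt h + wt t

def wtS (s : St P) : ℕ := (s.map fun p => wt p.2).sum

@[simp] theorem wtS_append (s t : St P) : wtS (s ++ t) = wtS s + wtS t := by simp [wtS]

theorem wt_enc (I : St P) : wt (enc I) = wtS I := by
  induction I with
  | nil => rfl
  | cons p I ih => simp only [enc, wt, ih, wtS, List.map_cons, List.sum_cons]

@[simp] theorem wtS_leaves (β : Bool) (w : Wd P) : wtS (leaves β w) = 0 := by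
  simp [wtS, leaves, Function.comp_def, wt]

theorem wtS_outsAux (r : P.Rel) (σ : Bool) (h : Hist P) (j : ℕ) (w : Wd P) :
    wtS (outsAux r σ h (j + 1) w) = 0 := by
  induction w generalizing j with
  | nil => rfl
  | cons x w ih =>
    have := ih (j + 1)
    simp only [wtS, outsAux, List.map_cons, List.sum_cons, wt] at this ⊢
    omega

@[simp] theorem wtS_outs (r : P.Rel) (σ : Bool) (I : St P) : wtS (outs r σ I) = 1 + wtS I := by
  unfold outs
  have := inp_ne r (!σ)
  cases h : inp r (!σ) with
  | nil => exact absurd h this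
  | cons x w =>
    have := wtS_outsAux r σ (enc I) 0 w
    simp only [wtS, outsAux, List.map_cons, List.sum_cons, wt, wt_enc] at this ⊢
    omega

open Classical in
/-- applying a relation to a segment of a state -/
noncomputable def loc (r : P.Rel) (σ : Bool) (I : St P) : St P :=
  if AllAnon I then leaves true (inp r (!σ))
  else if h : ∃ I', I = outs r (!σ) I' then h.choose else outs r σ I

theorem loc_anon {r : P.Rel} {σ : Bool} {I : St P} (h : AllAnon I) :
    loc r σ I = leaves true (inp r (!σ)) := by simp [loc, h]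

theorem loc_cancel (r : P.Rel) (σ : Bool) (I' : St P) : loc r σ (outs r (!σ) I') = I' := by
  have h : ∃ J, outs r (!σ) I' = outs r (!σ) J := ⟨I', rfl⟩
  simp only [loc, not_allAnon_outs, if_false, h, dif_pos]
  exact (outs_inj h.choose_spec).symm

theorem loc_create {r : P.Rel} {σ : Bool} {I : St P} (h : ¬ AllAnon I)
    (h' : ∀ I', I ≠ outs r (!σ) I') : loc r σ I = outs r σ I := by
  have : ¬ ∃ I', I = outs r (!σ) I' := by simpa using h'
  simp [loc, h, this]

theorem loc_cases (r : P.Rel) (σ : Bool) (I : St P) : AllAnon I ∨ (∃ I', I = outs r (!σ) I') ∨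
    (¬ AllAnon I ∧ ∀ I', I ≠ outs r (!σ) I') := by
  by_cases h : AllAnon I
  · exact Or.inl h
  · by_cases h' : ∃ I', I = outs r (!σ) I'
    · exact Or.inr (Or.inl h')
    · exact Or.inr (Or.inr ⟨h, by simpa using h'⟩)

theorem loc_spec {r : P.Rel} {σ : Bool} {I : St P} (h1 : okS I) (h2 : lab I = inp r σ) :
    okS (loc r σ I) ∧ lab (loc r σ I) = inp r (!σ) ∧ loc r (!σ) (loc r σ I) = I := by
  rcases loc_cases r σ I with h | ⟨I', rfl⟩ | ⟨h, h'⟩
  · rw [loc_anon h, loc_anon (allAnon_leaves _)]
    refine ⟨okS_leaves _ _, by simp, ?_⟩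
    rw [Bool.not_not, ← h2, h.eq]
  · rw [loc_cancel]
    obtain ⟨a, b, c, d⟩ := okS_outs.1 h1
    exact ⟨a, b, loc_create c d⟩
  · rw [loc_create h h']
    refine ⟨okS_outs.2 ⟨h1, h2, h, h'⟩, by simp, ?_⟩
    have := loc_cancel r (!σ) I
    rwa [Bool.not_not] at this

theorem wtS_loc (r : P.Rel) (σ : Bool) (I : St P) : wtS (loc r σ I) ≤ wtS I + 1 := by
  rcases loc_cases r σ I with h | ⟨I', rfl⟩ | ⟨h, h'⟩
  · rw [loc_anon h]; simp
  · rw [loc_cancel]; simp; omega
  · rw [loc_create h h']; simp; omega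

noncomputable def hact (e : SE P) (s : St P) : St P :=
  s.take e.a.length ++ loc e.r e.s ((s.drop e.a.length).take (inp e.r e.s).length) ++
    s.drop (e.a.length + (inp e.r e.s).length)

theorem hact_eq {a : Wd P} {r : P.Rel} {σ : Bool} {b : Wd P} {sa I sb : St P} (h1 : lab sa = a)
    (h2 : lab I = inp r σ) : hact ⟨a, r, σ, b⟩ (sa ++ I ++ sb) = sa ++ loc r σ I ++ sb := by
  subst h1
  simp only [hact, ← h2, length_lab]
  rw [← List.length_append, List.drop_left, List.append_assoc sa I sb, List.take_left,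
    List.drop_left, List.take_left]

theorem lab_split {s : St P} {x y : Wd P} (h : lab s = x ++ y) :
    ∃ s1 s2, s = s1 ++ s2 ∧ lab s1 = x ∧ lab s2 = y := List.map_eq_append_iff.1 h

theorem lab_split3 {s : St P} {x y z : Wd P} (h : lab s = x ++ y ++ z) :
    ∃ s1 s2 s3, s = s1 ++ s2 ++ s3 ∧ lab s1 = x ∧ lab s2 = y ∧ lab s3 = z := by
  obtain ⟨s12, s3, rfl, h1, h2⟩ := lab_split h
  obtain ⟨s1, s2, rfl, h3, h4⟩ := lab_split h1
  exact ⟨s1, s2, s3, rfl, h3, h4, h2⟩

def HAt (s : St P) (x : Wd P) : Prop := okS s ∧ lab s = x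

theorem isAct_hact : IsAct (HAt (P := P)) hact where
  at_act := by
    rintro ⟨a, r, σ, b⟩ s ⟨h1, h2⟩
    obtain ⟨sa, I, sb, rfl, h3, h4, h5⟩ := lab_split3 h2
    rw [hact_eq h3 h4]
    simp only [okS_append] at h1
    obtain ⟨k1, k2, -⟩ := loc_spec h1.1.2 h4
    refine ⟨okS_append.2 ⟨okS_append.2 ⟨h1.1.1, k1⟩, h1.2⟩, ?_⟩
    simp only [lab_append, h3, k2, h5, SE.tgt]
  inv_act := by
    rintro ⟨a, r, σ, b⟩ s ⟨h1, h2⟩
    obtain ⟨sa, I, sb, rfl, h3, h4, h5⟩ := lab_split3 h2
    simp only [okS_append] at h1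
    obtain ⟨-, k2, k3⟩ := loc_spec h1.1.2 h4
    rw [hact_eq h3 h4, SE.inv, hact_eq h3 k2, k3]
  sq_act := by
    rintro a r b t c s ⟨h1, h2⟩
    obtain ⟨sa, I, s', rfl, h3, h4, h5⟩ := lab_split3 h2
    obtain ⟨sb, J, sc, rfl, h6, h7, h8⟩ := lab_split3 h5
    simp only [okS_append] at h1
    obtain ⟨-, k2, -⟩ := loc_spec (σ := true) h1.1.2 h4
    have e1 : ∀ I' J' : St P, sa ++ I' ++ (sb ++ J' ++ sc) = (sa ++ I' ++ sb) ++ J' ++ sc := by
      intro I' J'; simp
    rw [hact_eq (σ := true) h3 h4, e1, hact_eq (σ := true) (by simp [h3, k2, h6, inp]) h7, e1,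
      hact_eq (σ := true) (by simp [h3, h4, h6]) h7, ← e1 I, hact_eq (σ := true) h3 h4, e1]

theorem run_ctx {x y : Wd P} {L : List (SE P)} (h : Walk x L y) {s : St P} (hs : HAt s x)
    (sl sr : St P) :
    run hact (L.map (SE.ctx (lab sl) (lab sr))) (sl ++ s ++ sr) = sl ++ run hact L s ++ sr := by
  induction L generalizing x s with
  | nil => rfl
  | cons e L ih =>
    obtain ⟨rfl, h⟩ := h
    have h1 := isAct_hact.at_act e s hs
    simp only [List.map_cons, run_cons]
    rw [← ih h h1]
    congr 1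
    obtain ⟨a, r, σ, b⟩ := e
    obtain ⟨sa, I, sb, rfl, h3, h4, h5⟩ := lab_split3 hs.2
    have e1 : ∀ I' : St P, sl ++ (sa ++ I' ++ sb) ++ sr = (sl ++ sa) ++ I' ++ (sb ++ sr) := by
      intro I'; simp
    rw [hact_eq h3 h4, e1, e1, SE.ctx, hact_eq (by simpa using h3) h4]

theorem run_anon {x y : Wd P} {L : List (SE P)} (h : Walk x L y) :
    run hact L (leaves true x) = leaves true y := by
  induction L generalizing x with
  | nil => simp only [walk_nil] at h; simp [h]
  | cons e L ih =>
    obtain ⟨rfl, h⟩ := h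
    rw [run_cons, ← ih h]
    congr 1
    obtain ⟨a, r, σ, b⟩ := e
    simp only [SE.src, SE.tgt, leaves_append]
    rw [hact_eq (by simp) (by simp), loc_anon (allAnon_leaves _)]

theorem wtS_run {x y : Wd P} {L : List (SE P)} (h : Walk x L y) {s : St P} (hs : HAt s x) :
    wtS (run hact L s) ≤ wtS s + L.length := by
  induction L generalizing x s with
  | nil => simp
  | cons e L ih =>
    obtain ⟨rfl, h⟩ := h
    have h1 := ih h (isAct_hact.at_act e s hs)
    have h2 : wtS (hact e s) ≤ wtS s + 1 := by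
      obtain ⟨a, r, σ, b⟩ := e
      obtain ⟨sa, I, sb, rfl, h3, h4, h5⟩ := lab_split3 hs.2
      rw [hact_eq h3 h4]
      have := wtS_loc r σ I
      simp only [wtS_append]
      omega
    simp only [run_cons, List.length_cons]
    omega

/-- states reached from the initial state over `y` by creating cells only -/
inductive CW (y : Wd P) : St P → UG P → Prop
  | base : CW y (leaves false y) 1
  | step (sa I sb : St P) (r : P.Rel) (σ : Bool) (g : UG P) : CW y (sa ++ I ++ sb) g →
      lab I = inp r σ →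
      CW y (sa ++ outs r σ I ++ sb) (g * (⟨lab sa, r, σ, lab sb⟩ : SE P).cls)

theorem CW.walk {y : Wd P} {s : St P} {g : UG P} (h : CW y s g) :
    ∃ L, Walk y L (lab s) ∧ cls L = g ∧ L.length = wtS s := by
  induction h with
  | base => exact ⟨[], by simp, rfl, by simp⟩
  | step sa I sb r σ g _ hI ih =>
    obtain ⟨L, h1, h2, h3⟩ := ih
    refine ⟨L ++ [⟨lab sa, r, σ, lab sb⟩], h1.append ⟨?_, ?_⟩, by simp [h2], ?_⟩
    · simp [SE.src, hI]
    · simp [SE.tgt]
    · simp only [List.length_append, h3, wtS_append, wtS_outs, List.length_singleton]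
      omega

theorem CW.noAnon {y : Wd P} {s : St P} {g : UG P} (h : CW y s g) :
    ∀ p ∈ s, p.2 ≠ Hist.leaf true := by
  induction h with
  | base =>
    intro p hp
    obtain ⟨x, -, rfl⟩ := List.mem_map.1 hp
    simp
  | step sa I sb r σ g _ hI ih =>
    intro p hp
    simp only [List.mem_append] at hp ih
    rcases hp with (hp | hp) | hp
    · exact ih p (Or.inl (Or.inl hp))
    · obtain ⟨k, hk⟩ := mem_outsAux hp
      simp [hk]
    · exact ih p (Or.inr hp)

theorem outs_overlap {A B A' B' I I' : St P} {r r' : P.Rel} {σ σ' : Bool} {m : St P}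
    (h1 : A' = A ++ m) (h2 : outs r σ I ++ B = m ++ (outs r' σ' I' ++ B')) :
    (∃ M, A' = A ++ outs r σ I ++ M ∧ B = M ++ outs r' σ' I' ++ B') ∨
    (A = A' ∧ r = r' ∧ σ = σ' ∧ I = I' ∧ B = B') := by
  rcases List.append_eq_append_iff.1 h2 with ⟨m', h3, h4⟩ | ⟨c, h3, h4⟩
  · exact Or.inl ⟨m', by simp [h1, h3], by simp [h4]⟩
  · cases c with
    | nil =>
      simp only [List.append_nil, List.nil_append] at h3 h4
      exact Or.inl ⟨[], by simp [h1, h3], by simp [h4]⟩
    | cons p c =>
      right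
      have h5 := outsAux_pos h3
      obtain ⟨x, t, h6⟩ := outs_eq_cons r' σ' I'
      rw [h6] at h4
      simp only [List.cons_append, List.cons.injEq] at h4
      rw [← h4.1] at h5
      simp only [Hist.cell.injEq, zero_add] at h5
      obtain ⟨rfl, rfl, h7, h8⟩ := h5
      have h9 := enc_inj h7
      subst h9
      have hm : m = [] := List.length_eq_zero_iff.1 h8.symm
      subst hm
      simp only [List.nil_append, List.append_cancel_left_eq] at h2
      exact ⟨by simpa using h1.symm, rfl, rfl, rfl, h2⟩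

theorem CW.uncreate {y : Wd P} {s : St P} {g : UG P} (h : CW y s g) :
    ∀ (sa I sb : St P) (r : P.Rel) (σ : Bool), s = sa ++ outs r σ I ++ sb →
      CW y (sa ++ I ++ sb) (g * (⟨lab sa, r, σ, lab sb⟩ : SE P).cls⁻¹) := by
  induction h with
  | base =>
    intro sa I sb r σ h
    obtain ⟨x, t, h1⟩ := outs_eq_cons r σ I
    have : (x, Hist.cell r σ (enc I) 0) ∈ leaves false y := by rw [h, h1]; simp
    obtain ⟨z, -, hz⟩ := List.mem_map.1 this
    simp at hz
  | step sa' I' sb' r' σ' g hcw hI ih =>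
    intro sa I sb r σ h
    rw [List.append_assoc, List.append_assoc] at h
    have same : sa = sa' ∧ r = r' ∧ σ = σ' ∧ I = I' ∧ sb = sb' → CW y (sa ++ I ++ sb)
        (g * (⟨lab sa', r', σ', lab sb'⟩ : SE P).cls * (⟨lab sa, r, σ, lab sb⟩ : SE P).cls⁻¹) := by
      rintro ⟨rfl, rfl, rfl, rfl, rfl⟩
      simpa using hcw
    have hlabI : ∀ {s g}, CW y s g → ∀ (sa I sb : St P) (r : P.Rel) (σ : Bool),
        s = sa ++ outs r σ I ++ sb → lab I = inp r σ := by
      intro s g h
      induction h with
      | base =>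
        intro sa I sb r σ h
        obtain ⟨x, t, h1⟩ := outs_eq_cons r σ I
        have : (x, Hist.cell r σ (enc I) 0) ∈ leaves false y := by rw [h, h1]; simp
        obtain ⟨z, -, hz⟩ := List.mem_map.1 this
        simp at hz
      | step sa' I' sb' r' σ' g hcw hI ih =>
        intro sa I sb r σ h
        rw [List.append_assoc, List.append_assoc] at h
        rcases List.append_eq_append_iff.1 h with ⟨m, h1, h2⟩ | ⟨m, h1, h2⟩
        · rcases outs_overlap h1 h2 with ⟨M, rfl, rfl⟩ | ⟨-, rfl, rfl, rfl, -⟩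
          · exact ih (sa' ++ I' ++ M) I sb r σ (by simp)
          · exact hI
        · rcases outs_overlap h1 h2 with ⟨M, rfl, rfl⟩ | ⟨-, rfl, rfl, rfl, -⟩
          · exact ih sa I (M ++ I' ++ sb') r σ (by simp)
          · exact hI
    rcases List.append_eq_append_iff.1 h with ⟨m, h1, h2⟩ | ⟨m, h1, h2⟩
    · rcases outs_overlap h1 h2 with ⟨M, rfl, rfl⟩ | ⟨a1, a2, a3, a4, a5⟩
      · have k0 := hlabI hcw (sa' ++ I' ++ M) I sb r σ (by simp)
        have k1 := ih (sa' ++ I' ++ M) I sb r σ (by simp)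
        have k2 := CW.step sa' I' (M ++ I ++ sb) r' σ' _ (by simpa using k1) hI
        have k3 := cls_sq (lab sa') r' σ' (lab M) r σ (lab sb)
        simp only [lab_append, lab_outs, hI, k0, List.append_assoc] at k2 k3 ⊢
        convert k2 using 1
        rw [mul_assoc, mul_assoc]
        congr 1
        rw [mul_inv_eq_iff_eq_mul, mul_assoc, k3]
        simp
      · exact same ⟨a1.symm, a2.symm, a3.symm, a4.symm, a5.symm⟩
    · rcases outs_overlap h1 h2 with ⟨M, rfl, rfl⟩ | h3
      · have k0 := hlabI hcw sa I (M ++ I' ++ sb') r σ (by simp)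
        have k1 := ih sa I (M ++ I' ++ sb') r σ (by simp)
        have k2 := CW.step (sa ++ I ++ M) I' sb' r' σ' _ (by simpa using k1) hI
        have k3 := cls_sq (lab sa) r σ (lab M) r' σ' (lab sb')
        simp only [lab_append, lab_outs, hI, k0, List.append_assoc] at k2 k3 ⊢
        convert k2 using 1
        rw [mul_assoc, mul_assoc]
        congr 1
        rw [mul_inv_eq_iff_eq_mul, mul_assoc, ← k3]
        simp
      · exact same h3

theorem hAt_leaves (β : Bool) (y : Wd P) : HAt (leaves β y) y := ⟨okS_leaves _ _, by simp⟩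

theorem cw_run {y z : Wd P} {L : List (SE P)} (h : Walk y L z) :
    CW y (run hact L (leaves false y)) (cls L) := by
  induction L using List.reverseRecOn generalizing z with
  | nil => exact CW.base
  | append_singleton L e ih =>
    obtain ⟨z', h1, rfl, -⟩ := walk_append.1 h
    have h2 := ih h1
    have h3 := isAct_hact.at_run h1 (hAt_leaves false y)
    simp only [run_append, run_cons, run_nil, cls_append, cls_cons, cls_nil, mul_one]
    generalize run hact L (leaves false y) = s at h2 h3
    obtain ⟨a, r, σ, b⟩ := e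
    obtain ⟨sa, I, sb, rfl, rfl, h4, rfl⟩ := lab_split3 h3.2
    rw [hact_eq rfl h4]
    rcases loc_cases r σ I with k | ⟨I', rfl⟩ | ⟨k, k'⟩
    · exfalso
      cases I with
      | nil => exact inp_ne r σ h4.symm
      | cons p I => exact h2.noAnon p (by simp) (k p (by simp))
    · rw [loc_cancel]
      have := h2.uncreate sa I' sb r (!σ) rfl
      rw [← SE.cls_inv] at this
      simpa [SE.inv] using this
    · rw [loc_create k k']
      exact CW.step sa I sb r σ _ h2 h4

/-- every class has a representative whose length is the number of cells -/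
theorem exists_short {y z : Wd P} {L : List (SE P)} (h : Walk y L z) :
    ∃ L', Walk y L' z ∧ cls L' = cls L ∧ L'.length = wtS (run hact L (leaves false y)) := by
  obtain ⟨L', h1, h2, h3⟩ := (cw_run h).walk
  rw [(isAct_hact.at_run h (hAt_leaves false y)).2] at h1
  exact ⟨L', h1, h2, h3⟩

theorem ctx_inj {y : Wd P} {g : UG P} (h : Hom y y g) (l r : Wd P) (h1 : ctx l r g = 1) :
    g = 1 := by
  obtain ⟨L, hL, rfl⟩ := h
  have h2 := isAct_hact.action (hL.ctx l r) (L' := []) rfl (by simpa using h1)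
    (s := leaves false l ++ leaves false y ++ leaves false r)
    (by rw [← leaves_append, ← leaves_append]; exact hAt_leaves _ _)
  have h3 := run_ctx hL (hAt_leaves false y) (leaves false l) (leaves false r)
  simp only [lab_leaves] at h3
  rw [h3] at h2
  simp only [run_nil, List.append_cancel_right_eq, List.append_cancel_left_eq] at h2
  obtain ⟨L', -, h4, h5⟩ := exists_short hL
  rw [h2, wtS_leaves] at h5
  rw [← h4, List.length_eq_zero_iff.1 h5, cls_nil]

end Pool.Agent.Lib.MP_e6550d_al
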