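import Pool.Agent.Lib.MP_e6550d_al.DgB

namespace Pool.Agent.Lib.MP_e6550d_al

universe u v

variable {P : SemigroupPresentation.{u, v}}

/-- the diagram group at `x` is trivial -/
def Triv (x : Wd P) : Prop := ∀ g, Hom x x g → g = 1

theorem Triv.conn {x y : Wd P} (h : Triv x) (c : Conn x y) : Triv y := by
  obtain ⟨k, hk⟩ := c.hom
  intro g hg
  have := h _ ((hk.mul hg).mul hk.inv)
  simpa [mul_inv_eq_one] using this

theorem Triv.factor {l x r : Wd P} (h : Triv (l ++ x ++ r)) : Triv x :=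
  fun _ hg => ctx_inj hg l r (h _ (hg.ctx l r))

theorem Triv.left {x r : Wd P} (h : Triv (x ++ r)) : Triv x :=
  Triv.factor (l := []) (by simpa using h)

theorem Triv.right {l x : Wd P} (h : Triv (l ++ x)) : Triv x :=
  Triv.factor (r := []) (by simpa using h)

theorem Triv.eq {x y : Wd P} (h : Triv x) {g g' : UG P} (h1 : Hom x y g) (h2 : Hom x y g') :
    g = g' := mul_inv_eq_one.1 (h _ (h1.mul h2.inv))

theorem triv_nil : Triv ([] : Wd P) := by
  rintro g ⟨L, hL, rfl⟩
  cases L with
  | nil => rfl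
  | cons e L =>
    exfalso
    have := hL.1
    simp [SE.src, inp_ne] at this

theorem conn_rel (b : Wd P) (s : P.Rel) (c : Wd P) :
    Conn (b ++ P.lhs s ++ c) (b ++ P.rhs s ++ c) := Conn.edge ⟨b, s, true, c⟩

section chi

variable (Q : Wd P → P.Rel → Wd P → Prop)

/-- invariance of a family of edges under parallelism -/
def SqInv : Prop := (∀ a r b s c, Q a r (b ++ P.lhs s ++ c) ↔ Q a r (b ++ P.rhs s ++ c)) ∧
  (∀ a r b s c, Q (a ++ P.lhs r ++ b) s c ↔ Q (a ++ P.rhs r ++ b) s c)

open Classical in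
noncomputable def chi (h : SqInv Q) : UG P →* Multiplicative ℤ :=
  mkHom (fun a r b => Multiplicative.ofAdd (if Q a r b then 1 else 0)) (by
    intro a r b s c
    rw [h.1 a r b s c, h.2 a r b s c, mul_comm])

open Classical in
noncomputable def sg (e : SE P) : ℤ := if Q e.a e.r e.b then (if e.s then 1 else -1) else 0

variable {Q}

theorem chi_cls (h : SqInv Q) (L : List (SE P)) :
    Multiplicative.toAdd (chi Q h (cls L)) = (L.map (sg Q)).sum := by
  induction L with
  | nil => simp
  | cons e L ih =>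
    simp only [cls_cons, map_mul, toAdd_mul, ih, List.map_cons, List.sum_cons]
    congr 1
    obtain ⟨a, r, _ | _, b⟩ := e
    · simp only [SE.cls_false, map_inv, chi, mkHom_gen, sg]
      split_ifs <;> simp_all
    · simp [chi, sg]

theorem abs_sum_sg (L : List (SE P)) : |(L.map (sg Q)).sum| ≤ L.length := by
  induction L with
  | nil => simp
  | cons e L ih =>
    have : |sg Q e| ≤ 1 := by unfold sg; split_ifs <;> simp
    simp only [List.map_cons, List.sum_cons, List.length_cons]
    push_cast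
    have := abs_add_le (sg Q e) (L.map (sg Q)).sum
    linarith

theorem sum_sg_eq_zero {L : List (SE P)} (h : ∀ e ∈ L, ¬ Q e.a e.r e.b) :
    (L.map (sg Q)).sum = 0 := by
  apply List.sum_eq_zero
  intro x hx
  obtain ⟨e, he, rfl⟩ := List.mem_map.1 hx
  simp [sg, h e he]

theorem two_mem {α : Type*} {L : List α} {x y : α} (hx : x ∈ L) (hy : y ∈ L) (hne : x ≠ y) :
    (∃ L1 D L2, L = L1 ++ x :: D ++ y :: L2) ∨ (∃ L1 D L2, L = L1 ++ y :: D ++ x :: L2) := by
  obtain ⟨s, t, rfl⟩ := List.append_of_mem hx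
  simp only [List.mem_append, List.mem_cons] at hy
  rcases hy with hy | hy | hy
  · obtain ⟨s1, s2, rfl⟩ := List.append_of_mem hy
    exact Or.inr ⟨s1, s2, t, by simp⟩
  · exact absurd hy.symm hne
  · obtain ⟨t1, t2, rfl⟩ := List.append_of_mem hy
    exact Or.inl ⟨s, t1, t2, by simp⟩

theorem exists_pair {L : List (SE P)} (h : (L.map (sg Q)).sum = 0) {e : SE P} (he : e ∈ L)
    (hQ : Q e.a e.r e.b) : ∃ (L1 : List (SE P)) (e1 : SE P) (D : List (SE P)) (e2 : SE P)
      (L2 : List (SE P)), L = L1 ++ e1 :: D ++ e2 :: L2 ∧ Q e1.a e1.r e1.b ∧ Q e2.a e2.r e2.b ∧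
      e2.s = !e1.s := by
  have hex : ∃ e' ∈ L, Q e'.a e'.r e'.b ∧ e'.s = !e.s := by
    by_contra hc
    push Not at hc
    have h1 : ∀ M : List (SE P), (∀ f ∈ M, f ∈ L) → 0 ≤ sg Q e * (M.map (sg Q)).sum := by
      intro M
      induction M with
      | nil => simp
      | cons f M ih =>
        intro hM
        have h2 := ih (fun g hg => hM g (List.mem_cons_of_mem _ hg))
        have h3 : 0 ≤ sg Q e * sg Q f := by
          by_cases hf : Q f.a f.r f.b
          · have h4 := hc f (hM f List.mem_cons_self) hf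
            have h5 : f.s = e.s := by simpa using h4
            simp only [sg, hf, hQ, h5, if_true]
            exact mul_self_nonneg _
          · simp [sg, hf]
        simp only [List.map_cons, List.sum_cons, mul_add]
        linarith
    obtain ⟨s, t, rfl⟩ := List.append_of_mem he
    have h2 := h1 s (fun f hf => by simp [hf])
    have h3 := h1 t (fun f hf => by simp [hf])
    have h4 : sg Q e * sg Q e = 1 := by
      simp only [sg, hQ, if_true]
      split_ifs <;> simp
    simp only [List.map_append, List.map_cons, List.sum_append, List.sum_cons] at h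
    have h5 := congrArg (sg Q e * ·) h
    simp only [mul_add, mul_zero] at h5
    linarith
  obtain ⟨e', he', hQ', hs⟩ := hex
  have hne : e ≠ e' := by
    rintro rfl
    simp at hs
  rcases two_mem he he' hne with ⟨L1, D, L2, h1⟩ | ⟨L1, D, L2, h1⟩
  · exact ⟨L1, e, D, e', L2, h1, hQ, hQ', hs⟩
  · exact ⟨L1, e', D, e, L2, h1, hQ', hQ, by simp [hs]⟩

end chi

theorem walk_tail {x : P.Letter} {y z : Wd P} {L : List (SE P)} (h : Walk (x :: y) L (x :: z))
    (hL : ∀ e ∈ L, e.a ≠ []) : ∃ L', Walk y L' z ∧ L = L'.map (SE.ctx [x] []) := by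
  induction L generalizing y with
  | nil => exact ⟨[], by simpa using h, rfl⟩
  | cons e L ih =>
    obtain ⟨a, r, σ, b⟩ := e
    have h1 := hL _ List.mem_cons_self
    cases a with
    | nil => simp at h1
    | cons x' a =>
      obtain ⟨h2, h3⟩ := h
      simp only [SE.src, SE.tgt, List.cons_append, List.cons.injEq] at h2 h3
      obtain ⟨rfl, h2⟩ := h2
      obtain ⟨L', h4, h5⟩ := ih h3 (fun f hf => hL f (List.mem_cons_of_mem _ hf))
      exact ⟨⟨a, r, σ, b⟩ :: L', ⟨h2, h4⟩, by simp [h5, SE.ctx]⟩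

/-- crossing an edge, moving in the contexts, and crossing back -/
theorem cross_back {a a' c c' : Wd P} {r : P.Rel} {σ : Bool} {g h : UG P} (hg : Hom a a' g)
    (hh : Hom c c' h) :
    (⟨a, r, σ, c⟩ : SE P).cls * (ctx [] (inp r (!σ) ++ c) g * ctx (a' ++ inp r (!σ)) [] h)
      = (ctx [] (inp r σ ++ c) g * ctx (a' ++ inp r σ) [] h) * (⟨a', r, σ, c'⟩ : SE P).cls := by
  have h1 := inter hg (Hom.edge ⟨[], r, σ, c⟩)
  have h2 := inter (Hom.edge ⟨a', r, σ, []⟩) hh
  simp only [ctx_secls, SE.ctx, SE.src, SE.tgt, List.nil_append, List.append_nil] at h1 h2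
  rw [← mul_assoc, ← h1, mul_assoc, h2, mul_assoc]

def QH (r0 : P.Rel) (c0 : Wd P) (a : Wd P) (r : P.Rel) (b : Wd P) : Prop :=
  a = [] ∧ r = r0 ∧ Conn b c0

theorem sqInv_QH (r0 : P.Rel) (c0 : Wd P) : SqInv (QH r0 c0) := by
  constructor
  · intro a r b s c
    have := conn_rel b s c
    exact ⟨fun h => ⟨h.1, h.2.1, this.symm.trans h.2.2⟩, fun h => ⟨h.1, h.2.1, this.trans h.2.2⟩⟩
  · intro a r b s c
    simp [QH, P.lhs_ne, P.rhs_ne]

theorem exists_chi {y : Wd P} (hy : ¬ Triv y) : ∃ (l y' : Wd P) (g : UG P)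
    (Q : Wd P → P.Rel → Wd P → Prop) (hQ : SqInv Q), Conn y (l ++ y') ∧ Hom y' y' g ∧
      1 ≤ Multiplicative.toAdd (chi Q hQ g) := by
  by_contra hc
  push Not at hc
  have hz : ∀ (l y' : Wd P) (L : List (SE P)) (r0 : P.Rel) (c0 : Wd P), Conn y (l ++ y') →
      Walk y' L y' → (L.map (sg (QH r0 c0))).sum = 0 := by
    intro l y' L r0 c0 h1 h2
    have h3 := hc l y' _ _ (sqInv_QH r0 c0) h1 h2.hom
    have h4 := hc l y' _ _ (sqInv_QH r0 c0) h1 h2.hom.inv
    rw [map_inv, toAdd_inv, chi_cls] at h4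
    rw [chi_cls] at h3
    omega
  have key : ∀ (n : ℕ) (v c1 c2 l : Wd P) (L : List (SE P)), L.length ≤ n →
      Conn y (l ++ (v ++ c1)) → Conn c1 c2 → Walk (v ++ c1) L (v ++ c2) →
      ∃ η, Walk c1 η c2 ∧ η.length ≤ L.length ∧ cls L = ctx v [] (cls η) := by
    intro n
    induction n using Nat.strong_induction_on with
    | _ n ihn =>
      intro v
      induction v with
      | nil => intro c1 c2 l L _ _ _ h; exact ⟨L, h, le_rfl, by simp⟩
      | cons x v ihv =>
        intro c1 c2 l L hn hF hc12 hL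
        by_cases hcr : ∀ e ∈ L, e.a ≠ []
        · obtain ⟨L', h1, rfl⟩ := walk_tail hL hcr
          obtain ⟨η, h2, h3, h4⟩ := ihv c1 c2 (l ++ [x]) L' (by simpa using hn)
            (by simpa using hF) hc12 h1
          exact ⟨η, h2, by simpa using h3, by simp [h4, ctx_ctx]⟩
        · push Not at hcr
          obtain ⟨e, he, hea⟩ := hcr
          obtain ⟨η0, hη0⟩ := hc12.symm
          have h1 := hz l _ _ e.r e.b hF (hL.append (hη0.ctxL (x :: v)))
          rw [List.map_append, List.sum_append,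
            sum_sg_eq_zero (L := η0.map (SE.ctx (x :: v) [])) (by
              intro f hf
              obtain ⟨f', -, rfl⟩ := List.mem_map.1 hf
              simp [QH, SE.ctx]), add_zero] at h1
          obtain ⟨L1, e1, D, e2, L2, rfl, q1, q2, hs⟩ := exists_pair h1 he ⟨hea, rfl, Conn.refl _⟩
          obtain ⟨a1, r1, σ, b1⟩ := e1
          obtain ⟨a2, r2, σ2, b2⟩ := e2
          obtain ⟨rfl, rfl, q1⟩ := q1
          obtain ⟨rfl, rfl, q2⟩ := q2
          simp only at hs q1 q2
          subst hs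
          obtain ⟨z2, w1, rfl, w2⟩ := walk_append.1 hL
          obtain ⟨z1, w3, rfl, w4⟩ := walk_append.1 w1
          simp only [SE.src, SE.tgt, List.nil_append, Bool.not_not] at w2 w3 w4
          simp only [List.length_append, List.length_cons] at hn
          have hF' : Conn y (l ++ (inp e.r (!σ) ++ b1)) :=
            hF.trans (((Conn.trans ⟨_, w3⟩ (Conn.edge ⟨[], e.r, σ, b1⟩))).ctxL l)
          obtain ⟨η, k1, k2, k3⟩ := ihn (n - 1) (by omega) _ b1 b2 l D (by omega) hF'
            (q1.trans q2.symm) w4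
          have k4 := cross_back (r := e.r) (σ := σ) (Hom.one []) k1.hom
          simp only [map_one, one_mul, List.nil_append] at k4
          obtain ⟨η', m1, m2, m3⟩ := ihn (n - 1) (by omega) (x :: v) c1 c2 l
            (L1 ++ η.map (SE.ctx (inp e.r σ) []) ++ L2) (by simp; omega) hF hc12
            ((w3.append (k1.ctxL _)).append w2)
          refine ⟨η', m1, by simp at m2 ⊢; omega, ?_⟩
          rw [← m3]
          have k5 : (⟨[], e.r, !σ, b2⟩ : SE P).cls = (⟨[], e.r, σ, b2⟩ : SE P).cls⁻¹ :=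
            SE.cls_inv ⟨[], e.r, σ, b2⟩
          simp only [cls_append, cls_cons, cls_map_ctx, k3, k4, k5, mul_assoc,
            mul_inv_cancel_left]
  apply hy
  rintro g ⟨L, hL, rfl⟩
  obtain ⟨η, h1, -, h3⟩ := key L.length y [] [] [] L le_rfl (by simpa using Conn.refl y)
    (Conn.refl _) (by simpa using hL)
  rw [h3, triv_nil _ h1.hom, map_one]

theorem exists_inf {q : Wd P} (hq : ¬ Triv q) :
    ∃ b, Hom q q b ∧ ∀ l r, ¬ IsOfFinOrder (ctx l r b) := by
  obtain ⟨l, y, g, Q, hQ, h1, h2, h3⟩ := exists_chi hq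
  obtain ⟨k, hk⟩ := h1.hom
  have h4 := (hk.mul (h2.ctxL l)).mul hk.inv
  refine ⟨_, h4, fun l' r' hf => ?_⟩
  obtain ⟨m, hm, h5⟩ := isOfFinOrder_iff_pow_eq_one.1 hf
  rw [← map_pow] at h5
  have h6 := ctx_inj (h4.pow m) l' r' h5
  rw [conj_pow, mul_inv_eq_one, mul_eq_left, ← map_pow] at h6
  have h7 := ctx_inj (h2.pow m) l [] h6
  have h8 := congrArg (fun x => Multiplicative.toAdd (chi Q hQ x)) h7
  simp only [map_pow, toAdd_pow, map_one, toAdd_one, nsmul_eq_mul] at h8
  have : (1 : ℤ) ≤ m := by exact_mod_cast hm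
  nlinarith

/-- the height function used to show that products are parabolic -/
theorem exists_height (l y r q : Wd P) : ∃ F : UG P → ℕ,
    (∀ d g, Hom q q d → Hom (l ++ y ++ r ++ q) (l ++ y ++ r ++ q) g →
      F (ctx (l ++ y ++ r) [] d * g) = F g) ∧
    (∀ x, Hom (l ++ y ++ r ++ q) (l ++ y ++ r ++ q) x → ∃ D, ∀ g,
      Hom (l ++ y ++ r ++ q) (l ++ y ++ r ++ q) g → F (g * x) ≤ F g + D) ∧
    (∀ (Q : Wd P → P.Rel → Wd P → Prop) (hQ : SqInv Q) (g : UG P), Hom y y g →
      Multiplicative.toAdd (chi Q hQ g) ≤ F (ctx l (r ++ q) g)) := by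
  classical
  set z := l ++ y ++ r ++ q with hz
  let s0 : St P := leaves true l ++ leaves false y ++ leaves true r ++ leaves true q
  have hs0 : HAt s0 z := ⟨by simp only [s0, okS_append, okS_leaves, and_self], by simp [s0, hz]⟩
  let F : UG P → ℕ := fun g => if h : Hom z z g then wtS (run hact h.choose s0) else 0
  have hF : ∀ L, Walk z L z → F (cls L) = wtS (run hact L s0) := by
    intro L hL
    simp only [F, hL.hom, dif_pos]
    rw [isAct_hact.action hL.hom.choose_spec.1 hL hL.hom.choose_spec.2 hs0]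
  refine ⟨F, ?_, ?_, ?_⟩
  · rintro _ _ ⟨D, hD, rfl⟩ ⟨L, hL, rfl⟩
    have h1 := hF _ ((hD.ctxL (l ++ y ++ r)).append hL)
    have h2 := run_ctx hD (hAt_leaves true q) (leaves true l ++ leaves false y ++ leaves true r) []
    simp only [lab_append, lab_leaves, List.append_nil, run_anon hD] at h2
    rw [cls_append, cls_map_ctx] at h1
    rw [h1, hF L hL, run_append]
    congr 2
  · rintro _ ⟨M, hM, rfl⟩
    refine ⟨M.length, ?_⟩
    rintro _ ⟨L, hL, rfl⟩
    rw [← cls_append, hF _ (hL.append hM), hF _ hL, run_append]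
    exact wtS_run hM (isAct_hact.at_run hL hs0)
  · rintro Q hQ _ ⟨L, hL, rfl⟩
    have h1 := hF _ (by simpa [hz] using hL.ctx l (r ++ q))
    have h2 := run_ctx hL (hAt_leaves false y) (leaves true l) (leaves true r ++ leaves true q)
    simp only [lab_append, lab_leaves] at h2
    rw [cls_map_ctx] at h1
    obtain ⟨L', -, h3, h4⟩ := exists_short hL
    have h5 : s0 = leaves true l ++ leaves false y ++ (leaves true r ++ leaves true q) := by
      simp [s0]
    rw [h1, h5, h2, ← h3, chi_cls]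
    have := abs_sum_sg (Q := Q) L'
    simp only [wtS_append, wtS_leaves, ← h4]
    have := le_abs_self (L'.map (sg Q)).sum
    omega

end Pool.Agent.Lib.MP_e6550d_al
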