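import Pool.Agent.Lib.MP_e6550d_al.DgC

namespace Pool.Agent.Lib.MP_e6550d_al

universe u v

variable {P : SemigroupPresentation.{u, v}}

/-- the diagram group as a subgroup of the universal group -/
def DG (x : Wd P) : Subgroup (UG P) where
  carrier := {g | Hom x x g}
  mul_mem' := Hom.mul
  one_mem' := Hom.one x
  inv_mem' := Hom.inv

theorem mem_DG {x : Wd P} {g : UG P} : g ∈ DG x ↔ Hom x x g := Iff.rfl

def DG.equiv {x y : Wd P} {k : UG P} (h : Hom x y k) : DG x ≃* DG y where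
  toFun g := ⟨k⁻¹ * g * k, (h.inv.mul g.2).mul h⟩
  invFun g := ⟨k * g * k⁻¹, (h.mul g.2).mul h.inv⟩
  left_inv g := by ext; simp [mul_assoc]
  right_inv g := by ext; simp [mul_assoc]
  map_mul' g g' := by ext; simp [mul_assoc]

/-- classes of walks that avoid the edges in `Q` -/
def NQ (Q : Wd P → P.Rel → Wd P → Prop) (x y : Wd P) (g : UG P) : Prop :=
  ∃ L, Walk x L y ∧ (∀ e ∈ L, ¬ Q e.a e.r e.b) ∧ cls L = g

section
variable {Q : Wd P → P.Rel → Wd P → Prop}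

theorem NQ.one (x : Wd P) : NQ Q x x 1 := ⟨[], rfl, by simp, rfl⟩
theorem NQ.mul {x y z : Wd P} {g h : UG P} (h1 : NQ Q x y g) (h2 : NQ Q y z h) :
    NQ Q x z (g * h) := by
  obtain ⟨L, a, a', rfl⟩ := h1
  obtain ⟨M, b, b', rfl⟩ := h2
  refine ⟨L ++ M, a.append b, fun e he => ?_, by simp⟩
  rcases List.mem_append.1 he with h | h
  exacts [a' e h, b' e h]
theorem NQ.inv {x y : Wd P} {g : UG P} (h1 : NQ Q x y g) : NQ Q y x g⁻¹ := by
  obtain ⟨L, a, a', rfl⟩ := h1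
  exact ⟨rev L, a.rev, fun e he => a' e.inv (mem_rev.1 he), by simp⟩
theorem NQ.hom {x y : Wd P} {g : UG P} (h1 : NQ Q x y g) : Hom x y g := by
  obtain ⟨L, a, -, rfl⟩ := h1
  exact a.hom
theorem NQ.edge (e : SE P) (h : ¬ Q e.a e.r e.b) : NQ Q e.src e.tgt e.cls :=
  ⟨[e], walk_single e, by simpa using h, by simp⟩
theorem NQ.mono {Q' : Wd P → P.Rel → Wd P → Prop} (h : ∀ a r b, Q' a r b → Q a r b)
    {x y : Wd P} {g : UG P} (h1 : NQ Q x y g) : NQ Q' x y g := by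
  obtain ⟨L, a, a', rfl⟩ := h1
  exact ⟨L, a, fun e he h' => a' e he (h _ _ _ h'), rfl⟩
end

def NG (Q : Wd P → P.Rel → Wd P → Prop) (x : Wd P) : Subgroup (UG P) where
  carrier := {g | NQ Q x x g}
  mul_mem' := NQ.mul
  one_mem' := NQ.one x
  inv_mem' := NQ.inv

theorem Walk.conn_src {x y : Wd P} {L : List (SE P)} (h : Walk x L y) {e : SE P} (he : e ∈ L) :
    Conn x e.src := by
  obtain ⟨s, t, rfl⟩ := List.append_of_mem he
  obtain ⟨z, h1, rfl, -⟩ := walk_append.1 h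
  exact ⟨s, h1⟩

theorem conn_inp (a : Wd P) (r : P.Rel) (σ τ : Bool) : Conn (a ++ inp r σ) (a ++ inp r τ) := by
  have := conn_rel a r []
  simp only [List.append_nil] at this
  cases σ <;> cases τ
  exacts [Conn.refl _, this.symm, this, Conn.refl _]

/-- critical edges -/
def QC (a : Wd P) (r : P.Rel) (_ : Wd P) : Prop := Triv a ∧ ¬ Triv (a ++ P.lhs r)
/-- free critical edges -/
def QF (a : Wd P) (r : P.Rel) (b : Wd P) : Prop := QC a r b ∧ Triv b
/-- edges parallel to a given one -/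
def QJ (a0 : Wd P) (r0 : P.Rel) (c0 : Wd P) (a : Wd P) (r : P.Rel) (b : Wd P) : Prop :=
  r = r0 ∧ Conn a0 a ∧ Conn c0 b

theorem QC.not_triv {a : Wd P} {r : P.Rel} {b : Wd P} (h : QC a r b) (σ : Bool) :
    ¬ Triv (a ++ inp r σ) := fun h' => h.2 (h'.conn (conn_inp a r σ true))

theorem QC.of_J {a0 : Wd P} {r0 : P.Rel} {c0 a : Wd P} {r : P.Rel} {b : Wd P} (h : QC a0 r0 c0)
    (hJ : QJ a0 r0 c0 a r b) : QC a r b := by
  obtain ⟨rfl, h1, -⟩ := hJ
  exact ⟨h.1.conn h1, fun h' => h.2 (h'.conn (h1.symm.ctxR _))⟩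

theorem QF.of_J {a0 : Wd P} {r0 : P.Rel} {c0 a : Wd P} {r : P.Rel} {b : Wd P} (h : QF a0 r0 c0)
    (hJ : QJ a0 r0 c0 a r b) : QF a r b := ⟨h.1.of_J hJ, h.2.conn hJ.2.2⟩

theorem sqInv_QJ (a0 : Wd P) (r0 : P.Rel) (c0 : Wd P) : SqInv (QJ a0 r0 c0) := by
  constructor
  · intro a r b s c
    have := conn_rel b s c
    exact ⟨fun h => ⟨h.1, h.2.1, h.2.2.trans this⟩, fun h => ⟨h.1, h.2.1, h.2.2.trans this.symm⟩⟩
  · intro a r b s c
    have := conn_rel a r b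
    exact ⟨fun h => ⟨h.1, h.2.1.trans this, h.2.2⟩, fun h => ⟨h.1, h.2.1.trans this.symm, h.2.2⟩⟩

theorem nq_left {a a' : Wd P} {g : UG P} (ha : Triv a) (hg : Hom a a' g) (c : Wd P) :
    NQ QC (a ++ c) (a' ++ c) (ctx [] c g) := by
  obtain ⟨L, hL, rfl⟩ := hg
  refine ⟨_, hL.ctxR c, ?_, by simp⟩
  intro e he
  obtain ⟨f, hf, rfl⟩ := List.mem_map.1 he
  intro hq
  exact hq.not_triv f.s (by simpa [SE.ctx] using (ha.conn (hL.conn_src hf)).left)

theorem nq_right {p c c' : Wd P} {g : UG P} (hp : ¬ Triv p) (hg : Hom c c' g) :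
    NQ QC (p ++ c) (p ++ c') (ctx p [] g) := by
  obtain ⟨L, hL, rfl⟩ := hg
  refine ⟨_, hL.ctxL p, ?_, by simp⟩
  intro e he
  obtain ⟨f, hf, rfl⟩ := List.mem_map.1 he
  intro hq
  exact hp hq.1.left

theorem nq_hyp {a a' c c' : Wd P} {r : P.Rel} {g h : UG P} (hc : QC a r c) (hg : Hom a a' g)
    (hh : Hom c c' h) (σ : Bool) : NQ QC (a ++ inp r σ ++ c) (a' ++ inp r σ ++ c')
      (ctx [] (inp r σ ++ c) g * ctx (a' ++ inp r σ) [] h) := by
  have h1 := nq_left hc.1 hg (inp r σ ++ c)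
  have h2 := nq_right (p := a' ++ inp r σ)
    (fun h' => hc.not_triv σ (h'.conn (hg.conn.symm.ctxR _))) hh
  simp only [← List.append_assoc] at h1
  exact h1.mul h2

open Classical in
noncomputable def pick (x y : Wd P) : UG P := if h : Conn x y then h.hom.choose else 1

theorem pick_hom {x y : Wd P} (h : Conn x y) : Hom x y (pick x y) := by
  simp only [pick, h, dif_pos]; exact h.hom.choose_spec

/-- the path inside the hyperplane -/
noncomputable def hyp (a0 : Wd P) (r0 : P.Rel) (c0 : Wd P) (σ : Bool) (a c : Wd P) : UG P :=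
  ctx [] (inp r0 σ ++ c0) (pick a0 a) * ctx (a ++ inp r0 σ) [] (pick c0 c)

section split

variable {a0 : Wd P} {r0 : P.Rel} {c0 : Wd P}

theorem hyp_nq (hF : QF a0 r0 c0) {a c : Wd P} (ha : Conn a0 a) (hc : Conn c0 c) (σ : Bool) :
    NQ QC (a0 ++ inp r0 σ ++ c0) (a ++ inp r0 σ ++ c) (hyp a0 r0 c0 σ a c) :=
  nq_hyp hF.1 (pick_hom ha) (pick_hom hc) σ

theorem hyp_nqJ (hF : QF a0 r0 c0) {a c : Wd P} (ha : Conn a0 a) (hc : Conn c0 c) (σ : Bool) :
    NQ (QJ a0 r0 c0) (a0 ++ inp r0 σ ++ c0) (a ++ inp r0 σ ++ c) (hyp a0 r0 c0 σ a c) :=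
  (hyp_nq hF ha hc σ).mono (fun _ _ _ h => hF.1.of_J h)

theorem hyp_cross {a c : Wd P} (ha : Conn a0 a) (hc : Conn c0 c) (σ : Bool) :
    (⟨a0, r0, σ, c0⟩ : SE P).cls * hyp a0 r0 c0 (!σ) a c
      = hyp a0 r0 c0 σ a c * (⟨a, r0, σ, c⟩ : SE P).cls :=
  cross_back (pick_hom ha) (pick_hom hc)

theorem hyp_self (hF : QF a0 r0 c0) (σ : Bool) : hyp a0 r0 c0 σ a0 c0 = 1 := by
  simp [hyp, hF.1.1 _ (pick_hom (Conn.refl a0)), hF.2 _ (pick_hom (Conn.refl c0))]

theorem hyp_right (hF : QF a0 r0 c0) (σ : Bool) (a b : Wd P) (s : P.Rel) (c : Wd P)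
    (hc : Conn c0 (b ++ P.lhs s ++ c)) :
    hyp a0 r0 c0 σ a (b ++ P.rhs s ++ c)
      = hyp a0 r0 c0 σ a (b ++ P.lhs s ++ c) * gen (a ++ inp r0 σ ++ b) s c := by
  have h1 := hF.2.eq (pick_hom (hc.trans (conn_rel b s c)))
    ((pick_hom hc).mul (Hom.edge ⟨b, s, true, c⟩))
  simp only [hyp, h1, map_mul, SE.cls_true, ctx_gen, mul_assoc, List.append_nil]

theorem hyp_left (hF : QF a0 r0 c0) (σ : Bool) (a : Wd P) (r : P.Rel) (b c : Wd P)
    (ha : Conn a0 (a ++ P.lhs r ++ b)) (hc : Conn c0 c) :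
    hyp a0 r0 c0 σ (a ++ P.rhs r ++ b) c
      = hyp a0 r0 c0 σ (a ++ P.lhs r ++ b) c * gen a r (b ++ inp r0 σ ++ c) := by
  have h1 := hF.1.1.eq (pick_hom (ha.trans (conn_rel a r b)))
    ((pick_hom ha).mul (Hom.edge ⟨a, r, true, b⟩))
  have h0 : Hom (a ++ P.lhs r ++ (b ++ inp r0 σ)) (a ++ P.rhs r ++ (b ++ inp r0 σ))
      (gen a r (b ++ inp r0 σ)) := Hom.edge ⟨a, r, true, b ++ inp r0 σ⟩
  have h2 := inter h0 (pick_hom hc)
  unfold hyp
  rw [h1]
  simp only [map_mul, SE.cls_true, ctx_gen, mul_assoc, List.nil_append,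
    List.append_assoc] at h2 ⊢
  rw [h2]

theorem split_hom (hF : QF a0 r0 c0) {K : Type*} [Group K] (T : K) (iA iB : UG P → K)
    (σ σ' : Wd P → UG P)
    (hA : ∀ g g', NQ (QJ a0 r0 c0) (a0 ++ P.lhs r0 ++ c0) (a0 ++ P.lhs r0 ++ c0) g →
      NQ (QJ a0 r0 c0) (a0 ++ P.lhs r0 ++ c0) (a0 ++ P.lhs r0 ++ c0) g' →
      iA (g * g') = iA g * iA g')
    (hB : ∀ g g', NQ (QJ a0 r0 c0) (a0 ++ P.rhs r0 ++ c0) (a0 ++ P.rhs r0 ++ c0) g →
      NQ (QJ a0 r0 c0) (a0 ++ P.rhs r0 ++ c0) (a0 ++ P.rhs r0 ++ c0) g' →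
      iB (g * g') = iB g * iB g')
    (hσ : ∀ z g, NQ (QJ a0 r0 c0) (a0 ++ P.lhs r0 ++ c0) z g →
      NQ (QJ a0 r0 c0) (a0 ++ P.lhs r0 ++ c0) z (σ z))
    (hσ' : ∀ z g, NQ (QJ a0 r0 c0) (a0 ++ P.rhs r0 ++ c0) z g →
      NQ (QJ a0 r0 c0) (a0 ++ P.rhs r0 ++ c0) z (σ' z))
    (hcomp : ∀ x y g k k', NQ (QJ a0 r0 c0) (a0 ++ P.lhs r0 ++ c0) x k →
      NQ (QJ a0 r0 c0) (a0 ++ P.rhs r0 ++ c0) x k' → NQ (QJ a0 r0 c0) x y g →
      iA (σ x * g * (σ y)⁻¹) = iB (σ' x * g * (σ' y)⁻¹)) :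
    ∃ Ψ : UG P →* K,
      (∀ x y g k, NQ (QJ a0 r0 c0) (a0 ++ P.lhs r0 ++ c0) x k → NQ (QJ a0 r0 c0) x y g →
        Ψ g = iA (σ x * g * (σ y)⁻¹)) ∧
      (∀ x y g k, NQ (QJ a0 r0 c0) (a0 ++ P.rhs r0 ++ c0) x k → NQ (QJ a0 r0 c0) x y g →
        Ψ g = iB (σ' x * g * (σ' y)⁻¹)) ∧
      Ψ (gen a0 r0 c0) = iA (σ (a0 ++ P.lhs r0 ++ c0)) * T * iB (σ' (a0 ++ P.rhs r0 ++ c0))⁻¹ := by
  classical
  set z0 := a0 ++ P.lhs r0 ++ c0 with hz0
  set z1 := a0 ++ P.rhs r0 ++ c0 with hz1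
  set J := QJ a0 r0 c0 with hJ
  let ν : Wd P → Wd P → UG P → K := fun x y g =>
    if ∃ k, NQ J z0 x k then iA (σ x * g * (σ y)⁻¹)
    else if ∃ k, NQ J z1 x k then iB (σ' x * g * (σ' y)⁻¹) else 1
  have νA : ∀ x y g k, NQ J z0 x k → ν x y g = iA (σ x * g * (σ y)⁻¹) := by
    intro x y g k hk
    simp only [ν]
    rw [if_pos ⟨k, hk⟩]
  have νB : ∀ x y g k, NQ J z1 x k → NQ J x y g → ν x y g = iB (σ' x * g * (σ' y)⁻¹) := by
    intro x y g k hk hg
    by_cases h : ∃ k, NQ J z0 x k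
    · obtain ⟨k', hk'⟩ := h
      rw [νA x y g k' hk', hcomp x y g k' k hk' hk hg]
    · simp only [ν]
      rw [if_neg h, if_pos ⟨k, hk⟩]
  have mulA : ∀ x y g h, NQ J z0 x g → NQ J x y h →
      iA (σ x * g⁻¹) = iA (σ x * h * (σ y)⁻¹) * iA (σ y * (g * h)⁻¹) := by
    intro x y g h hg hh
    rw [← hA _ _ (((hσ _ _ hg).mul hh).mul (hσ _ _ (hg.mul hh)).inv)
      ((hσ _ _ (hg.mul hh)).mul (hg.mul hh).inv)]
    congr 1; group
  have mulB : ∀ x y g h, NQ J z1 x g → NQ J x y h →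
      iB (g * h * (σ' y)⁻¹) = iB (g * (σ' x)⁻¹) * iB (σ' x * h * (σ' y)⁻¹) := by
    intro x y g h hg hh
    rw [← hB _ _ (hg.mul (hσ' _ _ hg).inv) (((hσ' _ _ hg).mul hh).mul (hσ' _ _ (hg.mul hh)).inv)]
    congr 1; group
  have νmul : ∀ x y z g h, NQ J x y g → NQ J y z h → ν x z (g * h) = ν x y g * ν y z h := by
    intro x y z g h hg hh
    by_cases h1 : ∃ k, NQ J z0 x k
    · obtain ⟨k, hk⟩ := h1
      rw [νA _ _ _ _ hk, νA _ _ _ _ hk, νA _ _ _ _ (hk.mul hg),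
        ← hA _ _ (((hσ _ _ hk).mul hg).mul (hσ _ _ (hk.mul hg)).inv)
          (((hσ _ _ (hk.mul hg)).mul hh).mul (hσ _ _ ((hk.mul hg).mul hh)).inv)]
      congr 1; group
    · by_cases h2 : ∃ k, NQ J z1 x k
      · obtain ⟨k, hk⟩ := h2
        rw [νB _ _ _ _ hk (hg.mul hh), νB _ _ _ _ hk hg, νB _ _ _ _ (hk.mul hg) hh,
          ← hB _ _ (((hσ' _ _ hk).mul hg).mul (hσ' _ _ (hk.mul hg)).inv)
            (((hσ' _ _ (hk.mul hg)).mul hh).mul (hσ' _ _ ((hk.mul hg).mul hh)).inv)]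
        congr 1; group
      · have h3 : ¬ ∃ k, NQ J z0 y k := fun ⟨k, hk⟩ => h1 ⟨_, hk.mul hg.inv⟩
        have h4 : ¬ ∃ k, NQ J z1 y k := fun ⟨k, hk⟩ => h2 ⟨_, hk.mul hg.inv⟩
        simp only [ν, h1, h2, h3, h4, if_false, mul_one]
  have νone : ∀ x, ν x x 1 = 1 := by
    intro x
    have := νmul x x x 1 1 (NQ.one x) (NQ.one x)
    simpa using this
  let ψ : Wd P → P.Rel → Wd P → K := fun a r b =>
    if J a r b then iA (σ (a ++ P.lhs r ++ b) * (hyp a0 r0 c0 true a b)⁻¹) * T *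
      iB (hyp a0 r0 c0 false a b * (σ' (a ++ P.rhs r ++ b))⁻¹)
    else ν (a ++ P.lhs r ++ b) (a ++ P.rhs r ++ b) (gen a r b)
  have nqe : ∀ a r b, ¬ J a r b → NQ J (a ++ P.lhs r ++ b) (a ++ P.rhs r ++ b) (gen a r b) :=
    fun a r b h => NQ.edge ⟨a, r, true, b⟩ h
  have hψ : ∀ a r b s c, ψ a r (b ++ P.lhs s ++ c) * ψ (a ++ P.rhs r ++ b) s c
      = ψ (a ++ P.lhs r ++ b) s c * ψ a r (b ++ P.rhs s ++ c) := by
    intro a r b s c
    have i1 := (sqInv_QJ a0 r0 c0).1 a r b s c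
    have i2 := (sqInv_QJ a0 r0 c0).2 a r b s c
    by_cases j1 : J a r (b ++ P.lhs s ++ c)
    · have j2 : ¬ J (a ++ P.lhs r ++ b) s c := fun h =>
        (hF.1.of_J j1).2 (hF.1.of_J h).1.left
      have j3 : ¬ J (a ++ P.rhs r ++ b) s c := fun h => j2 (i2.2 h)
      have j4 : J a r (b ++ P.rhs s ++ c) := i1.1 j1
      simp only [ψ, j1, j2, j3, j4, if_true, if_false]
      obtain ⟨rfl, k1, k2⟩ := j1
      have u1 : NQ J z0 (a ++ P.lhs r ++ b ++ P.lhs s ++ c)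
          (hyp a0 r c0 true a (b ++ P.lhs s ++ c)) := by
        simpa only [inp, List.append_assoc, hz0] using hyp_nqJ hF k1 k2 true
      have u2 : NQ J z1 (a ++ P.rhs r ++ b ++ P.lhs s ++ c)
          (hyp a0 r c0 false a (b ++ P.lhs s ++ c)) := by
        simpa only [inp, List.append_assoc, hz1] using hyp_nqJ hF k1 k2 false
      have n1 := nqe _ _ _ j2
      have n2 := nqe _ _ _ j3
      have m1 := mulA _ _ _ _ u1 n1
      have m2 := mulB _ _ _ _ u2 n2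
      rw [νA _ _ _ _ u1, νB _ _ _ _ u2 n2,
        hyp_right hF true _ _ _ _ k2, hyp_right hF false _ _ _ _ k2]
      simp only [inp, List.append_assoc] at m1 m2 ⊢
      rw [m1, m2]
      simp only [mul_assoc]
    · have j4 : ¬ J a r (b ++ P.rhs s ++ c) := fun h => j1 (i1.2 h)
      by_cases j2 : J (a ++ P.lhs r ++ b) s c
      · have j3 : J (a ++ P.rhs r ++ b) s c := i2.1 j2
        simp only [ψ, j1, j2, j3, j4, if_true, if_false]
        obtain ⟨rfl, k1, k2⟩ := j2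
        have u1 : NQ J z0 (a ++ P.lhs r ++ (b ++ P.lhs s ++ c))
            (hyp a0 s c0 true (a ++ P.lhs r ++ b) c) := by
          simpa only [inp, List.append_assoc, hz0] using hyp_nqJ hF k1 k2 true
        have u2 : NQ J z1 (a ++ P.lhs r ++ (b ++ P.rhs s ++ c))
            (hyp a0 s c0 false (a ++ P.lhs r ++ b) c) := by
          simpa only [inp, List.append_assoc, hz1] using hyp_nqJ hF k1 k2 false
        have n1 := nqe _ _ _ j1
        have n2 := nqe _ _ _ j4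
        have m1 := mulA _ _ _ _ u1 n1
        have m2 := mulB _ _ _ _ u2 n2
        rw [νA _ _ _ _ u1, νB _ _ _ _ u2 n2,
          hyp_left hF true _ _ _ _ k1 k2, hyp_left hF false _ _ _ _ k1 k2]
        simp only [inp, List.append_assoc] at m1 m2 ⊢
        rw [m1, m2]
        simp only [mul_assoc]
      · have j3 : ¬ J (a ++ P.rhs r ++ b) s c := fun h => j2 (i2.2 h)
        simp only [ψ, j1, j2, j3, j4, if_false]
        have n1 := nqe _ _ _ j1
        have n2 := nqe _ _ _ j2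
        have n3 := nqe _ _ _ j3
        have n4 := nqe _ _ _ j4
        have := gen_sq a r b s c
        simp only [List.append_assoc] at n1 n2 n3 n4 this ⊢
        rw [← νmul _ _ _ _ _ n1 n3, ← νmul _ _ _ _ _ n2 n4, this]
  have hΨ : ∀ x y g, NQ J x y g → mkHom ψ hψ g = ν x y g := by
    rintro x y _ ⟨L, hL, hL', rfl⟩
    induction L generalizing x with
    | nil =>
      simp only [walk_nil] at hL
      simp [hL, νone]
    | cons e L ih =>
      obtain ⟨rfl, hL⟩ := hL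
      have h1 := hL' e List.mem_cons_self
      have h2 : ∀ f ∈ L, ¬ J f.a f.r f.b := fun f hf => hL' f (List.mem_cons_of_mem _ hf)
      rw [cls_cons, map_mul, ih _ hL h2, νmul _ _ _ _ _ (NQ.edge e h1) ⟨L, hL, h2, rfl⟩]
      congr 1
      obtain ⟨a, r, _ | _, b⟩ := e
      · have h3 := νmul _ _ _ _ _ (nqe a r b h1) (nqe a r b h1).inv
        rw [mul_inv_cancel, νone] at h3
        simp only [SE.cls_false, map_inv, mkHom_gen, ψ, h1, if_false]
        exact (eq_inv_of_mul_eq_one_right h3.symm).symm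
      · simp only [SE.cls_true, mkHom_gen, ψ, h1, if_false]
        rfl
  refine ⟨mkHom ψ hψ, ?_, ?_, ?_⟩
  · intro x y g k hk hg
    rw [hΨ x y g hg, νA _ _ _ _ hk]
  · intro x y g k hk hg
    rw [hΨ x y g hg, νB _ _ _ _ hk hg]
  · have : J a0 r0 c0 := ⟨rfl, Conn.refl _, Conn.refl _⟩
    simp only [mkHom_gen, ψ, this, if_true, hyp_self hF, inv_one, mul_one, one_mul, hz0, hz1]

theorem split_gen (hF : QF a0 r0 c0) (R : Subgroup (UG P))
    (h1 : ∀ m, NQ (QJ a0 r0 c0) (a0 ++ P.lhs r0 ++ c0) (a0 ++ P.lhs r0 ++ c0) m → m ∈ R)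
    (h2 : ∀ m, NQ (QJ a0 r0 c0) (a0 ++ P.rhs r0 ++ c0) (a0 ++ P.rhs r0 ++ c0) m →
      gen a0 r0 c0 * m * (gen a0 r0 c0)⁻¹ ∈ R)
    (h3 : ∀ m, NQ (QJ a0 r0 c0) (a0 ++ P.rhs r0 ++ c0) (a0 ++ P.lhs r0 ++ c0) m →
      gen a0 r0 c0 * m ∈ R) : DG (a0 ++ P.lhs r0 ++ c0) ≤ R := by
  set z0 := a0 ++ P.lhs r0 ++ c0 with hz0
  set z1 := a0 ++ P.rhs r0 ++ c0 with hz1
  set J := QJ a0 r0 c0 with hJ
  set t := gen a0 r0 c0 with ht
  have key : ∀ (L : List (SE P)) (z : Wd P), Walk z0 L z →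
      (∃ n, NQ J z0 z n ∧ cls L * n⁻¹ ∈ R) ∨ (∃ n, NQ J z1 z n ∧ cls L * n⁻¹ * t⁻¹ ∈ R) := by
    intro L
    induction L using List.reverseRecOn with
    | nil => intro z h; exact Or.inl ⟨1, h ▸ NQ.one _, by simp⟩
    | append_singleton L e ih =>
      intro z h
      obtain ⟨z', k1, rfl, rfl⟩ := walk_append.1 h
      simp only [cls_append, cls_cons, cls_nil, mul_one]
      by_cases hj : J e.a e.r e.b
      · obtain ⟨a, r, σ, b⟩ := e
        obtain ⟨rfl, k2, k3⟩ := hj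
        have u1 := hyp_nqJ hF k2 k3 true
        have u2 := hyp_nqJ hF k2 k3 false
        have u3 := hyp_cross (r0 := r) k2 k3 true
        simp only [SE.cls_true, Bool.not_true, ← ht] at u3
        have u4 : gen a r b = (hyp a0 r c0 true a b)⁻¹ * t * hyp a0 r c0 false a b := by
          rw [mul_assoc, u3]; simp
        cases σ
        · left
          refine ⟨_, u1, ?_⟩
          rcases ih _ k1 with ⟨n, hn, hn'⟩ | ⟨n, hn, hn'⟩
          · have := R.mul_mem hn' (R.inv_mem (h3 _ (u2.mul hn.inv)))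
            simpa [u4, mul_assoc] using this
          · have := R.mul_mem hn' (h2 _ (hn.mul u2.inv))
            simpa [u4, mul_assoc] using this
        · right
          refine ⟨_, u2, ?_⟩
          rcases ih _ k1 with ⟨n, hn, hn'⟩ | ⟨n, hn, hn'⟩
          · have := R.mul_mem hn' (h1 _ (hn.mul u1.inv))
            simpa [u4, mul_assoc] using this
          · have := R.mul_mem hn' (h3 _ (hn.mul u1.inv))
            simpa [u4, mul_assoc] using this
      · rcases ih _ k1 with ⟨n, hn, hn'⟩ | ⟨n, hn, hn'⟩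
        · exact Or.inl ⟨_, hn.mul (NQ.edge e hj), by simpa [mul_assoc] using hn'⟩
        · exact Or.inr ⟨_, hn.mul (NQ.edge e hj), by simpa [mul_assoc] using hn'⟩
  rintro _ ⟨L, hL, rfl⟩
  rcases key L _ hL with ⟨n, hn, hn'⟩ | ⟨n, hn, hn'⟩
  · simpa using R.mul_mem hn' (h1 _ hn)
  · simpa [mul_assoc] using R.mul_mem hn' (h3 _ hn)

theorem equiv_of_section {K : Type*} [Group K] {D : Subgroup (UG P)} (Θ : K →* UG P)
    (Ψ : UG P →* K) (h : Ψ.comp Θ = MonoidHom.id K) (hr : Θ.range = D) : Nonempty (D ≃* K) := by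
  have hinj : Function.Injective Θ :=
    Function.LeftInverse.injective (g := Ψ) (fun k => DFunLike.congr_fun h k)
  exact ⟨(MulEquiv.subgroupCongr hr.symm).trans (MonoidHom.ofInjective hinj).symm⟩

open Classical in
noncomputable def pickN (Q : Wd P → P.Rel → Wd P → Prop) (x y : Wd P) : UG P :=
  if y = x then 1 else if h : ∃ g, NQ Q x y g then h.choose else 1

theorem pickN_nq {Q : Wd P → P.Rel → Wd P → Prop} {x y : Wd P} {g : UG P} (h : NQ Q x y g) :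
    NQ Q x y (pickN Q x y) := by
  unfold pickN
  split_ifs with h1 h2
  · exact h1 ▸ NQ.one _
  · exact h2.choose_spec
  · exact absurd ⟨g, h⟩ h2

theorem pickN_self (Q : Wd P → P.Rel → Wd P → Prop) (x : Wd P) : pickN Q x x = 1 := by
  simp [pickN]

open Classical in
noncomputable def extend {K : Type*} [Group K] {A : Subgroup (UG P)} (f : A →* K) (g : UG P) : K :=
  if h : g ∈ A then f ⟨g, h⟩ else 1

theorem extend_coe {K : Type*} [Group K] {A : Subgroup (UG P)} (f : A →* K) (g : A) :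
    extend f g = f g := by simp [extend, g.2]

theorem extend_mul {K : Type*} [Group K] {A : Subgroup (UG P)} (f : A →* K) {g g' : UG P}
    (h : g ∈ A) (h' : g' ∈ A) : extend f (g * g') = extend f g * extend f g' := by
  have := extend_coe f (⟨g, h⟩ * ⟨g', h'⟩)
  rw [map_mul, ← extend_coe, ← extend_coe] at this
  exact this

theorem extend_one {K : Type*} [Group K] {A : Subgroup (UG P)} (f : A →* K) : extend f 1 = 1 := by
  simpa using extend_coe f 1

theorem split_sep (hF : QF a0 r0 c0)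
    (hsep : ∀ m, ¬ NQ (QJ a0 r0 c0) (a0 ++ P.lhs r0 ++ c0) (a0 ++ P.rhs r0 ++ c0) m) :
    Nonempty (DG (a0 ++ P.lhs r0 ++ c0) ≃* Monoid.Coprod (NG (QJ a0 r0 c0) (a0 ++ P.lhs r0 ++ c0))
      (NG (QJ a0 r0 c0) (a0 ++ P.rhs r0 ++ c0))) := by
  obtain ⟨Ψ, p1, p2, p3⟩ := split_hom hF (K := Monoid.Coprod
      (NG (QJ a0 r0 c0) (a0 ++ P.lhs r0 ++ c0)) (NG (QJ a0 r0 c0) (a0 ++ P.rhs r0 ++ c0))) 1
    (extend Monoid.Coprod.inl) (extend Monoid.Coprod.inr) (pickN (QJ a0 r0 c0) _)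
    (pickN (QJ a0 r0 c0) _) (fun g g' h h' => extend_mul _ h h')
    (fun g g' h h' => extend_mul _ h h') (fun z g h => pickN_nq h) (fun z g h => pickN_nq h)
    (fun x y g k k' hk hk' _ => absurd (hk.mul hk'.inv) (hsep _))
  simp only [pickN_self, inv_one, extend_one, mul_one] at p3
  have ht : Hom (a0 ++ P.lhs r0 ++ c0) (a0 ++ P.rhs r0 ++ c0) (gen a0 r0 c0) :=
    Hom.edge ⟨a0, r0, true, c0⟩
  refine equiv_of_section (Monoid.Coprod.lift (Subgroup.subtype _)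
    ((MulAut.conj (gen a0 r0 c0) : UG P →* UG P).comp (Subgroup.subtype _))) Ψ ?_ ?_
  · apply Monoid.Coprod.hom_ext
    · ext g
      have := p1 _ _ g 1 (NQ.one _) g.2
      simp only [pickN_self, inv_one, mul_one, one_mul, extend_coe] at this
      simpa using this
    · ext g
      have := p2 _ _ g 1 (NQ.one _) g.2
      simp only [pickN_self, inv_one, mul_one, one_mul, extend_coe] at this
      simp [this, p3]
  · apply le_antisymm
    · rw [Monoid.Coprod.range_lift, sup_le_iff]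
      constructor
      · rintro _ ⟨g, rfl⟩
        exact NQ.hom g.2
      · rintro _ ⟨g, rfl⟩
        exact (ht.mul (NQ.hom g.2)).mul ht.inv
    · apply split_gen hF
      · intro m hm
        exact ⟨Monoid.Coprod.inl ⟨m, hm⟩, by simp⟩
      · intro m hm
        exact ⟨Monoid.Coprod.inr ⟨m, hm⟩, by simp⟩
      · intro m hm
        exact absurd hm.inv (hsep _)

theorem split_nonsep (hF : QF a0 r0 c0) {m : UG P}
    (hm : NQ (QJ a0 r0 c0) (a0 ++ P.lhs r0 ++ c0) (a0 ++ P.rhs r0 ++ c0) m) :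
    Nonempty (DG (a0 ++ P.lhs r0 ++ c0) ≃* Monoid.Coprod (NG (QJ a0 r0 c0) (a0 ++ P.lhs r0 ++ c0))
      (Multiplicative ℤ)) := by
  set z0 := a0 ++ P.lhs r0 ++ c0 with hz0
  set z1 := a0 ++ P.rhs r0 ++ c0 with hz1
  set J := QJ a0 r0 c0 with hJ
  have hm0 := pickN_nq hm
  set m0 := pickN J z0 z1 with hm0'
  obtain ⟨Ψ, p1, -, p3⟩ := split_hom hF (K := Monoid.Coprod (NG J z0) (Multiplicative ℤ))
    (Monoid.Coprod.inr (Multiplicative.ofAdd 1))
    (extend Monoid.Coprod.inl) (fun g => extend Monoid.Coprod.inl (m0 * g * m0⁻¹)) (pickN J z0)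
    (fun z => m0⁻¹ * pickN J z0 z) (fun g g' h h' => extend_mul _ h h')
    (fun g g' h h' => by
      rw [← extend_mul _ ((hm0.mul h).mul hm0.inv) ((hm0.mul h').mul hm0.inv)]
      congr 1; group) (fun z g h => pickN_nq h)
    (fun z g h => hm0.inv.mul (pickN_nq (hm0.mul h)))
    (fun x y g k k' _ _ _ => by congr 1; group)
  simp only [← hz0, ← hz1, ← hm0', pickN_self, extend_one, inv_mul_cancel, inv_one, mul_one,
    one_mul, mul_inv_cancel] at p3
  have p4 : Ψ m0 = 1 := by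
    have := p1 _ _ m0 1 (NQ.one _) hm0
    simpa [← hz0, ← hz1, ← hm0', pickN_self, extend_one] using this
  have ht : Hom z0 z1 (gen a0 r0 c0) := Hom.edge ⟨a0, r0, true, c0⟩
  refine equiv_of_section (Monoid.Coprod.lift (Subgroup.subtype _)
    (zpowersHom _ (gen a0 r0 c0 * m0⁻¹))) Ψ ?_ ?_
  · apply Monoid.Coprod.hom_ext
    · ext g
      have := p1 _ _ g 1 (NQ.one _) g.2
      simp only [← hz0, pickN_self, inv_one, mul_one, one_mul, extend_coe] at this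
      simpa using this
    · ext
      simp [p3, p4]
  · apply le_antisymm
    · rw [Monoid.Coprod.range_lift, sup_le_iff]
      constructor
      · rintro _ ⟨g, rfl⟩
        exact NQ.hom g.2
      · rintro _ ⟨g, rfl⟩
        exact (DG z0).zpow_mem (ht.mul hm0.hom.inv) _
    · have hA : ∀ m, NQ J z0 z0 m → m ∈ (Monoid.Coprod.lift (NG J z0).subtype
          (zpowersHom _ (gen a0 r0 c0 * m0⁻¹))).range :=
        fun m hm => ⟨Monoid.Coprod.inl ⟨m, hm⟩, by simp⟩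
      have hT : gen a0 r0 c0 * m0⁻¹ ∈ (Monoid.Coprod.lift (NG J z0).subtype
          (zpowersHom _ (gen a0 r0 c0 * m0⁻¹))).range :=
        ⟨Monoid.Coprod.inr (Multiplicative.ofAdd 1), by simp⟩
      apply split_gen hF _ hA
      · intro k hk
        have := Subgroup.mul_mem _ (Subgroup.mul_mem _ hT (hA _ ((hm0.mul hk).mul hm0.inv)))
          (Subgroup.inv_mem _ hT)
        simpa [mul_assoc] using this
      · intro k hk
        have := Subgroup.mul_mem _ hT (hA _ (hm0.mul hk))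
        simpa [mul_assoc] using this

end split

end Pool.Agent.Lib.MP_e6550d_al
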