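import Pool.Agent.Lib.MP_e6550d_al.RelC

namespace Pool.Agent.Lib.MP_e6550d_al

universe w w'

/-- the properties of the family of parabolic subgroups that are used later -/
structure ParFam (G : Type w) [Group G] (PF : Set (Subgroup G)) : Prop where
  ex : ∃ P ∈ PF, ∃ c ∈ P, c ≠ 1
  proper : ∀ P ∈ PF, P ≠ ⊤
  uniq : ∀ P ∈ PF, ∀ P' ∈ PF, ∀ c, c ∈ P → c ∈ P' → ¬ IsOfFinOrder c → P = P'
  norm : ∀ P ∈ PF, ∀ g c, c ∈ P → g * c * g⁻¹ ∈ P → ¬ IsOfFinOrder c → g ∈ P
  zz : ∀ a b : G, Commute a b → ¬ IsOfFinOrder b → ∀ f : G → ℕ, (∀ g, f (b * g) = f g) →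
    (∀ x, ∃ D, ∀ g, f (g * x) ≤ f g + D) → (∀ m : ℕ, m ≤ f (a ^ m)) →
    ∃ P ∈ PF, a ∈ P ∧ b ∈ P

def HasPF (G : Type w) [Group G] : Prop := ∃ PF, ParFam G PF

theorem HasPF.of_equiv {G : Type w} {G' : Type w'} [Group G] [Group G'] (e : G ≃* G')
    (h : HasPF G) : HasPF G' := by
  obtain ⟨PF, h⟩ := h
  have hinf : ∀ c : G', ¬ IsOfFinOrder c → ¬ IsOfFinOrder (e.symm c) := fun c hc h' =>
    hc (by simpa using (e : G →* G').isOfFinOrder h')
  have hmem : ∀ (P : Subgroup G') (c : G'), e.symm c ∈ P.comap (e : G →* G') ↔ c ∈ P := by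
    intro P c; simp
  refine ⟨{P | P.comap (e : G →* G') ∈ PF}, ?_, ?_, ?_, ?_, ?_⟩
  · obtain ⟨P, hP, c, hc, hc1⟩ := h.ex
    refine ⟨P.comap (e.symm : G' →* G), ?_, e c, by simpa using hc, by simpa using hc1⟩
    have : (P.comap (e.symm : G' →* G)).comap (e : G →* G') = P := by ext; simp
    simpa [this] using hP
  · intro P hP hT
    apply h.proper _ hP
    rw [hT]; simp
  · intro P hP P' hP' c hc hc' hi
    have := h.uniq _ hP _ hP' (e.symm c) ((hmem _ _).2 hc) ((hmem _ _).2 hc') (hinf c hi)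
    ext x
    rw [← hmem, ← hmem, this]
  · intro P hP g c hc hg hi
    rw [← hmem]
    apply h.norm _ hP _ (e.symm c) ((hmem _ _).2 hc) _ (hinf c hi)
    simpa using hg
  · intro a b hab hb f h1 h2 h3
    obtain ⟨P, hP, ha', hb'⟩ := h.zz (e.symm a) (e.symm b) (hab.map e.symm) (hinf b hb)
      (fun g => f (e g)) (fun g => by simp [h1]) (fun x => by
        obtain ⟨D, hD⟩ := h2 (e x)
        exact ⟨D, fun g => by simpa using hD (e g)⟩) (fun m => by simpa using h3 m)
    refine ⟨P.comap (e.symm : G' →* G), ?_, ha', hb'⟩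
    have : (P.comap (e.symm : G' →* G)).comap (e : G →* G') = P := by ext; simp
    simpa [this] using hP

theorem not_isOfFinOrder_conj {G : Type w} [Group G] {c : G} (y : G) (h : ¬ IsOfFinOrder c) :
    ¬ IsOfFinOrder (y⁻¹ * c * y) := by
  intro h'
  apply h
  have := (MulAut.conj y : G →* G).isOfFinOrder h'
  simpa [mul_assoc] using this

theorem hasPF_of_relHyp {G : Type w} [Group G] (h : IsProperlyRelHyperbolic G) : HasPF G := by
  obtain ⟨n, H, hn, hH, hrel⟩ := h
  obtain ⟨X, RW, C, F⟩ := fill_of_relHyp hrel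
  have hnorm : ∀ (i : Fin n) (y g c : G), y⁻¹ * c * y ∈ H i → y⁻¹ * (g * c * g⁻¹) * y ∈ H i →
      ¬ IsOfFinOrder c → y⁻¹ * g * y ∈ H i := by
    intro i y g c h1 h2 h3
    have := (F.mal (g := y⁻¹ * g⁻¹ * y) (j := i) h1 (not_isOfFinOrder_conj y h3)
      (by simpa [mul_assoc] using h2)).2
    simpa [mul_assoc] using (H i).inv_mem this
  refine ⟨{P | ∃ (i : Fin n) (y : G), ∀ g, g ∈ P ↔ y⁻¹ * g * y ∈ H i}, ?_, ?_, ?_, ?_, ?_⟩
  · obtain ⟨c, hc, hc1⟩ := ((hH ⟨0, hn⟩).2.sdiff (Set.finite_singleton 1)).nonempty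
    exact ⟨H ⟨0, hn⟩, ⟨⟨0, hn⟩, 1, by simp⟩, c, hc, hc1⟩
  · rintro P ⟨i, y, hP⟩ hT
    apply (hH i).1
    rw [eq_top_iff]
    intro g _
    have := (hP (y * g * y⁻¹)).1 (by rw [hT]; trivial)
    simpa [mul_assoc] using this
  · rintro P ⟨i, y, hP⟩ P' ⟨j, y', hP'⟩ c hc hc' hi
    obtain ⟨rfl, h2⟩ := F.mal (g := y⁻¹ * y') (j := j) ((hP c).1 hc) (not_isOfFinOrder_conj y hi)
      (by simpa [mul_assoc] using (hP' c).1 hc')
    ext g
    rw [hP, hP']
    have e : y'⁻¹ * g * y' = (y⁻¹ * y')⁻¹ * (y⁻¹ * g * y) * (y⁻¹ * y') := by group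
    rw [e, (H i).mul_mem_cancel_right h2, (H i).mul_mem_cancel_left ((H i).inv_mem h2)]
  · rintro P ⟨i, y, hP⟩ g c hc hg hi
    exact (hP g).2 (hnorm i y g c ((hP c).1 hc) ((hP _).1 hg) hi)
  · intro a b hab hb f h1 h2 h3
    have hfz : ∀ (k : ℤ) g, f (b ^ k * g) = f g := by
      intro k
      induction k using Int.induction_on with
      | zero => simp
      | succ k ih => intro g; rw [add_comm, zpow_add, zpow_one, mul_assoc, h1, ih]
      | pred k ih =>
        intro g
        rw [← h1, ← mul_assoc, ← zpow_one_add]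
        simpa using ih g
    have hind : ∀ (i j : ℤ), a ^ i = b ^ j → i = 0 := by
      have key : ∀ (i : ℕ) (j : ℤ), a ^ i = b ^ j → i = 0 := by
        intro i j hij
        by_contra hi
        have h4 := h3 (i * (f 1 + 1))
        rw [pow_mul, hij, ← zpow_natCast, ← zpow_mul, ← mul_one (b ^ _), hfz] at h4
        have : 1 * (f 1 + 1) ≤ i * (f 1 + 1) := by gcongr; omega
        omega
      intro i j hij
      rcases Int.eq_nat_or_neg i with ⟨m, rfl | rfl⟩
      · have := key m j (by simpa using hij)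
        omega
      · have := key m (-j) (by rw [zpow_neg, ← hij]; simp)
        omega
    have hinfA : ∀ (i j : ℤ), b ^ j * a ^ i ≠ 1 → ¬ IsOfFinOrder (b ^ j * a ^ i) := by
      intro i j hne hfin
      obtain ⟨m, hm, hm'⟩ := isOfFinOrder_iff_pow_eq_one.1 hfin
      rw [(hab.symm.zpow_zpow j i).mul_pow, ← zpow_natCast, ← zpow_natCast, ← zpow_mul,
        ← zpow_mul] at hm'
      have h4 := hind (i * m) (-(j * m)) (by rw [zpow_neg]; exact eq_inv_of_mul_eq_one_right hm')
      have h5 : i = 0 := by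
        rcases mul_eq_zero.1 h4 with h | h
        · exact h
        · omega
      subst h5
      simp only [zero_mul, zpow_zero, mul_one] at hm' hne
      apply hb
      rw [isOfFinOrder_iff_zpow_eq_one]
      refine ⟨j * m, ?_, hm'⟩
      intro h6
      rcases mul_eq_zero.1 h6 with h | h
      · subst h; simp at hne
      · omega
    have hex : ∃ (i j : ℤ) (k : Fin n) (y : G), b ^ j * a ^ i ≠ 1 ∧
        y⁻¹ * (b ^ j * a ^ i) * y ∈ H k := by
      by_contra hc
      push Not at hc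
      obtain ⟨R, N0, hR⟩ := F.coarea a b hab f h1 h2 h3
      choose! jj hjj using hR
      have hinj : Function.Injective (fun m : ℕ => b ^ (m + N0) * a ^ jj (m + N0)) := by
        intro m m' hmm
        simp only at hmm
        have h4 : a ^ (jj (m + N0) - jj (m' + N0)) = b ^ (((m' + N0 : ℕ) : ℤ) - (m + N0 : ℕ)) := by
          rw [zpow_sub, sub_eq_neg_add, zpow_add, zpow_neg, zpow_natCast, zpow_natCast,
            mul_inv_eq_iff_eq_mul, mul_assoc, ← hmm]
          simp
        have h5 := hind _ _ h4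
        rw [h5, zpow_zero] at h4
        by_contra hne
        apply hb
        rw [isOfFinOrder_iff_zpow_eq_one]
        exact ⟨_, by omega, h4.symm⟩
      refine F.proper b R (Set.range (fun m : ℕ => b ^ (m + N0) * a ^ jj (m + N0)))
        (Set.infinite_range_of_injective hinj) ?_ ?_ ?_ ?_
      · rintro _ ⟨m, rfl⟩
        exact hjj (m + N0) (by omega)
      · rintro _ ⟨m, rfl⟩
        exact ((Commute.refl b).pow_right _).mul_right (hab.symm.zpow_right _)
      · intro m hm i y hy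
        apply hc 0 m i y
        · simp only [zpow_zero, mul_one, zpow_natCast]
          intro h4
          exact hb (isOfFinOrder_iff_pow_eq_one.2 ⟨m, hm, h4⟩)
        · simpa using hy
      · rintro _ ⟨m, rfl⟩ _ ⟨m', rfl⟩ i y hy
        simp only at hy ⊢
        have e : (b ^ (m + N0) * a ^ jj (m + N0))⁻¹ * (b ^ (m' + N0) * a ^ jj (m' + N0))
            = b ^ (((m' + N0 : ℕ) : ℤ) - (m + N0 : ℕ)) * a ^ (jj (m' + N0) - jj (m + N0)) := by
          rw [sub_eq_neg_add, sub_eq_neg_add, zpow_add, zpow_add, zpow_neg, zpow_neg, zpow_natCast,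
            zpow_natCast, mul_inv_rev]
          have h4 : Commute (a ^ jj (m + N0))⁻¹ ((b ^ (m + N0))⁻¹ * b ^ (m' + N0)) :=
            (((hab.zpow_left _).pow_right _).inv_right.mul_right
              ((hab.zpow_left _).pow_right _)).inv_left
          simp only [mul_assoc] at h4 ⊢
          rw [← mul_assoc (b ^ (m + N0))⁻¹, ← mul_assoc (a ^ jj (m + N0))⁻¹, h4.eq]
          simp only [mul_assoc]
        by_contra hne
        rw [e] at hy
        refine hc _ _ i y ?_ hy
        rw [← e]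
        intro h4
        exact hne (inv_mul_eq_one.1 h4)
    obtain ⟨i, j, k, y, hne, hy⟩ := hex
    refine ⟨(H k).comap (MulAut.conj y⁻¹ : G →* G), ⟨k, y, fun g => by simp⟩, ?_, ?_⟩
    · have : Commute a (b ^ j * a ^ i) :=
        (hab.zpow_right _).mul_right ((Commute.refl a).zpow_right _)
      have := hnorm k y a _ hy (by rw [this.eq]; simpa using hy) (hinfA i j hne)
      simpa using this
    · have : Commute b (b ^ j * a ^ i) :=
        ((Commute.refl b).zpow_right _).mul_right (hab.symm.zpow_right _)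
      have := hnorm k y b _ hy (by rw [this.eq]; simpa using hy) (hinfA i j hne)
      simpa using this

/-- `G` is a non-trivial free product -/
def Splits (G : Type w) [Group G] : Prop :=
  ∃ A B : Subgroup G, A ≠ ⊥ ∧ B ≠ ⊥ ∧ Nonempty (G ≃* Monoid.Coprod A B)

theorem splits_of_equiv {G : Type w} [Group G] {A B : Type*} [Group A] [Group B]
    (hA : ∃ a : A, a ≠ 1) (hB : ∃ b : B, b ≠ 1) (e : G ≃* Monoid.Coprod A B) : Splits G := by
  let iA : A →* G := (e.symm : Monoid.Coprod A B →* G).comp Monoid.Coprod.inl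
  let iB : B →* G := (e.symm : Monoid.Coprod A B →* G).comp Monoid.Coprod.inr
  have hiA : Function.Injective iA := e.symm.injective.comp Monoid.Coprod.inl_injective
  have hiB : Function.Injective iB := e.symm.injective.comp Monoid.Coprod.inr_injective
  refine ⟨iA.range, iB.range, ?_, ?_,
    ⟨e.trans (MulEquiv.coprodCongr (MonoidHom.ofInjective hiA) (MonoidHom.ofInjective hiB))⟩⟩
  · obtain ⟨a, ha⟩ := hA
    intro h
    have : iA a ∈ (⊥ : Subgroup G) := h ▸ ⟨a, rfl⟩
    exact ha (hiA (by simpa using this))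
  · obtain ⟨b, hb⟩ := hB
    intro h
    have : iB b ∈ (⊥ : Subgroup G) := h ▸ ⟨b, rfl⟩
    exact hb (hiB (by simpa using this))

theorem Splits.of_equiv {G : Type w} {G' : Type w'} [Group G] [Group G'] (e : G ≃* G')
    (h : Splits G) : Splits G' := by
  obtain ⟨A, B, hA, hB, ⟨f⟩⟩ := h
  refine splits_of_equiv ?_ ?_ (e.symm.trans f)
  · obtain ⟨⟨a, ha⟩, h⟩ := (Subgroup.ne_bot_iff_exists_ne_one).1 hA
    exact ⟨_, h⟩
  · obtain ⟨⟨a, ha⟩, h⟩ := (Subgroup.ne_bot_iff_exists_ne_one).1 hB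
    exact ⟨_, h⟩

end Pool.Agent.Lib.MP_e6550d_al
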