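import Pool.Agent.Lib.MP_e6550d_al.DgD
import Pool.Agent.Lib.MP_e6550d_al.RelD

namespace Pool.Agent.Lib.MP_e6550d_al

universe u v

variable {P : SemigroupPresentation.{u, v}}

theorem not_hasPF_int : ¬ HasPF (Multiplicative ℤ) := by
  rintro ⟨PF, h⟩
  obtain ⟨Q, hQ, c, hc, hc1⟩ := h.ex
  apply h.proper Q hQ
  rw [eq_top_iff]
  intro g _
  refine h.norm Q hQ g c hc (by simpa [mul_comm g c] using hc) ?_
  intro hf
  exact hc1 hf.eq_one'

theorem not_hasPF_coprod {A : Type*} [Group A] (hA : ∀ a : A, a = 1) :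
    ¬ HasPF (Monoid.Coprod A (Multiplicative ℤ)) := by
  intro h
  apply not_hasPF_int
  refine h.of_equiv (MonoidHom.toMulEquiv Monoid.Coprod.snd Monoid.Coprod.inr ?_ rfl)
  apply Monoid.Coprod.hom_ext
  · ext a
    simp [hA a]
  · rfl

def Sep (e : SE P) : Prop := ∀ m, ¬ NQ (QJ e.a e.r e.b) e.src e.tgt m
def BT (e : SE P) : Prop := ∀ g, NQ (QJ e.a e.r e.b) e.tgt e.tgt g → g = 1

theorem dichotomy {w : Wd P} (h1 : HasPF (DG w)) (h2 : ¬ Splits (DG w)) (e : SE P)
    (hF : QF e.a e.r e.b) (hc : Conn w e.src) : Sep e ∧ (BT e ∨ BT e.inv) := by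
  have key : ∀ (a : Wd P) (r : P.Rel) (c : Wd P), QF a r c → Conn w (a ++ P.lhs r ++ c) →
      (∀ m, ¬ NQ (QJ a r c) (a ++ P.lhs r ++ c) (a ++ P.rhs r ++ c) m) ∧
      ((∀ g, NQ (QJ a r c) (a ++ P.lhs r ++ c) (a ++ P.lhs r ++ c) g → g = 1) ∨
        (∀ g, NQ (QJ a r c) (a ++ P.rhs r ++ c) (a ++ P.rhs r ++ c) g → g = 1)) := by
    intro a r c hF hc
    obtain ⟨k, hk⟩ := hc.hom
    have hsep : ∀ m, ¬ NQ (QJ a r c) (a ++ P.lhs r ++ c) (a ++ P.rhs r ++ c) m := by
      intro m hm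
      obtain ⟨f⟩ := split_nonsep hF hm
      by_cases hA : ∃ g : NG (QJ a r c) (a ++ P.lhs r ++ c), g ≠ 1
      · exact h2 (splits_of_equiv hA ⟨Multiplicative.ofAdd 1, by simp⟩ ((DG.equiv hk).trans f))
      · push Not at hA
        exact not_hasPF_coprod hA (h1.of_equiv ((DG.equiv hk).trans f))
    refine ⟨hsep, ?_⟩
    obtain ⟨f⟩ := split_sep hF hsep
    by_contra hn
    push Not at hn
    obtain ⟨⟨g, hg, hg1⟩, ⟨g', hg', hg1'⟩⟩ := hn
    exact h2 (splits_of_equiv ⟨⟨g, hg⟩, fun h => hg1 (congrArg Subtype.val h)⟩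
      ⟨⟨g', hg'⟩, fun h => hg1' (congrArg Subtype.val h)⟩ ((DG.equiv hk).trans f))
  obtain ⟨a, r, _ | _, c⟩ := e
  · obtain ⟨k1, k2⟩ := key a r c hF (hc.trans (Conn.edge _))
    exact ⟨fun m hm => k1 _ hm.inv, k2⟩
  · obtain ⟨k1, k2⟩ := key a r c hF hc
    exact ⟨k1, k2.symm⟩

theorem split_first {α : Type*} (p : α → Prop) {L : List α} (h : ∃ e ∈ L, p e) :
    ∃ D e L', L = D ++ e :: L' ∧ (∀ f ∈ D, ¬ p f) ∧ p e := by
  induction L with
  | nil => simp at h
  | cons x L ih =>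
    by_cases hx : p x
    · exact ⟨[], x, L, rfl, by simp, hx⟩
    · obtain ⟨e, he, hp⟩ := h
      rcases List.mem_cons.1 he with rfl | he
      · exact absurd hp hx
      · obtain ⟨D, e', L', h1, h2, h3⟩ := ih ⟨e, he, hp⟩
        exact ⟨x :: D, e', L', by simp [h1], by simpa [hx] using h2, h3⟩

open Classical in
noncomputable def cnt (L : List (SE P)) : ℕ := L.countP fun e => decide (QF e.a e.r e.b)

theorem cnt_append (L M : List (SE P)) : cnt (L ++ M) = cnt L + cnt M := by simp [cnt]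

theorem cnt_cons {e : SE P} (h : QF e.a e.r e.b) (L : List (SE P)) :
    cnt (e :: L) = cnt L + 1 := by simp [cnt, h]

theorem cnt_eq_zero {L : List (SE P)} (h : ∀ e ∈ L, ¬ QF e.a e.r e.b) : cnt L = 0 := by
  simpa [cnt] using h

theorem cnt_rev (L : List (SE P)) : cnt (rev L) = cnt L := by
  simp only [cnt, rev, List.countP_reverse, List.countP_map]
  rfl

theorem excursion {e : SE P} (hF : QF e.a e.r e.b) (hs : Sep e) (hb : BT e) {L : List (SE P)}
    {z : Wd P} (hL : Walk e.tgt L z) {m : UG P} (hm : NQ (QJ e.a e.r e.b) e.src z m) :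
    ∃ L', Walk e.src L' z ∧ cls L' = e.cls * cls L ∧ cnt L' < cnt L := by
  have hex : ∃ f ∈ L, QJ e.a e.r e.b f.a f.r f.b := by
    by_contra hc
    push Not at hc
    exact hs _ (hm.mul (NQ.inv ⟨L, hL, hc, rfl⟩))
  obtain ⟨D, f, L3, rfl, hD, hf⟩ := split_first (fun f : SE P => QJ e.a e.r e.b f.a f.r f.b) hex
  obtain ⟨z', w1, rfl, w2⟩ := walk_append.1 hL
  have hfF := hF.of_J hf
  obtain ⟨a, r, σ, c⟩ := e
  obtain ⟨a', r', σ', c'⟩ := f
  obtain ⟨rfl, ha, hc⟩ := hf
  simp only at ha hc hF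
  have hD' : NQ (QJ a r' c) (⟨a, r', σ, c⟩ : SE P).tgt (⟨a', r', σ', c'⟩ : SE P).src (cls D) :=
    ⟨D, w1, hD, rfl⟩
  have hσ : σ' = !σ := by
    by_contra hne
    have : σ' = σ := by cases σ <;> cases σ' <;> simp_all
    subst this
    exact hs _ ((hyp_nqJ hF ha hc σ').mul hD'.inv)
  subst hσ
  have h1 : cls D = hyp a r' c (!σ) a' c' :=
    mul_inv_eq_one.1 (hb _ (hD'.mul (hyp_nqJ hF ha hc (!σ)).inv))
  obtain ⟨M, hM1, hM2, hM3⟩ := hyp_nq hF ha hc σ
  refine ⟨M ++ L3, hM1.append (by simpa [SE.tgt] using w2), ?_, ?_⟩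
  · have h2 := hyp_cross (r0 := r') ha hc σ
    have h3 : (⟨a', r', !σ, c'⟩ : SE P).cls = (⟨a', r', σ, c'⟩ : SE P).cls⁻¹ :=
      SE.cls_inv ⟨a', r', σ, c'⟩
    simp only [cls_append, cls_cons, hM3, h1, h3, ← mul_assoc, h2, mul_inv_cancel_right]
  · rw [cnt_append, cnt_append, cnt_cons hfF, cnt_eq_zero (fun f hf h => hM2 f hf h.1)]
    omega

theorem exists_chamber {w : Wd P} (hw : ¬ Triv w)
    (hd : ∀ e : SE P, QF e.a e.r e.b → Conn w e.src → Sep e ∧ (BT e ∨ BT e.inv)) :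
    ∃ w0 g, Conn w w0 ∧ NQ QF w0 w0 g ∧ g ≠ 1 := by
  have red : ∀ (z : Wd P) (L : List (SE P)) (e : SE P), Conn w z → Walk z L z → cls L ≠ 1 →
      e ∈ L → QF e.a e.r e.b → BT e →
      ∃ z' L', Conn w z' ∧ Walk z' L' z' ∧ cls L' ≠ 1 ∧ cnt L' < cnt L := by
    intro z L e hz hL hne he hF hb
    have hc := hz.trans (hL.conn_src he)
    obtain ⟨L1, L2, rfl⟩ := List.append_of_mem he
    obtain ⟨z', w1, rfl, w2⟩ := walk_append.1 hL
    obtain ⟨L', k1, k2, k3⟩ := excursion hF (hd e hF hc).1 hb (w2.append w1) (NQ.one _)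
    refine ⟨_, L', hc, k1, ?_, ?_⟩
    · intro h
      apply hne
      rw [k2, cls_append, ← mul_assoc, mul_eq_one_comm] at h
      simpa using h
    · rw [cnt_append] at k3
      rw [cnt_append, cnt_cons hF]
      omega
  have key : ∀ (n : ℕ) (z : Wd P) (L : List (SE P)), cnt L = n → Conn w z → Walk z L z →
      cls L ≠ 1 → ∃ w0 g, Conn w w0 ∧ NQ QF w0 w0 g ∧ g ≠ 1 := by
    intro n
    induction n using Nat.strong_induction_on with
    | _ n ih =>
      intro z L hn hz hL hne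
      by_cases h : ∃ e ∈ L, QF e.a e.r e.b
      · obtain ⟨e, he, hF⟩ := h
        rcases (hd e hF (hz.trans (hL.conn_src he))).2 with hb | hb
        · obtain ⟨z', L', k1, k2, k3, k4⟩ := red z L e hz hL hne he hF hb
          exact ih _ (hn ▸ k4) z' L' rfl k1 k2 k3
        · obtain ⟨z', L', k1, k2, k3, k4⟩ := red z (rev L) e.inv hz hL.rev (by simpa using hne)
            (mem_rev.2 (by simpa using he)) hF hb
          rw [cnt_rev] at k4
          exact ih _ (hn ▸ k4) z' L' rfl k1 k2 k3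
      · push Not at h
        exact ⟨z, _, hz, ⟨L, hL, h, rfl⟩, hne⟩
  unfold Triv at hw
  push Not at hw
  obtain ⟨_, ⟨L, hL, rfl⟩, hne⟩ := hw
  exact key _ w L rfl (Conn.refl w) hL hne

theorem stay_in_chamber {w w0 : Wd P} {g0 : UG P} (hc : Conn w w0) (hg0 : NQ QF w0 w0 g0)
    (hne : g0 ≠ 1)
    (hd : ∀ e : SE P, QF e.a e.r e.b → Conn w e.src → Sep e ∧ (BT e ∨ BT e.inv))
    {g : UG P} (hg : Hom w0 w0 g) : NQ QF w0 w0 g := by
  have key : ∀ (n : ℕ) (z : Wd P) (L : List (SE P)) (k : UG P), cnt L = n → NQ QF w0 z k →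
      Walk z L w0 → NQ QF z w0 (cls L) := by
    intro n
    induction n using Nat.strong_induction_on with
    | _ n ih =>
      intro z L k hn hk hL
      by_cases h : ∃ e ∈ L, QF e.a e.r e.b
      · obtain ⟨D, e, L2, rfl, hD, hF⟩ := split_first (fun f : SE P => QF f.a f.r f.b) h
        obtain ⟨z', w1, rfl, w2⟩ := walk_append.1 hL
        have h1 : NQ QF z e.src (cls D) := ⟨D, w1, hD, rfl⟩
        have h2 := hk.mul h1
        obtain ⟨hs, hb⟩ := hd e hF (hc.trans h2.hom.conn)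
        have hb' : BT e := by
          refine hb.resolve_right (fun hb => hne ?_)
          have h4 : NQ (QJ e.a e.r e.b) e.src e.src ((k * cls D)⁻¹ * g0 * (k * cls D)) :=
            ((h2.inv.mul hg0).mul h2).mono (fun _ _ _ h => hF.of_J h)
          have h3 := hb _ (e.tgt_inv ▸ h4)
          rw [mul_assoc, inv_mul_eq_one] at h3
          simpa using h3
        obtain ⟨L', k1, k2, k3⟩ := excursion hF hs hb' w2 (h2.inv.mono (fun _ _ _ h => hF.of_J h))
        rw [cnt_append, cnt_cons hF] at hn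
        have := ih (cnt L') (by omega) _ L' _ rfl h2 k1
        rw [cls_append, cls_cons, ← k2]
        exact h1.mul this
      · push Not at h
        exact ⟨L, hL, h, rfl⟩
  obtain ⟨L, hL, rfl⟩ := hg
  exact key _ w0 L 1 rfl (NQ.one _) hL

theorem exists_dec {z : Wd P} (hz : ¬ Triv z) :
    ∃ p x q, z = p ++ x :: q ∧ Triv p ∧ ¬ Triv (p ++ [x]) := by
  have key : ∀ q p : Wd P, Triv p → ¬ Triv (p ++ q) →
      ∃ p' x q', p ++ q = p' ++ x :: q' ∧ Triv p' ∧ ¬ Triv (p' ++ [x]) := by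
    intro q
    induction q with
    | nil => intro p h1 h2; exact absurd h1 (by simpa using h2)
    | cons x q ih =>
      intro p h1 h2
      by_cases h : Triv (p ++ [x])
      · simpa using ih (p ++ [x]) h (by simpa using h2)
      · exact ⟨p, x, q, rfl, h1, h⟩
  simpa using key z [] triv_nil hz

theorem dec_unique {p p' q q' : Wd P} {x x' : P.Letter} (h : p ++ x :: q = p' ++ x' :: q')
    (h1 : Triv p) (h2 : ¬ Triv (p ++ [x])) (h1' : Triv p') (h2' : ¬ Triv (p' ++ [x'])) :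
    p = p' ∧ q = q' := by
  rcases List.append_eq_append_iff.1 h with ⟨m, rfl, h4⟩ | ⟨m, rfl, h4⟩
  · cases m with
    | nil => simp at h4; simp [h4]
    | cons y m =>
      simp only [List.cons_append, List.cons.injEq] at h4
      obtain ⟨rfl, -⟩ := h4
      exact absurd (Triv.left (r := m) (by simpa using h1')) h2
  · cases m with
    | nil => simp at h4; simp [h4]
    | cons y m =>
      simp only [List.cons_append, List.cons.injEq] at h4
      obtain ⟨rfl, -⟩ := h4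
      exact absurd (Triv.left (r := m) (by simpa using h1)) h2'

theorem edge_cases {e : SE P} {p q : Wd P} {x : P.Letter} (h : e.src = p ++ x :: q)
    (h1 : Triv p) (h2 : ¬ Triv (p ++ [x])) :
    (∃ f : SE P, e = f.ctx (p ++ [x]) [] ∧ f.src = q) ∨
    (∃ f : SE P, e = f.ctx [] (x :: q) ∧ f.src = p) ∨
    (QC e.a e.r e.b ∧ ∃ u, q = u ++ e.b ∧ e.a ++ inp e.r e.s = p ++ [x] ++ u) := by
  obtain ⟨a, r, σ, b⟩ := e
  simp only [SE.src] at h ⊢
  rcases List.append_eq_append_iff.1 h with ⟨m, rfl, h4⟩ | ⟨m, h3, h4⟩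
  · exact Or.inr (Or.inl ⟨⟨a, r, σ, m⟩, by simp [SE.ctx, h4], rfl⟩)
  · cases m with
    | nil =>
      simp only [List.append_nil, List.nil_append] at h3 h4
      exact Or.inr (Or.inl ⟨⟨a, r, σ, []⟩, by simp [SE.ctx, h4], by simpa using h3⟩)
    | cons y m =>
      simp only [List.cons_append, List.cons.injEq] at h4
      obtain ⟨rfl, rfl⟩ := h4
      by_cases ha : Triv a
      · refine Or.inr (Or.inr ⟨⟨ha, fun h' => h2 ?_⟩, m, rfl, by simp [h3]⟩)
        have := h'.conn (conn_inp a r true σ)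
        rw [h3] at this
        exact Triv.left (r := m) (by simpa using this)
      · left
        have h5 : a ++ inp r σ = (p ++ [x]) ++ m := by simp [h3]
        rcases List.append_eq_append_iff.1 h5 with ⟨m', h6, h7⟩ | ⟨m', rfl, rfl⟩
        · cases m' using List.reverseRecOn with
          | nil =>
            simp only [List.append_nil, List.nil_append] at h6 h7
            exact ⟨⟨[], r, σ, b⟩, by simp [SE.ctx, h6], by simp [h7]⟩
          | append_singleton m' y =>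
            rw [← List.append_assoc] at h6
            obtain ⟨rfl, -⟩ := List.append_inj' h6 rfl
            exact absurd h1.left ha
        · exact ⟨⟨m', r, σ, b⟩, by simp [SE.ctx], by simp⟩

theorem thin_chamber {p q : Wd P} {x : P.Letter} (h1 : Triv p) (h2 : ¬ Triv (p ++ [x]))
    (h3 : Triv q) {g : UG P} (hg : NQ QF (p ++ x :: q) (p ++ x :: q) g) : g = 1 := by
  have key : ∀ (L : List (SE P)) (z : Wd P), Walk (p ++ x :: q) L z →
      (∀ e ∈ L, ¬ QF e.a e.r e.b) → ∃ p' q' g1 g2, z = p' ++ x :: q' ∧ Hom p p' g1 ∧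
        Hom q q' g2 ∧ cls L = ctx [] (x :: q) g1 * ctx (p' ++ [x]) [] g2 := by
    intro L
    induction L using List.reverseRecOn with
    | nil => intro z h _; exact ⟨p, q, 1, 1, h.symm, Hom.one _, Hom.one _, by simp⟩
    | append_singleton L e ih =>
      intro z h hq
      obtain ⟨z', k1, rfl, rfl⟩ := walk_append.1 h
      obtain ⟨p', q', g1, g2, m1, m2, m3, m4⟩ := ih _ k1 (fun f hf => hq f (by simp [hf]))
      have t1 := h1.conn m2.conn
      have t2 : ¬ Triv (p' ++ [x]) := fun h' => h2 (h'.conn (m2.conn.symm.ctxR _))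
      simp only [cls_append, cls_cons, cls_nil, mul_one, m4]
      rcases edge_cases m1 t1 t2 with ⟨f, rfl, rfl⟩ | ⟨f, rfl, rfl⟩ | ⟨c1, u, c2, -⟩
      · exact ⟨p', f.tgt, g1, g2 * f.cls, by simp, m2, m3.mul (Hom.edge f),
          by rw [map_mul, ctx_secls, mul_assoc]⟩
      · refine ⟨f.tgt, q', g1 * f.cls, g2, by simp, m2.mul (Hom.edge f), m3, ?_⟩
        have := inter ((Hom.edge f).ctxR [x]) m3
        simp only [ctx_ctx, List.append_nil, List.singleton_append] at this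
        rw [map_mul, mul_assoc, mul_assoc, this, ctx_secls]
      · exfalso
        refine hq e (by simp) ⟨c1, ?_⟩
        have := h3.conn m3.conn
        rw [c2] at this
        exact this.right
  obtain ⟨L, hL, hL', rfl⟩ := hg
  obtain ⟨p', q', g1, g2, m1, m2, m3, m4⟩ := key L _ hL hL'
  obtain ⟨rfl, rfl⟩ := dec_unique m1 h1 h2 (h1.conn m2.conn)
    (fun h' => h2 (h'.conn (m2.conn.symm.ctxR _)))
  rw [m4, h1 _ m2, h3 _ m3]
  simp

theorem inf_of_chi {y : Wd P} {g : UG P} {Q : Wd P → P.Rel → Wd P → Prop} (hQ : SqInv Q)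
    (h2 : Hom y y g) (h3 : 1 ≤ Multiplicative.toAdd (chi Q hQ g)) (l r : Wd P) :
    ¬ IsOfFinOrder (ctx l r g) := by
  intro hf
  obtain ⟨m, hm, h5⟩ := isOfFinOrder_iff_pow_eq_one.1 hf
  rw [← map_pow] at h5
  have h7 := ctx_inj (h2.pow m) l r h5
  have h8 := congrArg (fun x => Multiplicative.toAdd (chi Q hQ x)) h7
  simp only [map_pow, toAdd_pow, map_one, toAdd_one, nsmul_eq_mul] at h8
  have : (1 : ℤ) ≤ m := by exact_mod_cast hm
  nlinarith

theorem not_isOfFinOrder_conj' {G : Type*} [Group G] {c : G} (y : G) (h : ¬ IsOfFinOrder c) :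
    ¬ IsOfFinOrder (y * c * y⁻¹) := by
  simpa using not_isOfFinOrder_conj y⁻¹ h

section par

variable {w0 : Wd P} {PF : Set (Subgroup (DG w0))}

theorem ParFam.uniq' (h : ParFam (DG w0) PF) {A B : Subgroup (DG w0)} (hA : A ∈ PF) (hB : B ∈ PF)
    {c : UG P} (h1 : c ∈ A.map (DG w0).subtype) (h2 : c ∈ B.map (DG w0).subtype)
    (h3 : ¬ IsOfFinOrder c) : A = B := by
  obtain ⟨c', hc', rfl⟩ := h1
  obtain ⟨c'', hc'', e⟩ := h2
  obtain rfl : c'' = c' := Subtype.ext e
  exact h.uniq A hA B hB c'' hc' hc'' (fun hf => h3 ((DG w0).subtype.isOfFinOrder hf))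

theorem ParFam.norm' (h : ParFam (DG w0) PF) {A : Subgroup (DG w0)} (hA : A ∈ PF)
    {g c : UG P} (hg : Hom w0 w0 g) (h1 : c ∈ A.map (DG w0).subtype)
    (h2 : g * c * g⁻¹ ∈ A.map (DG w0).subtype) (h3 : ¬ IsOfFinOrder c) :
    g ∈ A.map (DG w0).subtype := by
  obtain ⟨c', hc', rfl⟩ := h1
  obtain ⟨c'', hc'', e⟩ := h2
  obtain rfl : c'' = ⟨g, hg⟩ * c' * (⟨g, hg⟩ : DG w0)⁻¹ := Subtype.ext e
  exact ⟨⟨g, hg⟩, h.norm A hA _ c' hc' hc'' (fun hf => h3 ((DG w0).subtype.isOfFinOrder hf)), rfl⟩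

theorem ParFam.product (h : ParFam (DG w0) PF) {p q : Wd P} {k : UG P} (hk : Hom w0 (p ++ q) k)
    (hp : ¬ Triv p) (hq : ¬ Triv q) :
    ∃ A ∈ PF, ∀ d, Hom q q d → k * ctx p [] d * k⁻¹ ∈ A.map (DG w0).subtype := by
  obtain ⟨l, y, g, Q, hQ, h1, h2, h3⟩ := exists_chi hp
  obtain ⟨j, hj⟩ := h1.hom
  obtain ⟨b, hb, hb'⟩ := exists_inf hq
  obtain ⟨F, F1, F2, F3⟩ := exists_height l y [] q
  simp only [List.append_nil, List.nil_append] at F1 F2 F3
  have hk' := hk.mul (hj.ctxR q)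
  set k' := k * ctx [] q j with hk''
  have ha0 := h2.ctx l q
  have com : ∀ d, Hom q q d → Commute (ctx l q g) (ctx (l ++ y) [] d) := by
    intro d hd
    have := inter (h2.ctxL l) hd
    simp only [ctx_ctx, List.nil_append] at this
    exact this
  have com' : ∀ d, Hom q q d →
      Commute (k' * ctx l q g * k'⁻¹) (k' * ctx (l ++ y) [] d * k'⁻¹) := by
    intro d hd
    have := (com d hd).map (MulAut.conj k')
    simpa using this
  obtain ⟨A, hA, haA, -⟩ := h.zz ⟨_, (hk'.mul ha0).mul hk'.inv⟩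
    ⟨_, (hk'.mul (hb.ctxL (l ++ y))).mul hk'.inv⟩ (Subtype.ext (com' b hb).eq)
    (fun hf => not_isOfFinOrder_conj' k' (hb' _ _) ((DG w0).subtype.isOfFinOrder hf))
    (fun γ => F (k'⁻¹ * γ * k')) (by
      intro γ
      have := F1 b _ hb ((hk'.inv.mul γ.2).mul hk')
      simpa [mul_assoc] using this) (by
      intro x
      obtain ⟨D, hD⟩ := F2 _ ((hk'.inv.mul x.2).mul hk')
      refine ⟨D, fun γ => ?_⟩
      have := hD _ ((hk'.inv.mul γ.2).mul hk')
      simpa [mul_assoc] using this) (by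
      intro m
      have h4 := F3 Q hQ _ (h2.pow m)
      simp only [map_pow, toAdd_pow, nsmul_eq_mul] at h4
      change m ≤ F (k'⁻¹ * (k' * ctx l q g * k'⁻¹) ^ m * k')
      rw [conj_pow]
      simp only [mul_assoc, inv_mul_cancel_left, inv_mul_cancel, mul_one]
      have : (m : ℤ) ≤ F (ctx l q g ^ m) := le_trans (by nlinarith) h4
      exact_mod_cast this)
  refine ⟨A, hA, fun d hd => ?_⟩
  have e : k * ctx p [] d * k⁻¹ = k' * ctx (l ++ y) [] d * k'⁻¹ := by
    rw [hk'', mul_assoc k (ctx [] q j), inter hj hd]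
    group
  rw [e]
  have haA' : k' * ctx l q g * k'⁻¹ ∈ A.map (DG w0).subtype := ⟨_, haA, rfl⟩
  refine h.norm' hA ((hk'.mul (hd.ctxL _)).mul hk'.inv) haA' ?_
    (not_isOfFinOrder_conj' k' (inf_of_chi hQ h2 h3 l q))
  rw [← (com' d hd).eq, mul_inv_cancel_right]
  exact haA'

theorem ParFam.chamber (h : ParFam (DG w0) PF) {g0 : UG P} (hg0 : NQ QF w0 w0 g0) (hne : g0 ≠ 1)
    (hall : ∀ g, Hom w0 w0 g → NQ QF w0 w0 g) : False := by
  have hw0 : ¬ Triv w0 := fun h' => hne (h' _ hg0.hom)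
  have thick : ∀ {p q : Wd P} {x : P.Letter} {k : UG P}, NQ QF w0 (p ++ x :: q) k → Triv p →
      ¬ Triv (p ++ [x]) → ¬ Triv q := by
    intro p q x k hk h1 h2 h3
    have h4 := thin_chamber h1 h2 h3 ((hk.inv.mul hg0).mul hk)
    rw [mul_assoc, inv_mul_eq_one] at h4
    exact hne (by simpa using h4)
  obtain ⟨p0, x0, q0, e0, t1, t2⟩ := exists_dec hw0
  have t3 := thick (q := q0) (k := 1) (by rw [← e0]; exact NQ.one w0) t1 t2
  obtain ⟨A, hA, hA'⟩ := h.product (p := p0 ++ [x0]) (q := q0) (k := 1)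
    (by simpa [e0] using Hom.one w0) t2 t3
  have key : ∀ (L : List (SE P)) (p q : Wd P) (x : P.Letter), Walk w0 L (p ++ x :: q) →
      (∀ e ∈ L, ¬ QF e.a e.r e.b) → Triv p → ¬ Triv (p ++ [x]) → ∀ d, Hom q q d →
      cls L * ctx (p ++ [x]) [] d * (cls L)⁻¹ ∈ A.map (DG w0).subtype := by
    intro L
    induction L using List.reverseRecOn with
    | nil =>
      intro p q x hL _ h1 h2 d hd
      simp only [walk_nil] at hL
      have hx : x0 = x ∧ p0 = p ∧ q0 = q := by
        obtain ⟨rfl, rfl⟩ := dec_unique (e0.symm.trans hL) t1 t2 h1 h2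
        have := e0.symm.trans hL
        simpa using this
      obtain ⟨rfl, rfl, rfl⟩ := hx
      exact hA' d hd
    | append_singleton L e ih =>
      intro p' q' x' hL hq h1' h2'
      have n1 : NQ QF w0 (p' ++ x' :: q') (cls (L ++ [e])) := ⟨_, hL, hq, rfl⟩
      obtain ⟨B, hB, hB'⟩ := h.product (p := p' ++ [x']) (q := q') (k := cls (L ++ [e]))
        (by simpa using n1.hom) h2' (thick n1 h1' h2')
      obtain ⟨z, k1, rfl, k2⟩ := walk_append.1 hL
      simp only [walk_nil] at k2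
      have hq' : ∀ f ∈ L, ¬ QF f.a f.r f.b := fun f hf => hq f (by simp [hf])
      have n2 : NQ QF w0 e.src (cls L) := ⟨_, k1, hq', rfl⟩
      obtain ⟨p, x, q, m1, h1, h2⟩ := exists_dec (z := e.src)
        (fun h' => hw0 (h'.conn n2.hom.conn.symm))
      have h3 := thick (m1 ▸ n2) h1 h2
      have ih' := ih p q x (m1 ▸ k1) hq' h1 h2
      suffices hAB : A = B by rw [hAB]; exact hB'
      simp only [cls_append, cls_cons, cls_nil, mul_one] at hB'
      rcases edge_cases m1 h1 h2 with ⟨f, rfl, rfl⟩ | ⟨f, rfl, rfl⟩ | ⟨c1, u, c2, c3⟩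
      · obtain ⟨b, hb, hb'⟩ := exists_inf h3
        have hx : x = x' ∧ p = p' ∧ f.tgt = q' := by
          have k3 : p ++ x :: f.tgt = p' ++ x' :: q' := by simpa using k2
          obtain ⟨rfl, rfl⟩ := dec_unique k3 h1 h2 h1' h2'
          simpa using k3
        obtain ⟨rfl, rfl, rfl⟩ := hx
        refine h.uniq' hA hB (ih' b hb) ?_ (not_isOfFinOrder_conj' _ (hb' _ _))
        have := hB' _ (((Hom.edge f).inv.mul hb).mul (Hom.edge f))
        simpa [← ctx_secls, mul_assoc] using this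
      · obtain ⟨b, hb, hb'⟩ := exists_inf h3
        have hx : x = x' ∧ f.tgt = p' ∧ q = q' := by
          have k3 : f.tgt ++ x :: q = p' ++ x' :: q' := by simpa using k2
          obtain ⟨rfl, rfl⟩ := dec_unique k3 (h1.conn (Conn.edge f))
            (fun h' => h2 (h'.conn ((Conn.edge f).symm.ctxR _))) h1' h2'
          simpa using k3
        obtain ⟨rfl, rfl, rfl⟩ := hx
        refine h.uniq' hA hB (ih' b hb) ?_ (not_isOfFinOrder_conj' _ (hb' _ _))
        have h4 := hB' _ hb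
        have h5 := inter ((Hom.edge f).ctxR [x]) hb
        simp only [ctx_ctx, List.append_nil, List.singleton_append] at h5
        rw [← ctx_secls, mul_assoc (cls L), h5] at h4
        simpa [mul_assoc] using h4
      · have h4 : ¬ Triv e.b := fun h' => hq e (by simp) ⟨c1, h'⟩
        obtain ⟨b, hb, hb'⟩ := exists_inf h4
        rcases edge_cases (e := e.inv) (by simpa using k2) h1' h2' with
          ⟨f, f1, -⟩ | ⟨f, f1, f2⟩ | ⟨-, u', c2', c3'⟩
        · exfalso
          have : e.a = p' ++ [x'] ++ f.a := congrArg SE.a f1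
          exact h2' (Triv.left (this ▸ c1.1))
        · exfalso
          have a1 : e.a = f.a := (congrArg SE.a f1 : e.inv.a = (f.ctx [] (x' :: q')).a)
          have a2 : e.r = f.r := (congrArg SE.r f1 : e.inv.r = (f.ctx [] (x' :: q')).r)
          apply c1.not_triv f.s
          rw [a1, a2]
          exact Triv.left (r := f.b) (f2 ▸ h1' : Triv f.src)
        · simp only [SE.inv] at c2' c3'
          have h5 := ih' _ (c2 ▸ hb.ctxL u)
          have h6 := hB' _ (c2' ▸ hb.ctxL u')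
          rw [ctx_ctx, ← c3] at h5
          rw [ctx_ctx, ← c3'] at h6
          refine h.uniq' hA hB h5 ?_ (not_isOfFinOrder_conj' _ (hb' _ _))
          have h7 := inter (Hom.edge ⟨e.a, e.r, e.s, []⟩) hb
          simp only [ctx_secls, SE.ctx, SE.src, SE.tgt, List.nil_append, List.append_nil] at h7 h6
          rw [mul_assoc (cls L), h7] at h6
          simpa [mul_assoc] using h6
  apply h.proper A hA
  rw [eq_top_iff]
  rintro ⟨g, hg⟩ -
  obtain ⟨L, hL, hL', rfl⟩ := hall g hg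
  obtain ⟨b, hb, hb'⟩ := exists_inf t3
  obtain ⟨c, hc, e⟩ := h.norm' hA hg (by simpa using hA' b hb)
    (key L p0 q0 x0 (e0 ▸ hL) hL' t1 t2 b hb) (hb' _ _)
  obtain rfl : c = ⟨cls L, hg⟩ := Subtype.ext e
  exact hc

end par

theorem splits_DG {w : Wd P} (h : HasPF (DG w)) : Splits (DG w) := by
  by_contra h2
  have hd := dichotomy h h2
  have hw : ¬ Triv w := by
    intro ht
    obtain ⟨PF, hPF⟩ := h
    obtain ⟨A, -, c, -, hc⟩ := hPF.ex
    exact hc (Subtype.ext (ht _ c.2))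
  obtain ⟨w0, g0, hc, hg0, hne⟩ := exists_chamber hw hd
  obtain ⟨k, hk⟩ := hc.hom
  obtain ⟨PF, hPF⟩ := h.of_equiv (DG.equiv hk)
  exact hPF.chamber hg0 hne (fun g hg => stay_in_chamber hc hg0 hne hd hg)

end Pool.Agent.Lib.MP_e6550d_al
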