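import Pool.Agent.Lib.MP_e6550d_al.DgE

namespace Pool.Agent.Lib.MP_e6550d_al

universe u v

variable {P : SemigroupPresentation.{u, v}}

theorem ug_induction {C : UG P → Prop} (h1 : C 1) (h : ∀ g a r c, C g ↔ C (g * gen a r c))
    (g : UG P) : C g := by
  let S : Subgroup (UG P) :=
    { carrier := {x | ∀ g, C g ↔ C (g * x)}
      mul_mem' := fun {x y} hx hy g => by rw [hx g, hy, mul_assoc]
      one_mem' := fun g => by rw [mul_one]
      inv_mem' := fun {x} hx g => by rw [hx (g * x⁻¹), inv_mul_cancel_right] }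
  have := PresentedGroup.generated_by _ S (fun j g => h g j.1 j.2.1 j.2.2) g 1
  simpa using this.1 h1

/-- potentials on the Cayley complex of the universal group -/
theorem exists_pot {X : Type*} [Group X] (lab : UG P → Wd P → P.Rel → Wd P → X)
    (h : ∀ g a r b s c, lab g a r (b ++ P.lhs s ++ c) *
      lab (g * gen a r (b ++ P.lhs s ++ c)) (a ++ P.rhs r ++ b) s c = lab g (a ++ P.lhs r ++ b) s c *
      lab (g * gen (a ++ P.lhs r ++ b) s c) a r (b ++ P.rhs s ++ c)) :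
    ∃ φ : UG P → X, φ 1 = 1 ∧ ∀ g a r c, φ (g * gen a r c) = φ g * lab g a r c := by
  let π : Wd P → P.Rel → Wd P → Equiv.Perm (UG P × X) := fun a r c =>
    { toFun := fun p => (p.1 * gen a r c, p.2 * lab p.1 a r c)
      invFun := fun p => (p.1 * (gen a r c)⁻¹, p.2 * (lab (p.1 * (gen a r c)⁻¹) a r c)⁻¹)
      left_inv := fun p => by simp
      right_inv := fun p => by simp }
  let Φ : UG P →* (Equiv.Perm (UG P × X))ᵐᵒᵖ :=
    mkHom (fun a r c => MulOpposite.op (π a r c)) fun a r b s c => by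
      apply MulOpposite.unop_injective
      refine Equiv.ext fun p => Prod.ext ?_ ?_
      · exact (mul_assoc _ _ _).trans ((congrArg _ (gen_sq a r b s c)).trans (mul_assoc _ _ _).symm)
      · exact (mul_assoc _ _ _).trans ((congrArg _ (h p.1 a r b s c)).trans (mul_assoc _ _ _).symm)
  have h1 : ∀ g a r c, (Φ (g * gen a r c)).unop (1, 1) = π a r c ((Φ g).unop (1, 1)) := by
    intro g a r c
    rw [map_mul, mkHom_gen]
    rfl
  have h2 : ∀ g, ((Φ g).unop (1, 1)).1 = g := fun g =>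
    ug_induction (C := fun g => ((Φ g).unop (1, 1)).1 = g) (by simp) (fun g a r c => by
      rw [h1]
      exact (mul_left_inj _).symm) g
  refine ⟨fun g => ((Φ g).unop (1, 1)).2, by simp, fun g a r c => ?_⟩
  simp only [h1]
  exact congrArg (fun x => _ * lab x a r c) (h2 g)

/-- a path inside a hyperplane -/
def hp (r : P.Rel) (σ : Bool) (c a' : Wd P) (g1 g2 : UG P) : UG P :=
  ctx [] (inp r σ ++ c) g1 * ctx (a' ++ inp r σ) [] g2

theorem hp_mul {r : P.Rel} {σ : Bool} {c c' a' a'' : Wd P} {g1 g2 g1' g2' : UG P}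
    (h1 : Hom a' a'' g1') (h2 : Hom c c' g2) :
    hp r σ c a' g1 g2 * hp r σ c' a'' g1' g2' = hp r σ c a'' (g1 * g1') (g2 * g2') := by
  have := inter (h1.ctxR (inp r σ)) h2
  simp only [ctx_ctx, List.append_nil] at this
  simp only [hp, map_mul, mul_assoc]
  rw [← mul_assoc (ctx (a' ++ inp r σ) [] g2), ← this, mul_assoc]

/-- edges of the universal cover that are parallel up to the action of `H` -/
def parS (H : Subgroup (UG P)) : Setoid (UG P × Wd P × P.Rel × Wd P) where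
  r x y := x.2.2.1 = y.2.2.1 ∧ ∃ h ∈ H, ∃ g1 g2, Hom x.2.1 y.2.1 g1 ∧ Hom x.2.2.2 y.2.2.2 g2 ∧
    h * x.1 * hp x.2.2.1 true x.2.2.2 y.2.1 g1 g2 = y.1
  iseqv := by
    refine ⟨fun x => ⟨rfl, 1, one_mem _, 1, 1, Hom.one _, Hom.one _, by simp [hp]⟩, ?_, ?_⟩
    · rintro ⟨k, a, r, c⟩ ⟨k', a', r', c'⟩ ⟨e, h, hh, g1, g2, h1, h2, e'⟩
      dsimp only at *
      subst e e'
      refine ⟨rfl, h⁻¹, inv_mem hh, _, _, h1.inv, h2.inv, ?_⟩
      simp only [mul_assoc, inv_mul_cancel_left]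
      rw [hp_mul h1.inv h2]
      simp [hp]
    · rintro ⟨k, a, r, c⟩ ⟨k', a', r', c'⟩ ⟨k'', a'', r'', c''⟩ ⟨e1, h, hh, g1, g2, h1, h2, e2⟩
        ⟨e3, h', hh', g1', g2', h1', h2', e4⟩
      dsimp only at *
      subst e1 e2 e3 e4
      refine ⟨rfl, h' * h, mul_mem hh' hh, _, _, h1.mul h1', h2.mul h2', ?_⟩
      rw [← hp_mul h1' h2]
      simp only [mul_assoc]

/-- the class of an edge of the universal cover, with its orientation -/
def letr (H : Subgroup (UG P)) (k : UG P) (e : SE P) : Quotient (parS H) × Bool :=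
  (Quotient.mk _ (if e.s then k else k * e.cls, e.a, e.r, e.b), e.s)

section

variable (Q : Wd P → P.Rel → Wd P → Prop) (H : Subgroup (UG P))

open Classical in
/-- the hyperplanes crossed by a walk -/
noncomputable def lets : UG P → List (SE P) → List (Quotient (parS H) × Bool)
  | _, [] => []
  | k, e :: L => (if Q e.a e.r e.b then [letr H k e] else []) ++ lets (k * e.cls) L

variable {Q H}

theorem lets_head {k : UG P} {L : List (SE P)} {x : Quotient (parS H) × Bool} {B}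
    (h : lets Q H k L = x :: B) : ∃ D e L2, L = D ++ e :: L2 ∧ (∀ f ∈ D, ¬ Q f.a f.r f.b) ∧
      Q e.a e.r e.b ∧ x = letr H (k * cls D) e ∧ lets Q H (k * cls D * e.cls) L2 = B := by
  induction L generalizing k with
  | nil => simp [lets] at h
  | cons e L ih =>
    by_cases hq : Q e.a e.r e.b
    · simp only [lets, hq, if_true, List.singleton_append, List.cons.injEq] at h
      exact ⟨[], e, L, rfl, by simp, hq, by simp [h.1], by simpa using h.2⟩
    · simp only [lets, hq, if_false, List.nil_append] at h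
      obtain ⟨D, f, L2, rfl, h1, h2, h3, h4⟩ := ih h
      exact ⟨e :: D, f, L2, rfl, List.forall_mem_cons.2 ⟨hq, h1⟩, h2, by simpa [mul_assoc] using h3,
        by simpa [mul_assoc] using h4⟩

theorem lets_pair {k : UG P} {L : List (SE P)} {A B} {x y : Quotient (parS H) × Bool}
    (h : lets Q H k L = A ++ x :: y :: B) : ∃ L1 e1 D e2 L2, L = L1 ++ e1 :: D ++ e2 :: L2 ∧
      Q e1.a e1.r e1.b ∧ (∀ f ∈ D, ¬ Q f.a f.r f.b) ∧ x = letr H (k * cls L1) e1 ∧
      y = letr H (k * cls L1 * e1.cls * cls D) e2 := by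
  induction A generalizing k L with
  | nil =>
    obtain ⟨L1, e1, M, rfl, -, h2, h3, h4⟩ := lets_head h
    obtain ⟨D, e2, L2, rfl, h5, -, h6, -⟩ := lets_head h4
    exact ⟨L1, e1, D, e2, L2, by simp, h2, h5, h3, h6⟩
  | cons z A ih =>
    obtain ⟨L0, e0, M, rfl, -, -, -, h4⟩ := lets_head h
    obtain ⟨L1, e1, D, e2, L2, rfl, h1, h2, h3, h5⟩ := ih h4
    exact ⟨L0 ++ e0 :: L1, e1, D, e2, L2, by simp, h1, h2, by simpa [mul_assoc] using h3,
      by simpa [mul_assoc] using h5⟩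

theorem lets_eq_nil {k : UG P} {L : List (SE P)} :
    lets Q H k L = [] ↔ ∀ e ∈ L, ¬ Q e.a e.r e.b := by
  induction L generalizing k with
  | nil => simp [lets]
  | cons e L ih => by_cases hq : Q e.a e.r e.b <;> simp [lets, hq, ih]

/-- the conclusion of Britton's lemma -/
def Pinch (Q : Wd P → P.Rel → Wd P → Prop) (H : Subgroup (UG P)) (L : List (SE P)) : Prop :=
  ∃ L1 a1 r σ c1 D a2 c2 L2, L = L1 ++ ⟨a1, r, σ, c1⟩ :: D ++ ⟨a2, r, !σ, c2⟩ :: L2 ∧
    Q a1 r c1 ∧ (∀ f ∈ D, ¬ Q f.a f.r f.b) ∧ ∃ h ∈ H, ∃ g1 g2, Hom a1 a2 g1 ∧ Hom c1 c2 g2 ∧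
      h * (cls L1 * (⟨a1, r, σ, c1⟩ : SE P).cls) * hp r (!σ) c1 a2 g1 g2
        = cls L1 * (⟨a1, r, σ, c1⟩ : SE P).cls * cls D

theorem britton (hQ : SqInv Q)
    (hX : ∀ a r b s c, Q a r (b ++ P.lhs s ++ c) → ¬ Q (a ++ P.lhs r ++ b) s c)
    (H : Subgroup (UG P)) : ∃ φ : UG P → FreeGroup (Quotient (parS H)), φ 1 = 1 ∧
      (∀ h ∈ H, ∀ g, φ (h * g) = φ h * φ g) ∧ (∀ x y g, NQ Q x y g → φ g = 1) ∧
      ∀ L, φ (cls L) = 1 → (∃ e ∈ L, Q e.a e.r e.b) → Pinch Q H L := by
  classical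
  obtain ⟨φ, h1, h2⟩ := exists_pot (fun g a r c => if Q a r c then
      FreeGroup.of (Quotient.mk (parS H) (g, a, r, c)) else 1) fun g a r b s c => by
    have i1 := hQ.1 a r b s c
    have i2 := hQ.2 a r b s c
    by_cases j1 : Q a r (b ++ P.lhs s ++ c)
    · have j2 := hX a r b s c j1
      rw [if_pos j1, if_neg j2, if_neg (mt i2.2 j2), if_pos (i1.1 j1), mul_one, one_mul]
      refine congrArg _ (Quotient.sound ⟨rfl, 1, one_mem _, 1, _, Hom.one _,
        Hom.edge ⟨b, s, true, c⟩, ?_⟩)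
      simp [hp, inp]
    · rw [if_neg j1, if_neg (mt i1.2 j1), mul_one, one_mul]
      by_cases j2 : Q (a ++ P.lhs r ++ b) s c
      · rw [if_pos j2, if_pos (i2.1 j2)]
        refine congrArg _ (Eq.symm (Quotient.sound ⟨rfl, 1, one_mem _, _, 1,
          Hom.edge ⟨a, r, true, b⟩, Hom.one _, ?_⟩))
        simp [hp, inp]
      · rw [if_neg j2, if_neg (mt i2.2 j2)]
  have h3 : ∀ (L : List (SE P)) k, φ (k * cls L) = φ k * FreeGroup.mk (lets Q H k L) := by
    intro L
    induction L with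
    | nil => intro k; simp [lets, ← FreeGroup.one_eq_mk]
    | cons e L ih =>
      intro k
      rw [cls_cons, ← mul_assoc, ih, lets, ← FreeGroup.mul_mk, ← mul_assoc]
      congr 1
      obtain ⟨a, r, _ | _, c⟩ := e
      · have := h2 (k * (gen a r c)⁻¹) a r c
        rw [inv_mul_cancel_right] at this
        rw [this, mul_assoc]
        split_ifs
        · exact (mul_eq_left.2 (mul_inv_cancel _)).symm
        · exact (mul_eq_left.2 (mul_one _)).symm
      · rw [SE.cls_true, h2]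
        split_ifs <;> rfl
  refine ⟨φ, h1, fun h hh g => ?_, ?_, fun L hL he => ?_⟩
  · refine ug_induction (C := fun g => φ (h * g) = φ h * φ g) (by simp [h1]) (fun g a r c => ?_) g
    have : Quotient.mk (parS H) (g, a, r, c) = Quotient.mk (parS H) (h * g, a, r, c) :=
      Quotient.sound ⟨rfl, h, hh, 1, 1, Hom.one _, Hom.one _, by simp [hp]⟩
    rw [← mul_assoc, h2, h2, this, ← mul_assoc, mul_left_inj]
  · rintro x y _ ⟨L, -, hL, rfl⟩
    have := h3 L 1
    rwa [one_mul, h1, lets_eq_nil.2 hL, one_mul] at this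
  · have h4 := h3 L 1
    rw [one_mul, h1, one_mul, hL, FreeGroup.one_eq_mk, FreeGroup.Red.exact] at h4
    obtain ⟨w, h5, h6⟩ := h4
    rw [FreeGroup.Red.nil_iff.1 h5] at h6
    rcases h6.cases_head with h7 | ⟨w', h7, -⟩
    · obtain ⟨e, h8, h9⟩ := he
      exact absurd h9 (lets_eq_nil.1 h7 e h8)
    · generalize h8 : lets Q H 1 L = w0 at h7
      obtain @⟨A, B, x, β⟩ := h7
      obtain ⟨L1, ⟨a1, r, σ, c1⟩, D, ⟨a2, r', σ', c2⟩, L2, rfl, q1, q2, q3, q4⟩ := lets_pair h8
      obtain ⟨q5, rfl⟩ := Prod.mk.inj q3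
      obtain ⟨q6, rfl⟩ := Prod.mk.inj q4
      obtain ⟨rfl, h, hh, g1, g2, m1, m2, m3⟩ := Quotient.exact (q5.symm.trans q6)
      refine ⟨L1, a1, r, β, c1, D, a2, c2, L2, rfl, q1, q2, h, hh, g1, g2, m1, m2, ?_⟩
      cases β
      · simpa using m3
      · have m4 := cross_back (r := r) (σ := true) m1 m2
        simp only [one_mul, if_true, Bool.not_true, Bool.false_eq_true, if_false, SE.cls_false,
          SE.cls_true] at m3 m4 ⊢
        rw [← eq_mul_inv_iff_mul_eq.1 m3, mul_assoc, mul_assoc, hp, m4, hp]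
        simp only [mul_assoc]

end

end Pool.Agent.Lib.MP_e6550d_al
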