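import Pool.Agent.Lib.MP_e6550d_al.KA

namespace Pool.Agent.Lib.MP_e6550d_al

universe u v

variable {P : SemigroupPresentation.{u, v}}

theorem pinch_cls {a1 a2 c1 c2 : Wd P} {r : P.Rel} {σ : Bool} {g1 g2 : UG P} (h1 : Hom a1 a2 g1)
    (h2 : Hom c1 c2 g2) : (⟨a1, r, σ, c1⟩ : SE P).cls * hp r (!σ) c1 a2 g1 g2 *
      (⟨a2, r, !σ, c2⟩ : SE P).cls = hp r σ c1 a2 g1 g2 := by
  have k : (⟨a2, r, !σ, c2⟩ : SE P).cls = (⟨a2, r, σ, c2⟩ : SE P).cls⁻¹ :=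
    SE.cls_inv ⟨a2, r, σ, c2⟩
  rw [hp, cross_back h1 h2, k, mul_inv_cancel_right, hp]

theorem pinch_walk {x y a1 a2 c1 c2 : Wd P} {r : P.Rel} {σ : Bool} {L1 D L2 : List (SE P)}
    (h : Walk x (L1 ++ ⟨a1, r, σ, c1⟩ :: D ++ ⟨a2, r, !σ, c2⟩ :: L2) y) :
    Walk x L1 (a1 ++ inp r σ ++ c1) ∧ Walk (a1 ++ inp r (!σ) ++ c1) D (a2 ++ inp r (!σ) ++ c2) ∧
      Walk (a2 ++ inp r σ ++ c2) L2 y := by
  obtain ⟨z2, w1, rfl, w2⟩ := walk_append.1 h
  obtain ⟨z1, w3, rfl, w4⟩ := walk_append.1 w1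
  exact ⟨w3, w4, by simpa [SE.tgt] using w2⟩

theorem hom_nil {a : Wd P} {g : UG P} (h : Hom [] a g) : a = [] ∧ g = 1 := by
  obtain ⟨_ | ⟨e, L⟩, hL, rfl⟩ := h
  · exact ⟨hL.symm, rfl⟩
  · simpa [SE.src, inp_ne] using hL.1

theorem exists_short_ctx {v c1 c2 : Wd P} {D : List (SE P)} {g : UG P}
    (hD : Walk (v ++ c1) D (v ++ c2)) (h2 : Hom c1 c2 g) (e : cls D = ctx v [] g) :
    ∃ η, Walk c1 η c2 ∧ cls η = g ∧ η.length ≤ D.length := by
  obtain ⟨M, hM, rfl⟩ := h2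
  obtain ⟨η, h1, h2, h3⟩ := exists_short hM
  refine ⟨η, h1, h2, ?_⟩
  have a1 := wtS_run hD (hAt_leaves false _)
  have a2 := isAct_hact.action hD (hM.ctxL v) (by simpa using e) (hAt_leaves false _)
  have a3 := run_ctx hM (hAt_leaves false c1) (leaves false v) []
  simp only [lab_leaves, List.append_nil, ← leaves_append] at a3
  rw [a2] at a1
  rw [show run hact (M.map (SE.ctx v [])) _ = _ from a3] at a1
  simp only [wtS_append, wtS_leaves] at a1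
  omega

/-- edges that change the first letter -/
def Q0 (a : Wd P) (_ : P.Rel) (_ : Wd P) : Prop := a = []

theorem britton0 (H : Subgroup (UG P)) : ∃ φ : UG P → FreeGroup (Quotient (parS H)), φ 1 = 1 ∧
    (∀ h ∈ H, ∀ g, φ (h * g) = φ h * φ g) ∧ (∀ x y g, NQ Q0 x y g → φ g = 1) ∧
    ∀ L, φ (cls L) = 1 → (∃ e ∈ L, Q0 e.a e.r e.b) → Pinch Q0 H L :=
  britton ⟨fun _ _ _ _ _ => Iff.rfl, fun a r b s c => by simp [Q0, P.lhs_ne, P.rhs_ne]⟩
    (fun a r b s c _ => by simp [Q0, P.lhs_ne]) H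

theorem eq_one_of_pow_prime {p : ℕ} (hp' : p.Prime) (N : ℕ) : ∀ (y : Wd P) (L : List (SE P)),
    Walk y L y → L.length ≤ N → cls L ^ p = 1 → cls L = 1 := by
  induction N using Nat.strong_induction_on with
  | _ N ih =>
  have hs : ∀ (y : Wd P) (L : List (SE P)), Walk y L y → L.length ≤ N → cls L ^ p = 1 →
      Pinch Q0 ⊥ L → cls L = 1 := by
    rintro y _ hL hN h1 ⟨L1, _, r, σ, c1, D, a2, c2, L2, rfl, rfl, -, h, hh, g1, g2, m1, m2, m3⟩
    obtain ⟨rfl, rfl⟩ := hom_nil m1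
    rw [Subgroup.mem_bot.1 hh, one_mul, mul_right_inj] at m3
    obtain ⟨w1, w2, w3⟩ := pinch_walk hL
    obtain ⟨η, n1, rfl, n3⟩ := exists_short_ctx w2 m2 (by simpa [hp] using m3.symm)
    have e : cls (L1 ++ η.map (SE.ctx (inp r σ) []) ++ L2) =
        cls (L1 ++ ⟨[], r, σ, c1⟩ :: D ++ ⟨[], r, !σ, c2⟩ :: L2) := by
      have := pinch_cls (r := r) (σ := σ) m1 m2
      rw [m3] at this
      simp only [cls_append, cls_cons, cls_map_ctx, mul_assoc] at this ⊢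
      rw [← mul_assoc (cls D), ← mul_assoc (SE.cls _), this]
      simp [hp]
    simp only [List.length_append, List.length_cons] at hN
    rw [← e] at h1 ⊢
    exact ih (N - 1) (by omega) y _ ((w1.append (n1.ctxL _)).append w3) (by simp; omega) h1
  intro y
  induction y with
  | nil => exact fun L hL _ _ => triv_nil _ hL.hom
  | cons x y ihy =>
  intro L hL hN h1
  by_cases hc : ∀ e ∈ L, e.a ≠ []
  · obtain ⟨L', k1, rfl⟩ := walk_tail hL hc
    rw [cls_map_ctx] at h1 ⊢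
    rw [ihy L' k1 (by simpa using hN) (ctx_inj (k1.hom.pow p) _ _ (by rwa [map_pow])), map_one]
  push Not at hc
  obtain ⟨φ, f1, f2, -, f4⟩ := britton0 (Subgroup.zpowers (cls L))
  have f5 : ∀ n, φ (cls L ^ n) = φ (cls L) ^ n := fun n => by
    induction n with
    | zero => simpa using f1
    | succ n h => rw [pow_succ', f2 _ (Subgroup.mem_zpowers _), h, pow_succ']
  have f6 : φ (cls L) = 1 := (pow_eq_one_iff_left hp'.ne_zero).1 (by rw [← f5, h1, f1])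
  obtain ⟨L1, a1, r, σ, c1, D, a2, c2, L2, e, q1, q2, h, hh, g1, g2, m1, m2, m3⟩ := f4 L f6 hc
  by_cases h0 : h = 1
  · exact hs _ L hL hN h1 ⟨L1, a1, r, σ, c1, D, a2, c2, L2, e, q1, q2, h, h0, g1, g2, m1, m2, m3⟩
  by_contra hne
  have := Fact.mk hp'
  have o1 := orderOf_eq_prime h1 hne
  obtain ⟨j, rfl⟩ := (isOfFinOrder_iff_pow_eq_one.2 ⟨p, hp'.pos, h1⟩).mem_powers_iff_mem_zpowers.2 hh
  obtain ⟨m, hm⟩ := exists_pow_eq_self_of_coprime (x := cls L) (n := j) (by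
    rw [o1]
    exact ((Nat.Prime.coprime_iff_not_dvd hp').2 fun hd =>
      h0 (orderOf_dvd_iff_pow_eq_one.1 (o1 ▸ hd))).symm)
  obtain rfl : a1 = [] := q1
  obtain ⟨rfl, rfl⟩ := hom_nil m1
  obtain ⟨w1, w2, w3⟩ := pinch_walk (e ▸ hL)
  set κ := cls L1 * (⟨[], r, σ, c1⟩ : SE P).cls with hκ
  have n1 : NQ Q0 ([] ++ inp r (!σ) ++ c1) ([] ++ inp r (!σ) ++ c2) (hp r (!σ) c1 [] 1 g2) := by
    obtain ⟨M, hM, rfl⟩ := m2
    refine ⟨_, hM.ctxL _, fun f hf => ?_, by simp [hp]⟩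
    obtain ⟨f', -, rfl⟩ := List.mem_map.1 hf
    simp [Q0, SE.ctx, inp_ne]
  have n2 : κ⁻¹ * cls L ^ j * κ ∈ NG Q0 ([] ++ inp r (!σ) ++ c1) := by
    rw [mul_assoc, eq_mul_inv_of_mul_eq m3, mul_assoc κ, inv_mul_cancel_left]
    exact NQ.mul ⟨D, w2, q2, rfl⟩ n1.inv
  have n3 : cls (D ++ ⟨[], r, !σ, c2⟩ :: L2 ++ L1 ++ [⟨[], r, σ, c1⟩]) = κ⁻¹ * cls L * κ := by
    rw [e, hκ]
    simp [mul_assoc]
  have n4 : ∀ n, (κ⁻¹ * cls L * κ) ^ n = κ⁻¹ * cls L ^ n * κ := fun n => by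
    simpa using conj_pow (a := κ⁻¹) (b := cls L) (i := n)
  obtain ⟨ψ, -, -, s3, s4⟩ := britton0 (⊥ : Subgroup (UG P))
  have w4 : Walk ([] ++ inp r (!σ) ++ c2) (⟨[], r, !σ, c2⟩ :: L2) (x :: y) :=
    ⟨rfl, by simpa [SE.tgt] using w3⟩
  have n5 := hs _ _ (((w2.append w4).append w1).append (walk_single ⟨[], r, σ, c1⟩))
    (by rw [e] at hN; simp at hN ⊢; omega) (by rw [n3, n4, h1]; simp) (s4 _ (s3 _ _ _ (by
      have := pow_mem n2 m
      rwa [← n4, ← pow_mul, n4, pow_mul, hm, ← n3] at this)) ⟨⟨[], r, σ, c1⟩, by simp, rfl⟩)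
  rw [n3, mul_assoc, inv_mul_eq_one] at n5
  exact hne (by simpa using n5)

/-- diagram groups are torsion-free -/
theorem Hom.not_isOfFinOrder {y : Wd P} {g : UG P} (h : Hom y y g) (hne : g ≠ 1) :
    ¬ IsOfFinOrder g := fun hf => by
  obtain ⟨p, hp', m, hm⟩ := Nat.exists_prime_and_dvd (mt orderOf_eq_one_iff.1 hne)
  obtain ⟨L, hL, e⟩ := h.pow m
  have h1 := eq_one_of_pow_prime hp' _ y L hL le_rfl (by
    rw [e, ← pow_mul, mul_comm, ← hm, pow_orderOf_eq_one])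
  have h2 := hf.orderOf_pos
  have h3 := Nat.le_of_dvd (Nat.pos_of_mul_pos_left (hm ▸ h2))
    (orderOf_dvd_of_pow_eq_one (e ▸ h1))
  have := hp'.two_le
  nlinarith

theorem sqInv_QC : SqInv (QC (P := P)) :=
  ⟨fun _ _ _ _ _ => Iff.rfl, fun a r b _ _ =>
    ⟨fun h => h.of_J ⟨rfl, conn_rel a r b, Conn.refl _⟩,
      fun h => h.of_J ⟨rfl, (conn_rel a r b).symm, Conn.refl _⟩⟩⟩

/-- a subgroup of a chamber group that misses the vertex groups is free -/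
theorem free_of_chamber {z : Wd P} {H : Subgroup (UG P)} (hH : H ≤ NG QF z)
    (hf : ∀ k y, NQ QF z y k → ∀ h ∈ H, NQ QC y y (k⁻¹ * h * k) → h = 1) : IsFreeGroup H := by
  classical
  obtain ⟨φ, -, f2, -, f4⟩ := britton sqInv_QC (fun a r b s c h h' => h.2 h'.1.left) H
  have key : ∀ (n : ℕ) (L : List (SE P)), (L.countP fun e => QC e.a e.r e.b) = n → Walk z L z →
      (∀ e ∈ L, ¬ QF e.a e.r e.b) → φ (cls L) = 1 → NQ QC z z (cls L) := by
    intro n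
    induction n using Nat.strong_induction_on with
    | _ n ih =>
    intro L hn hL hq h1
    by_cases hc : ∃ e ∈ L, QC e.a e.r e.b
    swap
    · exact ⟨L, hL, by simpa using hc, rfl⟩
    obtain ⟨L1, a1, r, σ, c1, D, a2, c2, L2, rfl, q1, q2, h, hh, g1, g2, m1, m2, m3⟩ := f4 L h1 hc
    obtain ⟨w1, w2, w3⟩ := pinch_walk hL
    obtain rfl : h = 1 := hf _ _ (NQ.mul ⟨L1, w1, fun e he => hq e (by simp [he]), rfl⟩
      (NQ.edge ⟨a1, r, σ, c1⟩ (hq ⟨a1, r, σ, c1⟩ (by simp)))) h hh (by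
        rw [mul_assoc, eq_mul_inv_of_mul_eq m3, mul_assoc _ (cls D), inv_mul_cancel_left]
        exact NQ.mul ⟨D, w2, q2, rfl⟩ (nq_hyp q1 m1 m2 _).inv)
    rw [one_mul, mul_right_inj] at m3
    obtain ⟨M, n1, n2, n3⟩ := nq_hyp q1 m1 m2 σ
    have e : cls (L1 ++ M ++ L2) = cls (L1 ++ ⟨a1, r, σ, c1⟩ :: D ++ ⟨a2, r, !σ, c2⟩ :: L2) := by
      have := pinch_cls (r := r) (σ := σ) m1 m2
      rw [m3, hp, ← n3] at this
      simp only [cls_append, cls_cons, ← this, mul_assoc]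
    rw [← e] at h1 ⊢
    refine ih _ ?_ _ rfl ((w1.append n1).append w3) (fun f hf => ?_) h1
    · have : (M.countP fun e => QC e.a e.r e.b) = 0 := List.countP_eq_zero.2 (by simpa using n2)
      simp only [← hn, List.countP_append, List.countP_cons, this, q1, decide_true, if_true]
      omega
    · simp only [List.mem_append] at hf
      rcases hf with (hf | hf) | hf
      exacts [hq f (by simp [hf]), fun a => n2 f hf a.1, hq f (by simp [hf])]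
  let Ψ : H →* FreeGroup (Quotient (parS H)) :=
    MonoidHom.mk' (fun h => φ h) fun a b => f2 a a.2 b
  refine IsFreeGroup.ofMulEquiv (MonoidHom.ofInjective (f := Ψ)
    ((injective_iff_map_eq_one Ψ).2 ?_)).symm
  rintro ⟨h, hh⟩ h1
  obtain ⟨L, hL, hq, rfl⟩ := hH hh
  exact Subtype.ext (hf 1 z (NQ.one z) _ hh (by simpa using key _ L rfl hL hq h1))

end Pool.Agent.Lib.MP_e6550d_al
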