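import Pool.Agent.Lib.MP_e6550d_al.Defs

namespace Pool.Agent.Lib.MP_e6550d_al

universe w

/-- `H` has height at most `n`: conjugates of `H` by `n + 1` elements from distinct cosets
have finite intersection. -/
def HeightLE {G : Type w} [Group G] (H : Subgroup G) (n : ℕ) : Prop :=
  ∀ g : Fin (n + 1) → G, (∀ i j, (g i)⁻¹ * g j ∈ H → i = j) →
    {x : G | ∀ i, (g i)⁻¹ * x * g i ∈ H}.Finite

end Pool.Agent.Lib.MP_e6550d_al
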