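import Pool.Agent.Lib.MP_e6550d_al.KB
import Pool.Agent.Lib.MP_e6550d_al.KDefs

namespace Pool.Agent.Lib.MP_e6550d_al

universe u v

variable {P : SemigroupPresentation.{u, v}}

theorem exists_ne_one {q : Wd P} (h : ¬ Triv q) : ∃ b, Hom q q b ∧ b ≠ 1 := by
  simpa [Triv] using h

theorem nq_leftF {p p' q : Wd P} {g : UG P} (hq : ¬ Triv q) (hg : Hom p p' g) :
    NQ QF (p ++ q) (p' ++ q) (ctx [] q g) := by
  obtain ⟨L, hL, rfl⟩ := hg
  refine ⟨_, hL.ctxR q, fun e he h => ?_, by simp⟩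
  obtain ⟨f, -, rfl⟩ := List.mem_map.1 he
  exact hq h.2.right

theorem NQ.toF {x y : Wd P} {g : UG P} (h : NQ QC x y g) : NQ QF x y g := h.mono fun _ _ _ h => h.1

theorem commute_ctx {p q : Wd P} {l d : UG P} (hl : Hom p p l) (hd : Hom q q d) :
    Commute (ctx [] q l) (ctx p [] d) := inter hl hd

theorem prod_inj {p q : Wd P} {l d : UG P} (hl : Hom p p l) (hd : Hom q q d)
    (h : ctx [] q l * ctx p [] d = 1) : l = 1 ∧ d = 1 := by
  suffices e : l = 1 from ⟨e, ctx_inj hd p [] (by simpa [e] using h)⟩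
  obtain ⟨L, hL, rfl⟩ := hl
  obtain ⟨D, hD, rfl⟩ := hd
  have h1 := isAct_hact.action ((hD.ctxL p).append (hL.ctxR q)) (L' := []) rfl
    (by simpa [← (commute_ctx hL.hom hD.hom).eq] using h) (s := leaves false p ++ leaves true q)
    ⟨okS_append.2 ⟨okS_leaves _ _, okS_leaves _ _⟩, by simp⟩
  have h2 := run_ctx hD (hAt_leaves true q) (leaves false p) []
  have h3 := run_ctx hL (hAt_leaves false p) [] (leaves true q)
  simp only [lab_leaves, List.append_nil, List.nil_append, run_anon hD] at h2 h3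
  rw [run_append, show run hact (D.map (SE.ctx p [])) _ = _ from h2,
    show run hact (L.map (SE.ctx [] q)) _ = _ from h3, run_nil,
    List.append_cancel_right_eq] at h1
  obtain ⟨L', -, h4, h5⟩ := exists_short hL
  rw [h1, wtS_leaves] at h5
  rw [← h4, List.length_eq_zero_iff.1 h5, cls_nil]

theorem vertex_group {p q : Wd P} {x : P.Letter} (h1 : Triv p) (h2 : ¬ Triv (p ++ [x]))
    {g : UG P} (hg : NQ QC (p ++ x :: q) (p ++ x :: q) g) :
    ∃ d, Hom q q d ∧ g = ctx (p ++ [x]) [] d := by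
  have key : ∀ (L : List (SE P)) (z : Wd P), Walk (p ++ x :: q) L z →
      (∀ e ∈ L, ¬ QC e.a e.r e.b) → ∃ p' q' g1 g2, z = p' ++ x :: q' ∧ Hom p p' g1 ∧
        Hom q q' g2 ∧ cls L = ctx [] (x :: q) g1 * ctx (p' ++ [x]) [] g2 := by
    intro L
    induction L using List.reverseRecOn with
    | nil => intro z h _; exact ⟨p, q, 1, 1, h.symm, Hom.one _, Hom.one _, by simp⟩
    | append_singleton L e ih =>
      intro z h hq
      obtain ⟨z', k1, rfl, rfl⟩ := walk_append.1 h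
      obtain ⟨p', q', g1, g2, m1, m2, m3, m4⟩ := ih _ k1 (fun f hf => hq f (by simp [hf]))
      have t1 := h1.conn m2.conn
      have t2 : ¬ Triv (p' ++ [x]) := fun h' => h2 (h'.conn (m2.conn.symm.ctxR _))
      simp only [cls_append, cls_cons, cls_nil, mul_one, m4]
      rcases edge_cases m1 t1 t2 with ⟨f, rfl, rfl⟩ | ⟨f, rfl, rfl⟩ | ⟨c1, -⟩
      · exact ⟨p', f.tgt, g1, g2 * f.cls, by simp, m2, m3.mul (Hom.edge f),
          by rw [map_mul, ctx_secls, mul_assoc]⟩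
      · refine ⟨f.tgt, q', g1 * f.cls, g2, by simp, m2.mul (Hom.edge f), m3, ?_⟩
        have := inter ((Hom.edge f).ctxR [x]) m3
        simp only [ctx_ctx, List.append_nil, List.singleton_append] at this
        rw [map_mul, mul_assoc, mul_assoc, this, ctx_secls]
      · exact absurd c1 (hq e (by simp))
  obtain ⟨L, hL, hL', rfl⟩ := hg
  obtain ⟨p', q', g1, g2, m1, m2, m3, m4⟩ := key L _ hL hL'
  obtain ⟨rfl, rfl⟩ := dec_unique m1 h1 h2 (h1.conn m2.conn)
    (fun h' => h2 (h'.conn (m2.conn.symm.ctxR _)))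
  exact ⟨g2, m3, by simp [m4, h1 _ m2]⟩

/-- neighbouring vertex groups of a chamber meet -/
theorem common {e : SE P} (he : ¬ QF e.a e.r e.b) {p q p' q' : Wd P} {x x' : P.Letter}
    (m1 : e.src = p ++ x :: q) (h1 : Triv p) (h2 : ¬ Triv (p ++ [x])) (h3 : ¬ Triv q)
    (k2 : e.tgt = p' ++ x' :: q') (h1' : Triv p') (h2' : ¬ Triv (p' ++ [x'])) :
    ∃ d d', Hom q q d ∧ Hom q' q' d' ∧ d' ≠ 1 ∧
      ctx (p ++ [x]) [] d * e.cls = e.cls * ctx (p' ++ [x']) [] d' := by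
  rcases edge_cases m1 h1 h2 with ⟨f, rfl, rfl⟩ | ⟨f, rfl, rfl⟩ | ⟨c1, u, c2, c3⟩
  · obtain ⟨b, hb, hb'⟩ := exists_ne_one h3
    have k3 : p ++ x :: f.tgt = p' ++ x' :: q' := by simpa using k2
    obtain ⟨rfl, rfl⟩ := dec_unique k3 h1 h2 h1' h2'
    obtain rfl : x = x' := by simpa using k3
    refine ⟨b, _, hb, ((Hom.edge f).inv.mul hb).mul (Hom.edge f), fun h => hb' ?_, ?_⟩
    · rw [mul_assoc, inv_mul_eq_one] at h
      simpa using h
    · simp [← ctx_secls, mul_assoc]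
  · obtain ⟨b, hb, hb'⟩ := exists_ne_one h3
    have k3 : f.tgt ++ x :: q = p' ++ x' :: q' := by simpa using k2
    obtain ⟨rfl, rfl⟩ := dec_unique k3 (h1.conn (Conn.edge f))
      (fun h' => h2 (h'.conn ((Conn.edge f).symm.ctxR _))) h1' h2'
    obtain rfl : x = x' := by simpa using k3
    have h5 := inter ((Hom.edge f).ctxR [x]) hb
    simp only [ctx_ctx, List.append_nil, List.singleton_append] at h5
    exact ⟨b, b, hb, hb, hb', by rw [← ctx_secls, h5]⟩
  · obtain ⟨b, hb, hb'⟩ := exists_ne_one fun h' => he ⟨c1, h'⟩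
    rcases edge_cases (e := e.inv) (by simpa using k2) h1' h2' with
      ⟨f, f1, -⟩ | ⟨f, f1, f2⟩ | ⟨-, u', c2', c3'⟩
    · have : e.a = p' ++ [x'] ++ f.a := congrArg SE.a f1
      exact absurd (Triv.left (this ▸ c1.1)) h2'
    · have a1 : e.a = f.a := (congrArg SE.a f1 : e.inv.a = (f.ctx [] (x' :: q')).a)
      have a2 : e.r = f.r := (congrArg SE.r f1 : e.inv.r = (f.ctx [] (x' :: q')).r)
      refine absurd ?_ (c1.not_triv f.s)
      rw [a1, a2]
      exact Triv.left (r := f.b) (f2 ▸ h1' : Triv f.src)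
    · simp only [SE.inv] at c2' c3'
      refine ⟨_, _, c2 ▸ hb.ctxL u, c2' ▸ hb.ctxL u', fun h => hb' (ctx_inj hb _ _ h), ?_⟩
      have h7 := inter (Hom.edge ⟨e.a, e.r, e.s, []⟩) hb
      simp only [ctx_secls, SE.ctx, SE.src, SE.tgt, List.nil_append, List.append_nil] at h7
      rw [ctx_ctx, ctx_ctx, ← c3, ← c3']
      exact h7.symm

/-- some power lies in `H` -/
def Pw {G : Type*} [Group G] (H : Subgroup G) (g : G) : Prop := ∃ m, 0 < m ∧ g ^ m ∈ H

/-- centralisers of elements of `H` are almost inside `H` -/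
def CP (H : Subgroup (UG P)) (z : Wd P) : Prop := ∀ c g, NQ QF z z c → NQ QF z z g → c ≠ 1 →
  Commute g c → Pw H c → Pw H g

/-- the vertex group at `k` is almost inside `H` -/
def Good (H : Subgroup (UG P)) (k : UG P) (y : Wd P) : Prop :=
  ∀ p x q, y = p ++ x :: q → Triv p → ¬ Triv (p ++ [x]) → ∀ d, Hom q q d →
    Pw H (k * ctx (p ++ [x]) [] d * k⁻¹)

section

variable {H : Subgroup (UG P)} {z : Wd P}

theorem CP.loc (h : CP H z) {p q : Wd P} {k d0 : UG P} (hk : NQ QF z (p ++ q) k) (hp' : ¬ Triv p)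
    (h0 : Hom q q d0) (h1 : d0 ≠ 1) (h2 : Pw H (k * ctx p [] d0 * k⁻¹)) {d : UG P}
    (hd : Hom q q d) : Pw H (k * ctx p [] d * k⁻¹) := by
  obtain ⟨l, l1, l2⟩ := exists_ne_one hp'
  have n1 := (hk.mul (nq_leftF (fun t => h1 (t _ h0)) l1)).mul hk.inv
  have n2 : ∀ {d}, Hom q q d → NQ QF z z (k * ctx p [] d * k⁻¹) := fun hd =>
    (hk.mul (nq_right hp' hd).toF).mul hk.inv
  have n3 : ∀ {d}, Hom q q d → Commute (k * ctx [] q l * k⁻¹) (k * ctx p [] d * k⁻¹) := fun hd => by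
    simpa using (commute_ctx l1 hd).map (MulAut.conj k)
  exact h _ _ n1 (n2 hd) (fun e => l2 (ctx_inj l1 _ _ (conj_eq_one_iff.1 e))) (n3 hd).symm
    (h _ _ (n2 h0) n1 (fun e => h1 (ctx_inj h0 _ _ (conj_eq_one_iff.1 e))) (n3 h0) h2)

theorem thick {g0 : UG P} (hg0 : NQ QF z z g0) (hne : g0 ≠ 1) {p q : Wd P} {x : P.Letter}
    {k : UG P} (hk : NQ QF z (p ++ x :: q) k) (h1 : Triv p) (h2 : ¬ Triv (p ++ [x])) :
    ¬ Triv q := fun h3 => by
  have h4 := thin_chamber h1 h2 h3 ((hk.inv.mul hg0).mul hk)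
  rw [mul_assoc, inv_mul_eq_one] at h4
  exact hne (by simpa using h4)

theorem CP.good_of (h : CP H z) {p q : Wd P} {x : P.Letter} {k d0 : UG P}
    (hk : NQ QF z (p ++ x :: q) k) (h1 : Triv p) (h2 : ¬ Triv (p ++ [x])) (h0 : Hom q q d0)
    (hne : d0 ≠ 1) (h3 : Pw H (k * ctx (p ++ [x]) [] d0 * k⁻¹)) : Good H k (p ++ x :: q) := by
  intro p' x' q' e t1 t2 d hd
  obtain ⟨rfl, rfl⟩ := dec_unique e h1 h2 t1 t2
  obtain rfl : x = x' := by simpa using e
  exact h.loc (by simpa using hk) h2 h0 hne h3 hd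

theorem CP.spread (h : CP H z) {g0 : UG P} (hg0 : NQ QF z z g0) (hne : g0 ≠ 1) {k k' : UG P}
    {y y' : Wd P} (hk : NQ QF z y k) (hk' : NQ QF z y' k') (hG : Good H k y) : Good H k' y' := by
  have hz : ∀ {y k}, NQ QF z y k → ¬ Triv y := fun hk t =>
    hne ((t.conn hk.hom.conn.symm) _ hg0.hom)
  obtain ⟨L, hL, hq, e⟩ := hk.inv.mul hk'
  obtain rfl : k' = k * cls L := by simp [e]
  clear e hk'
  induction L generalizing k y with
  | nil => exact hL ▸ by simpa using hG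
  | cons e L ih =>
    obtain ⟨rfl, hL⟩ := hL
    have he := hq e (by simp)
    have hk1 := hk.mul (NQ.edge e he)
    rw [cls_cons, ← mul_assoc]
    refine ih hk1 ?_ hL fun f hf => hq f (by simp [hf])
    obtain ⟨p, x, q, m1, t1, t2⟩ := exists_dec (hz hk)
    obtain ⟨p', x', q', m2, t1', t2'⟩ := exists_dec (hz hk1)
    obtain ⟨d, d', a1, a2, a3, a4⟩ := common he m1 t1 t2 (thick hg0 hne (m1 ▸ hk) t1 t2) m2 t1' t2'
    rw [m2] at hk1 ⊢
    refine h.good_of hk1 t1' t2' a2 a3 ?_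
    rw [mul_assoc k, ← a4]
    simpa [mul_assoc] using hG p x q m1 t1 t2 d a1

/-- either `H` is free or every vertex group of the chamber is almost inside `H` -/
theorem CP.good (h : CP H z) (hH : H ≤ NG QF z) (hf : ¬ IsFreeGroup H) {k : UG P}
    (hk : NQ QF z z k) : Good H k z := by
  by_contra hc
  refine hf (free_of_chamber hH fun k' y hk' g hg h1 => by_contra fun hne => hc ?_)
  obtain ⟨p, x, q, rfl, t1, t2⟩ := exists_dec (z := y) fun t =>
    hne ((t.conn hk'.hom.conn.symm) _ (NQ.hom (hH hg)))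
  obtain ⟨d, d1, d2⟩ := vertex_group t1 t2 h1
  have e : k' * ctx (p ++ [x]) [] d * k'⁻¹ = g := by simp [← d2, mul_assoc]
  exact h.spread (hH hg) hne hk' hk (h.good_of hk' t1 t2 d1 (fun e' => hne (by simpa [e'] using e.symm))
    ⟨1, one_pos, by rwa [e, pow_one]⟩)

end

theorem HeightLE.exists_ne {G : Type*} [Group G] {H : Subgroup G} {n : ℕ} (h : HeightLE H n)
    {b : G} (hb : ¬ IsOfFinOrder b) (g : Fin (n + 1) → G) (hg : ∀ i, Pw H ((g i)⁻¹ * b * g i)) :
    ∃ i j, i ≠ j ∧ (g i)⁻¹ * g j ∈ H := by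
  by_contra hc
  choose m m1 m2 using hg
  have h1 : ¬ IsOfFinOrder (b ^ ∏ i, m i) := fun h1 =>
    hb ((isOfFinOrder_pow.1 h1).resolve_right (Finset.prod_pos fun i _ => m1 i).ne')
  refine infinite_powers.2 h1 ((h g fun i j hij => by_contra fun e => hc ⟨i, j, e, hij⟩).subset ?_)
  rintro _ ⟨k, rfl⟩ i
  obtain ⟨t, ht⟩ := Finset.dvd_prod_of_mem m (Finset.mem_univ i)
  have h2 := pow_mem (m2 i) (t * k)
  have h3 := conj_pow (a := (g i)⁻¹) (b := b) (i := m i * (t * k))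
  rw [inv_inv] at h3
  rwa [← pow_mul, h3, ← mul_assoc (m i), ← ht, pow_mul] at h2

theorem HeightLE.pw {G : Type*} [Group G] {H : Subgroup G} {n : ℕ} (h : HeightLE H n) {c g : G}
    (hc : ¬ IsOfFinOrder c) (h1 : Commute g c) (h2 : Pw H c) : Pw H g := by
  obtain ⟨i, j, e, h3⟩ := h.exists_ne hc (fun i => g ^ (i : ℕ)) fun i => by
    rwa [mul_assoc, ← (h1.pow_left i).eq, inv_mul_cancel_left]
  have k : ∀ i j : ℕ, i < j → (g ^ i)⁻¹ * g ^ j ∈ H → Pw H g := fun i j hij h4 => by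
    obtain ⟨t, rfl⟩ := Nat.exists_eq_add_of_lt hij
    exact ⟨t + 1, t.succ_pos, by rwa [add_assoc, pow_add, inv_mul_cancel_left] at h4⟩
  rcases lt_or_gt_of_ne e with e | e
  · exact k i j e h3
  · exact k j i e (by simpa using inv_mem h3)

section

variable {A : Type*} [Group A] {η : A →* UG P} {z : Wd P}

theorem chamber_free (h1 : Function.Injective η) (h2 : η.range = NG QF z) {H : Subgroup A} {n : ℕ}
    (hH : HeightLE H n) (h0 : H.index = 0) : IsFreeGroup H := by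
  by_contra hf
  have hf' : ¬ IsFreeGroup (H.map η) := fun _ =>
    hf (IsFreeGroup.ofMulEquiv (H.equivMapOfInjective η h1).symm)
  have a1 : ∀ {g}, NQ QF z z g → ∃ a, η a = g := fun hg => (h2.ge hg : _ ∈ η.range)
  have a2 : ∀ a, NQ QF z z (η a) := fun a => h2.le ⟨a, rfl⟩
  have a3 : ∀ a, Pw (H.map η) (η a) ↔ Pw H a := fun a => exists_congr fun m => by
    rw [← map_pow, Subgroup.mem_map_iff_mem h1]
  have a4 : ∀ a, η a ≠ 1 → ¬ IsOfFinOrder a := fun a ha hf =>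
    (a2 a).hom.not_isOfFinOrder ha (η.isOfFinOrder hf)
  have hCP : CP (H.map η) z := fun c g hc hg c1 c2 c3 => by
    obtain ⟨c, rfl⟩ := a1 hc
    obtain ⟨g, rfl⟩ := a1 hg
    exact (a3 g).2 (hH.pw (a4 c c1) (h1 (by simpa using c2.eq)) ((a3 c).1 c3))
  have hle : H.map η ≤ NG QF z := (Subgroup.map_le_range _ _).trans h2.le
  have : Infinite (A ⧸ H) := Subgroup.index_eq_zero_iff_infinite.1 h0
  have : Infinite A := .of_surjective _ (QuotientGroup.mk_surjective (s := H))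
  obtain ⟨g0, hg0⟩ := exists_ne (1 : A)
  have hne : η g0 ≠ 1 := fun e => hg0 (h1 (by simpa using e))
  obtain ⟨p, x, q, e, t1, t2⟩ := exists_dec (z := z) fun t => hne (t _ (a2 g0).hom)
  obtain ⟨d, d1, d2⟩ := exists_ne_one
    (thick (q := q) (a2 g0) hne (k := 1) (by rw [← e]; exact NQ.one z) t1 t2)
  obtain ⟨b, hb⟩ := a1 (g := ctx (p ++ [x]) [] d) (by simpa [e] using (nq_right t2 d1).toF)
  let f := (Infinite.natEmbedding (A ⧸ H)).toFun ∘ Fin.val (n := n + 1)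
  obtain ⟨i, j, hij, h3⟩ := hH.exists_ne (a4 b fun e => d2 (ctx_inj d1 _ _ (hb ▸ e)))
    (fun i => (f i).out) fun i => (a3 _).1 (by
      simpa [hb] using hCP.good hle hf' (a2 (f i).out⁻¹) p x q e t1 t2 d d1)
  have h4 := QuotientGroup.eq.2 h3
  rw [QuotientGroup.out_eq', QuotientGroup.out_eq'] at h4
  exact hij (Fin.ext ((Infinite.natEmbedding (A ⧸ H)).injective h4))

theorem chamber_zz (h1 : Function.Injective η) (h2 : η.range = NG QF z) (h0 : NG QF z ≠ ⊥) :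
    ∃ f : Multiplicative (ℤ × ℤ) →* A, Function.Injective f := by
  obtain ⟨⟨g0, hg0⟩, hne⟩ := Subgroup.ne_bot_iff_exists_ne_one.1 h0
  have hne' : g0 ≠ 1 := fun e => hne (Subtype.ext e)
  obtain ⟨p, x, q, e, t1, t2⟩ := exists_dec (z := z) fun t => hne' (t _ (NQ.hom hg0))
  have t3 := thick (q := q) hg0 hne' (k := 1) (by rw [← e]; exact NQ.one z) t1 t2
  obtain ⟨l, l1, l2⟩ := exists_ne_one t2
  obtain ⟨d, d1, d2⟩ := exists_ne_one t3
  have e' : z = p ++ [x] ++ q := by simp [e]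
  obtain ⟨a, ha⟩ : ctx [] q l ∈ η.range := h2.ge (e' ▸ nq_leftF t3 l1)
  obtain ⟨b, hb⟩ : ctx (p ++ [x]) [] d ∈ η.range := h2.ge (e' ▸ (nq_right t2 d1).toF)
  have hab : Commute a b := h1 (by simpa [ha, hb] using (commute_ctx l1 d1).eq)
  refine ⟨MonoidHom.mk' (fun s => a ^ s.toAdd.1 * b ^ s.toAdd.2) fun s t => ?_,
    (injective_iff_map_eq_one _).2 fun s hs => ?_⟩
  · simp only [toAdd_mul, Prod.fst_add, Prod.snd_add, zpow_add]
    exact (hab.symm.zpow_zpow _ _).symm.mul_mul_mul_comm _ _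
  · have h3 := congrArg η hs
    simp only [MonoidHom.mk'_apply, map_mul, map_zpow, ha, hb, map_one] at h3
    rw [← map_zpow, ← map_zpow] at h3
    obtain ⟨h4, h5⟩ := prod_inj (zpow_mem (mem_DG.2 l1) _) (zpow_mem (mem_DG.2 d1) _) h3
    have k : ∀ {y : Wd P} {g : UG P} {i : ℤ}, Hom y y g → g ≠ 1 → g ^ i = 1 → i = 0 :=
      fun h h' e => by_contra fun hi =>
        h.not_isOfFinOrder h' (isOfFinOrder_iff_zpow_eq_one.2 ⟨_, hi, e⟩)
    exact Multiplicative.toAdd.injective (Prod.ext (k l1 l2 h4) (k d1 d2 h5))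

end

end Pool.Agent.Lib.MP_e6550d_al
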