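import Pool.Agent.Lib.MP_e6550d_al.KC

namespace Pool.Agent.Lib.MP_e6550d_al

universe u v

variable {P : SemigroupPresentation.{u, v}}

/-- representative of the component -/
noncomputable def rp (x : Wd P) : Wd P :=
  (Quotient.mk (⟨Conn, Conn.refl, Conn.symm, Conn.trans⟩ : Setoid (Wd P)) x).out

theorem rp_conn (x : Wd P) : Conn (rp x) x :=
  Quotient.mk_out (s := (⟨Conn, Conn.refl, Conn.symm, Conn.trans⟩ : Setoid (Wd P))) x

theorem rp_eq {x y : Wd P} (h : Conn x y) : rp x = rp y := congrArg Quotient.out (Quotient.sound h)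

/-- words in the same chamber -/
def chS (P : SemigroupPresentation.{u, v}) : Setoid (Wd P) :=
  ⟨fun x y => ∃ g, NQ QF x y g, fun x => ⟨1, NQ.one x⟩, fun ⟨_, h⟩ => ⟨_, h.inv⟩,
    fun ⟨_, h⟩ ⟨_, h'⟩ => ⟨_, h.mul h'⟩⟩

theorem QF.rp {a c : Wd P} {r : P.Rel} (h : QF a r c) : QF (rp a) r (rp c) :=
  h.of_J ⟨rfl, (rp_conn a).symm, (rp_conn c).symm⟩

theorem sqInv_QF : SqInv (QF (P := P)) :=
  ⟨fun a _ b s c => ⟨fun h => h.of_J ⟨rfl, Conn.refl a, conn_rel b s c⟩,
    fun h => h.of_J ⟨rfl, Conn.refl a, (conn_rel b s c).symm⟩⟩, fun a r b _ _ =>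
    ⟨fun h => h.of_J ⟨rfl, conn_rel a r b, Conn.refl _⟩,
      fun h => h.of_J ⟨rfl, (conn_rel a r b).symm, Conn.refl _⟩⟩⟩

open Classical in
/-- collapsing the chambers -/
noncomputable def col : UG P →* FreeGroup (Wd P × P.Rel × Wd P) :=
  mkHom (fun a r c => if QF a r c then FreeGroup.of (rp a, r, rp c) else 1) fun a r b s c => by
    rw [sqInv_QF.1 a r b s c, ← sqInv_QF.2 a r b s c, rp_eq (conn_rel b s c),
      rp_eq (conn_rel a r b)]
    by_cases h : QF a r (b ++ P.rhs s ++ c)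
    · rw [if_neg fun h' : QF (a ++ P.lhs r ++ b) s c => h.1.2 h'.1.1.left, mul_one, one_mul]
    · rw [if_neg h, mul_one, one_mul]

theorem hom_nq {K : Type*} [Group K] {Q : Wd P → P.Rel → Wd P → Prop} (Φ : UG P →* K)
    (ν : Wd P → Wd P → UG P → K) (h1 : ∀ x y z g h, NQ Q x y g → NQ Q y z h →
      ν x z (g * h) = ν x y g * ν y z h) (h2 : ∀ a r c, ¬ Q a r c →
      Φ (gen a r c) = ν (a ++ P.lhs r ++ c) (a ++ P.rhs r ++ c) (gen a r c))
    {x y : Wd P} {g : UG P} (h : NQ Q x y g) : Φ g = ν x y g := by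
  have h0 : ∀ x, ν x x 1 = 1 := fun x => by simpa using h1 x x x 1 1 (NQ.one x) (NQ.one x)
  obtain ⟨L, hL, hq, rfl⟩ := h
  induction L generalizing x with
  | nil => simp [show x = y from hL, h0]
  | cons e L ih =>
    obtain ⟨rfl, hL⟩ := hL
    have a1 := hq e List.mem_cons_self
    have a2 : ∀ f ∈ L, ¬ Q f.a f.r f.b := fun f hf => hq f (List.mem_cons_of_mem _ hf)
    rw [cls_cons, map_mul, ih hL a2, h1 _ _ _ _ _ (NQ.edge e a1) ⟨L, hL, a2, rfl⟩]
    congr 1
    obtain ⟨a, r, _ | _, b⟩ := e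
    · have a3 := h1 _ _ _ _ _ (NQ.edge ⟨a, r, true, b⟩ a1) (NQ.edge ⟨a, r, false, b⟩ a1)
      simp only [SE.cls_true, SE.cls_false, mul_inv_cancel] at a3
      rw [SE.cls_false, map_inv, h2 a r b a1]
      exact (eq_inv_of_mul_eq_one_right (a3.symm.trans (h0 _))).symm
    · exact h2 a r b a1

theorem col_nq {x y : Wd P} {g : UG P} (h : NQ QF x y g) : col g = 1 :=
  hom_nq col (fun _ _ _ => 1) (fun _ _ _ _ _ _ _ => (mul_one _).symm)
    (fun a r c h => by simp [col, h]) h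

/-- induction over the morphisms from a word in the component of `w` -/
theorem hom_ind {w : Wd P} {C : Wd P → Wd P → UG P → Prop} (h0 : ∀ x, Conn w x → C x x 1)
    (h1 : ∀ x y z g h, C x y g → C y z h → C x z (g * h)) (h2 : ∀ x y g, C x y g → C y x g⁻¹)
    (h3 : ∀ a r c, Conn w (a ++ P.lhs r ++ c) →
      C (a ++ P.lhs r ++ c) (a ++ P.rhs r ++ c) (gen a r c))
    {x y : Wd P} {g : UG P} (hx : Conn w x) (h : Hom x y g) : C x y g := by
  obtain ⟨L, hL, rfl⟩ := h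
  induction L generalizing x with
  | nil => exact (show x = y from hL) ▸ h0 x hx
  | cons e L ih =>
    obtain ⟨rfl, hL⟩ := hL
    have a1 := hx.trans (Conn.edge e)
    refine h1 _ _ _ _ _ ?_ (ih a1 hL)
    obtain ⟨a, r, _ | _, b⟩ := e
    exacts [h2 _ _ _ (h3 a r b a1), h3 a r b hx]

section

variable (w : Wd P)

open Classical in
/-- base point of the chamber -/
noncomputable def ch (x : Wd P) : Wd P :=
  if ∃ g, NQ QF w x g then w else (Quotient.mk (chS P) x).out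

theorem ch_nq (x : Wd P) : ∃ g, NQ QF (ch w x) x g := by
  unfold ch
  split_ifs with h
  exacts [h, Quotient.mk_out (s := chS P) x]

theorem ch_eq {x y : Wd P} {g : UG P} (h : NQ QF x y g) : ch w x = ch w y := by
  have : (∃ g, NQ QF w x g) ↔ ∃ g, NQ QF w y g :=
    ⟨fun ⟨_, k⟩ => ⟨_, k.mul h⟩, fun ⟨_, k⟩ => ⟨_, k.mul h.inv⟩⟩
  rw [ch, ch, this, Quotient.sound (s := chS P) ⟨g, h⟩]

theorem ch_self : ch w w = w := if_pos ⟨1, NQ.one w⟩

theorem ch_ch (x : Wd P) : ch w (ch w x) = ch w x := ch_eq w (ch_nq w x).choose_spec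

open Classical in
/-- a path from the base point of the chamber -/
noncomputable def ta (x : Wd P) : UG P := if ch w x = x then 1 else (ch_nq w x).choose

theorem ta_nq (x : Wd P) : NQ QF (ch w x) x (ta w x) := by
  unfold ta
  split_ifs with h
  exacts [h.symm ▸ NQ.one x, (ch_nq w x).choose_spec]

theorem ta_eq {x : Wd P} (h : ch w x = x) : ta w x = 1 := if_pos h

/-- crossing a free hyperplane between base points -/
noncomputable def eps (a : Wd P) (r : P.Rel) (c : Wd P) : UG P :=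
  ta w (a ++ P.lhs r ++ c) * gen a r c * (ta w (a ++ P.rhs r ++ c))⁻¹

/-- retraction to the free part -/
noncomputable def rho : UG P →* UG P :=
  (FreeGroup.lift fun t => eps w t.1 t.2.1 t.2.2).comp col

theorem rho_nq {x y : Wd P} {g : UG P} (h : NQ QF x y g) : rho w g = 1 := by
  simp [rho, col_nq h]

theorem rho_gen {a c : Wd P} {r : P.Rel} (h : QF a r c) :
    rho w (gen a r c) = eps w (rp a) r (rp c) := by simp [rho, col, h]

theorem rho_rho (g : UG P) : rho w (rho w g) = rho w g := by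
  refine DFunLike.congr_fun (?_ : (rho w).comp (rho w) = rho w) g
  apply PresentedGroup.ext
  rintro ⟨a, r, c⟩
  change rho w (rho w (gen a r c)) = rho w (gen a r c)
  by_cases h : QF a r c
  · rw [rho_gen w h, eps, map_mul, map_mul, map_inv, rho_nq w (ta_nq w _), rho_nq w (ta_nq w _),
      rho_gen w h.rp, rp_eq (rp_conn a), rp_eq (rp_conn c), one_mul, inv_one, mul_one, eps]
  · rw [show rho w (gen a r c) = 1 from rho_nq w (NQ.edge ⟨a, r, true, c⟩ h), map_one]

theorem QF.hyp {a c : Wd P} {r : P.Rel} (h : QF a r c) (σ : Bool) :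
    NQ QF (MP_e6550d_al.rp a ++ inp r σ ++ MP_e6550d_al.rp c) (a ++ inp r σ ++ c)
      (hyp (MP_e6550d_al.rp a) r (MP_e6550d_al.rp c) σ a c) :=
  (hyp_nq h.rp (rp_conn a) (rp_conn c) σ).toF

theorem eps_hom (a : Wd P) (r : P.Rel) (c : Wd P) :
    Hom (ch w (a ++ P.lhs r ++ c)) (ch w (a ++ P.rhs r ++ c)) (eps w a r c) :=
  ((ta_nq w _).hom.mul (Hom.edge ⟨a, r, true, c⟩)).mul (ta_nq w _).hom.inv

theorem rho_hom {x y : Wd P} {g : UG P} (h : Hom x y g) : Hom (ch w x) (ch w y) (rho w g) := by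
  refine hom_ind (w := x) (C := fun x y g => Hom (ch w x) (ch w y) (rho w g))
    (fun x _ => by simpa using Hom.one _) (fun _ _ _ _ _ a b => by simpa using a.mul b)
    (fun _ _ _ a => by simpa using a.inv) (fun a r c _ => ?_) (Conn.refl x) h
  by_cases h : QF a r c
  · rw [rho_gen w h, ← show _ = ch w (a ++ P.lhs r ++ c) from ch_eq w (h.hyp true),
      ← show _ = ch w (a ++ P.rhs r ++ c) from ch_eq w (h.hyp false)]
    exact eps_hom w _ _ _
  · have := NQ.edge ⟨a, r, true, c⟩ h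
    rw [show rho w (gen a r c) = 1 from rho_nq w this,
      ← show ch w (a ++ P.lhs r ++ c) = ch w (a ++ P.rhs r ++ c) from ch_eq w this]
    exact Hom.one _

open Classical in
/-- a path from `w` to the base point of the chamber of `x` -/
noncomputable def kk (x : Wd P) : UG P := if ch w x = w then 1 else rho w (pick w (ch w x))

theorem kk_eq {x y : Wd P} {g : UG P} (h : NQ QF x y g) : kk w x = kk w y := by
  rw [kk, kk, ch_eq w h]

theorem kk_self : kk w w = 1 := if_pos (ch_self w)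

theorem rho_kk (x : Wd P) : rho w (kk w x) = kk w x := by
  unfold kk
  split_ifs
  exacts [map_one _, rho_rho w _]

theorem kk_hom {x : Wd P} (h : Conn w x) : Hom w (ch w x) (kk w x) := by
  unfold kk
  split_ifs with e
  · exact e.symm ▸ Hom.one w
  · simpa only [ch_self, ch_ch] using rho_hom w (pick_hom (h.trans (ta_nq w x).hom.conn.symm))

end

theorem decomposition {G : Type*} [Group G] {w : Wd P} (θ : G →* UG P)
    (h1 : Function.Injective θ) (h2 : θ.range = DG w) :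
    ∃ (J : Type u) (z : J → Wd P) (k : J → UG P) (A : J → Subgroup G) (F : Subgroup G),
      IsFreeGroup F ∧ Function.Bijective
        (Monoid.Coprod.lift (Monoid.CoprodI.lift fun j => (A j).subtype) F.subtype) ∧
      ∀ j, Hom w (z j) (k j) ∧ NG QF (z j) ≠ ⊥ ∧
        ∀ g, g ∈ A j ↔ NQ QF (z j) (z j) ((k j)⁻¹ * θ g * k j) := by
  classical
  let J := {z : Wd P // Conn w z ∧ ch w z = z ∧ NG QF z ≠ ⊥}
  let A : J → Subgroup G := fun j =>
    (NG QF j.1).comap ((MulAut.conj (kk w j.1)⁻¹).toMonoidHom.comp θ)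
  have hA : ∀ (j : J) g, g ∈ A j ↔ NQ QF j.1 j.1 ((kk w j.1)⁻¹ * θ g * kk w j.1) := fun j g => by
    simp [A, NG]
  let F : Subgroup G := ((rho w).comp θ).eqLocus θ
  have t1 : ∀ g, Hom w w (θ g) := fun g => h2.le ⟨g, rfl⟩
  have t2 : ∀ {g}, Hom w w g → ∃ a, θ a = g := fun hg => (h2.ge hg : _ ∈ θ.range)
  have t3 : ∀ {z}, Conn w z → ch w z = z → Hom w z (kk w z) := fun a b => by
    simpa only [b] using kk_hom w a
  refine ⟨J, Subtype.val, fun j => kk w j.1, A, F, IsFreeGroup.ofMulEquiv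
    (MonoidHom.ofInjective (f := col.comp (θ.comp F.subtype))
      ((injective_iff_map_eq_one _).2 fun f hf => Subtype.ext (h1 ?_))).symm, ?_,
    fun j => ⟨t3 j.2.1 j.2.2.1, j.2.2.2, hA j⟩⟩
  · have e : rho w (θ f) = θ f := f.2
    rw [← e, rho, MonoidHom.comp_apply, show col (θ f) = 1 from hf]
    simp
  set ev := Monoid.Coprod.lift (Monoid.CoprodI.lift fun j => (A j).subtype) F.subtype with hev
  have hι : ∀ z g, ∃ x : Monoid.Coprod (Monoid.CoprodI fun j => A j) F, (∀ (h : Conn w z ∧ ch w z = z ∧ NG QF z ≠ ⊥), NQ QF z z g →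
      ∃ a : A ⟨z, h⟩, θ a = kk w z * g * (kk w z)⁻¹ ∧
        x = Monoid.Coprod.inl (N := F) (Monoid.CoprodI.of (M := fun j => A j) a)) ∧
      (¬ (Conn w z ∧ ch w z = z ∧ NG QF z ≠ ⊥) → x = 1) := fun z g => by
    by_cases h : (Conn w z ∧ ch w z = z ∧ NG QF z ≠ ⊥) ∧ NQ QF z z g
    · obtain ⟨a, ha⟩ := t2 (((t3 h.1.1 h.1.2.1).mul h.2.hom).mul (t3 h.1.1 h.1.2.1).inv)
      have ha' := (hA ⟨z, h.1⟩ a).2 (by simpa [ha, mul_assoc] using h.2)
      exact ⟨Monoid.Coprod.inl (Monoid.CoprodI.of (M := fun j => A j) (i := ⟨z, h.1⟩) ⟨a, ha'⟩),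
        fun _ _ => ⟨⟨a, ha'⟩, ha, rfl⟩, fun h' => absurd h.1 h'⟩
    · exact ⟨1, fun a b => absurd ⟨a, b⟩ h, fun _ => rfl⟩
  choose ι i1 i2 using hι
  have i3 : ∀ z g g', NQ QF z z g → NQ QF z z g' → ι z (g * g') = ι z g * ι z g' := by
    intro z g g' hg hg'
    by_cases h : Conn w z ∧ ch w z = z ∧ NG QF z ≠ ⊥
    · obtain ⟨a, a1, a2⟩ := i1 z g h hg
      obtain ⟨b, b1, b2⟩ := i1 z g' h hg'
      obtain ⟨c, c1, c2⟩ := i1 z _ h (hg.mul hg')
      obtain rfl : c = a * b := Subtype.ext (h1 (by simp [a1, b1, c1, mul_assoc]))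
      rw [a2, b2, c2, map_mul, map_mul]
    · simp [i2 z _ h]
  have i4 : ∀ z g, Conn w z → ch w z = z → NQ QF z z g →
      θ (ev (ι z g)) = kk w z * g * (kk w z)⁻¹ := fun z g a b c => by
    by_cases h : NG QF z = ⊥
    · obtain rfl : g = 1 := Subgroup.mem_bot.1 (h ▸ c)
      simp [i2 z _ fun h' => h'.2.2 h]
    · obtain ⟨a, a1, a2⟩ := i1 z g ⟨a, b, h⟩ c
      simp [a2, hev, a1]
  have hψ : ∀ g, ∃ x, Hom w w g → rho w g = g → ∃ f : F, θ f = g ∧
      x = Monoid.Coprod.inr (M := Monoid.CoprodI fun j => A j) f := fun g => by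
    by_cases h : Hom w w g ∧ rho w g = g
    · obtain ⟨a, rfl⟩ := t2 h.1
      exact ⟨_, fun _ _ => ⟨⟨a, h.2⟩, rfl, rfl⟩⟩
    · exact ⟨1, fun a b => absurd ⟨a, b⟩ h⟩
  choose ψ p1 using hψ
  have p2 : ∀ f : F, ψ (θ f) = Monoid.Coprod.inr f := fun f => by
    obtain ⟨f', a, b⟩ := p1 _ (t1 f) f.2
    rw [b, Subtype.ext (h1 a)]
  let ν : Wd P → Wd P → UG P → _ := fun x y g => ι (ch w x) (ta w x * g * (ta w y)⁻¹)
  have n0 : ∀ {x y g}, NQ QF x y g → NQ QF (ch w x) (ch w x) (ta w x * g * (ta w y)⁻¹) :=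
    fun {x y g} h => ((ta_nq w x).mul h).mul (ch_eq w h ▸ (ta_nq w y).inv)
  have n1 : ∀ x y z g h, NQ QF x y g → NQ QF y z h → ν x z (g * h) = ν x y g * ν y z h := by
    intro x y z g h hg hh
    simp only [ν]
    rw [← ch_eq w hg, ← i3 _ _ _ (n0 hg) (ch_eq w hg ▸ n0 hh)]
    simp only [mul_assoc, inv_mul_cancel_left]
  have n4 : ∀ {x y z g h}, NQ QF x y g → NQ QF y z h →
      ν y x g⁻¹ = ν y z h * ν z x (g * h)⁻¹ := fun hg hh => by
    rw [← n1 _ _ _ _ _ hh (hg.mul hh).inv, mul_inv_rev, mul_inv_cancel_left]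
  let T : Wd P → P.Rel → Wd P → _ := fun a r c =>
    ψ (kk w (a ++ P.lhs r ++ c) * eps w a r c * (kk w (a ++ P.rhs r ++ c))⁻¹)
  let Φ := mkHom (fun a r c => if QF a r c then
    ν (a ++ P.lhs r ++ c) (rp a ++ P.lhs r ++ rp c) (hyp (rp a) r (rp c) true a c)⁻¹ *
      T (rp a) r (rp c) *
      ν (rp a ++ P.rhs r ++ rp c) (a ++ P.rhs r ++ c) (hyp (rp a) r (rp c) false a c)
    else ν (a ++ P.lhs r ++ c) (a ++ P.rhs r ++ c) (gen a r c)) fun a r b s c => by
    have nqe : ∀ a r b, ¬ QF a r b → NQ QF (a ++ P.lhs r ++ b) (a ++ P.rhs r ++ b) (gen a r b) :=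
      fun a r b h => NQ.edge ⟨a, r, true, b⟩ h
    have j1 := sqInv_QF.1 a r b s c
    have j2 := sqInv_QF.2 a r b s c
    by_cases q1 : QF a r (b ++ P.lhs s ++ c)
    · have q2 : ¬ QF (a ++ P.lhs r ++ b) s c := fun h => q1.1.2 h.1.1.left
      have e := rp_eq (conn_rel b s c)
      have m1 := n4 (q1.hyp true) (by simpa [inp] using nqe _ _ _ q2)
      have m2 := n1 _ _ _ _ _ (q1.hyp false) (by simpa [inp] using nqe _ _ _ (mt j2.2 q2))
      rw [if_pos q1, if_pos (j1.1 q1), if_neg q2, if_neg (mt j2.2 q2), ← e,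
        hyp_right q1.rp true _ _ _ _ (rp_conn _), hyp_right q1.rp false _ _ _ _ (rp_conn _)]
      simp only [inp, List.append_assoc] at m1 m2 ⊢
      rw [m1, m2]
      simp only [mul_assoc]
    · rw [if_neg q1, if_neg (mt j1.2 q1)]
      by_cases q2 : QF (a ++ P.lhs r ++ b) s c
      · have e := rp_eq (conn_rel a r b)
        have m1 := n4 (q2.hyp true) (by simpa [inp] using nqe _ _ _ q1)
        have m2 := n1 _ _ _ _ _ (q2.hyp false) (by simpa [inp] using nqe _ _ _ (mt j1.2 q1))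
        rw [if_pos q2, if_pos (j2.1 q2), ← e,
          hyp_left q2.rp true _ _ _ _ (rp_conn _) (rp_conn _),
          hyp_left q2.rp false _ _ _ _ (rp_conn _) (rp_conn _)]
        simp only [inp, List.append_assoc] at m1 m2 ⊢
        rw [m1, m2]
        simp only [mul_assoc]
      · have a1 := nqe _ _ _ q1
        have a2 := nqe _ _ _ q2
        have a3 := nqe _ _ _ (mt j2.2 q2)
        have a4 := nqe _ _ _ (mt j1.2 q1)
        have a5 := gen_sq a r b s c
        rw [if_neg q2, if_neg (mt j2.2 q2)]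
        simp only [List.append_assoc] at a1 a2 a3 a4 a5 ⊢
        rw [← n1 _ _ _ _ _ a1 a3, ← n1 _ _ _ _ _ a2 a4, a5]
  have f1 : ∀ {x y g}, NQ QF x y g → Φ g = ν x y g :=
    hom_nq Φ ν n1 fun a r c h => by simp only [Φ, mkHom_gen, if_neg h]
  have n2 : ∀ z, ι z 1 = 1 := fun z => by simpa using i3 z 1 1 (NQ.one z) (NQ.one z)
  have f2 : ∀ x, Φ (ta w x) = 1 := fun x => by
    simp [f1 (ta_nq w x), ν, ta_eq w (ch_ch w x), n2]
  have f3 : ∀ {x y g}, Conn w x → Hom x y g → Hom w w (kk w x * rho w g * (kk w y)⁻¹) ∧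
      rho w (kk w x * rho w g * (kk w y)⁻¹) = kk w x * rho w g * (kk w y)⁻¹ := fun a b =>
    ⟨((kk_hom w a).mul (rho_hom w b)).mul (kk_hom w (a.trans b.conn)).inv,
      by simp [rho_kk, rho_rho]⟩
  have f4 : ∀ {a r c}, QF a r c → T (rp a) r (rp c) = ψ (kk w (a ++ P.lhs r ++ c) *
      rho w (gen a r c) * (kk w (a ++ P.rhs r ++ c))⁻¹) := fun {a r c} h => by
    rw [rho_gen w h, ← show _ = kk w (a ++ P.lhs r ++ c) from kk_eq w (h.hyp true),
      ← show _ = kk w (a ++ P.rhs r ++ c) from kk_eq w (h.hyp false)]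
    rfl
  have n3 : ∀ {x y g}, Conn w x → NQ QF x y g →
      θ (ev (ν x y g)) = kk w x * ta w x * g * (kk w y * ta w y)⁻¹ := fun {x y g} a b => by
    rw [i4 _ _ (a.trans (ta_nq w x).hom.conn.symm) (ch_ch w x) (n0 b), kk_eq w (ta_nq w x),
      ← kk_eq w b]
    simp only [mul_assoc, mul_inv_rev]
  have f5 : ∀ {x y g}, Conn w x → Hom x y g →
      θ (ev (Φ g)) = kk w x * ta w x * g * (kk w y * ta w y)⁻¹ := by
    intro x y g
    refine hom_ind (C := fun x y g => θ (ev (Φ g)) = kk w x * ta w x * g * (kk w y * ta w y)⁻¹)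
      (fun x _ => by simp) (fun _ _ _ _ _ a b => by simp [a, b, mul_assoc])
      (fun _ _ _ a => by simp [a, mul_assoc]) fun a r c hc => ?_
    by_cases h : QF a r c
    · obtain ⟨b1, b2⟩ := f3 hc (Hom.edge ⟨a, r, true, c⟩)
      obtain ⟨f, b3, b4⟩ := p1 _ b1 b2
      have b5 := hyp_cross (r0 := r) (rp_conn a) (rp_conn c) true
      have b6 := n3 hc (h.hyp true).inv
      have b7 := n3 ((hc.trans (conn_rel a r c)).trans (h.hyp false).hom.conn.symm) (h.hyp false)
      have b8 := kk_eq w (h.hyp true)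
      have b9 := kk_eq w (h.hyp false)
      simp only [inp, SE.cls_true, SE.tgt, Bool.not_true] at b3 b4 b5 b6 b7 b8 b9
      simp only [Φ, mkHom_gen, if_pos h, map_mul]
      rw [b6, b7, f4 h, b4, show θ (ev (Monoid.Coprod.inr f)) = θ f by simp [hev], b3,
        rho_gen w h, eps, b8, b9, ← inv_mul_eq_iff_eq_mul.2 b5]
      simp only [mul_assoc, mul_inv_rev, inv_mul_cancel_left]
    · have := NQ.edge ⟨a, r, true, c⟩ h
      exact (congrArg (fun t => θ (ev t)) (f1 this)).trans (n3 hc this)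
  have f6 : ∀ {x y g}, Conn w x → Hom x y g → ∃ f : F, θ f = kk w x * rho w g * (kk w y)⁻¹ ∧
      Φ (rho w g) = Monoid.Coprod.inr f := by
    intro x y g
    refine hom_ind (C := fun x y g => ∃ f : F, θ f = kk w x * rho w g * (kk w y)⁻¹ ∧
      Φ (rho w g) = Monoid.Coprod.inr f) (fun x _ => ⟨1, by simp, by simp⟩)
      (fun _ _ _ _ _ ⟨f, a, b⟩ ⟨f', a', b'⟩ =>
        ⟨f * f', by simp [a, a', mul_assoc], by simp [b, b']⟩)
      (fun _ _ _ ⟨f, a, b⟩ => ⟨f⁻¹, by simp [a, mul_assoc], by simp [b]⟩) fun a r c hc => ?_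
    by_cases h : QF a r c
    · obtain ⟨b1, b2⟩ := f3 hc (Hom.edge ⟨a, r, true, c⟩)
      obtain ⟨f, b3, b4⟩ := p1 _ b1 b2
      refine ⟨f, b3, Eq.trans ?_ ((f4 h).trans b4)⟩
      rw [rho_gen w h, eps, map_mul, map_mul, map_inv, f2, f2]
      simp [Φ, h.rp, rp_eq (rp_conn _), hyp_self h.rp, ν, n2]
    · have b1 : NQ QF (a ++ P.lhs r ++ c) (a ++ P.rhs r ++ c) (gen a r c) :=
        NQ.edge ⟨a, r, true, c⟩ h
      exact ⟨1, by rw [rho_nq w b1, kk_eq w b1]; simp, by simp [rho_nq w b1]⟩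
  refine Function.bijective_iff_has_inverse.2 ⟨Φ.comp θ, fun x => ?_, fun g => h1 ?_⟩
  · refine DFunLike.congr_fun (?_ : (Φ.comp θ).comp ev = MonoidHom.id _) x
    refine Monoid.Coprod.hom_ext (Monoid.CoprodI.ext_hom _ _ fun j => MonoidHom.ext fun a => ?_)
      (MonoidHom.ext fun f => ?_)
    · obtain ⟨f, b1, b2⟩ := f6 (Conn.refl w) (t3 j.2.1 j.2.2.1)
      rw [rho_kk] at b1 b2
      obtain rfl : f = 1 := Subtype.ext (h1 (by simpa [kk_self] using b1))
      have b3 := (hA j a).1 a.2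
      obtain ⟨a', b4, b5⟩ := i1 _ _ j.2 b3
      obtain rfl : a' = a := Subtype.ext (h1 (by simpa [mul_assoc] using b4))
      have b6 := f1 b3
      simp only [map_mul, map_inv, b2, map_one, inv_one, one_mul, mul_one, ν, ta_eq w j.2.2.1,
        j.2.2.1, b5] at b6
      simpa [hev] using b6
    · obtain ⟨f', b1, b2⟩ := f6 (Conn.refl w) (t1 f)
      rw [show rho w (θ f) = θ f from f.2] at b1 b2
      obtain rfl : f' = f := Subtype.ext (h1 (by simpa [kk_self] using b1))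
      simpa [hev] using b2
  · simpa [kk_self, ta_eq w (ch_self w)] using f5 (Conn.refl w) (t1 g)

end Pool.Agent.Lib.MP_e6550d_al
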