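import Pool.Agent.Lib.MP_e6550d_al.KD
import Pool.Agent.Lib.MP_e6550d_al.Bridge

namespace Pool.Agent.Lib.MP_e6550d_al

universe u v w

section

variable {G : Type w} [Group G] {n : ℕ} {H : Fin n → Subgroup G}

theorem rel_norm (hrel : IsRelHyperbolic H) (i : Fin n) (y g c : G) (h1 : y⁻¹ * c * y ∈ H i)
    (h2 : y⁻¹ * (g * c * g⁻¹) * y ∈ H i) (h3 : ¬ IsOfFinOrder c) : y⁻¹ * g * y ∈ H i := by
  obtain ⟨X, RW, C, F⟩ := fill_of_relHyp hrel
  have := (F.mal (g := y⁻¹ * g⁻¹ * y) (j := i) h1 (not_isOfFinOrder_conj y h3)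
    (by simpa [mul_assoc] using h2)).2
  simpa [mul_assoc] using (H i).inv_mem this

theorem rel_zz (hrel : IsRelHyperbolic H) : ∀ a b : G, Commute a b → ¬ IsOfFinOrder b →
    ∀ f : G → ℕ, (∀ g, f (b * g) = f g) → (∀ x, ∃ D, ∀ g, f (g * x) ≤ f g + D) →
    (∀ m : ℕ, m ≤ f (a ^ m)) → ∃ i y, y⁻¹ * b * y ∈ H i := by
  obtain ⟨X, RW, C, F⟩ := fill_of_relHyp hrel
  intro a b hab hb f h1 h2 h3
  have hfz : ∀ (k : ℤ) g, f (b ^ k * g) = f g := by
    intro k
    induction k using Int.induction_on with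
    | zero => simp
    | succ k ih => intro g; rw [add_comm, zpow_add, zpow_one, mul_assoc, h1, ih]
    | pred k ih =>
      intro g
      rw [← h1, ← mul_assoc, ← zpow_one_add]
      simpa using ih g
  have hind : ∀ (i j : ℤ), a ^ i = b ^ j → i = 0 := by
    have key : ∀ (i : ℕ) (j : ℤ), a ^ i = b ^ j → i = 0 := by
      intro i j hij
      by_contra hi
      have h4 := h3 (i * (f 1 + 1))
      rw [pow_mul, hij, ← zpow_natCast, ← zpow_mul, ← mul_one (b ^ _), hfz] at h4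
      have : 1 * (f 1 + 1) ≤ i * (f 1 + 1) := by gcongr; omega
      omega
    intro i j hij
    rcases Int.eq_nat_or_neg i with ⟨m, rfl | rfl⟩
    · have := key m j (by simpa using hij)
      omega
    · have := key m (-j) (by rw [zpow_neg, ← hij]; simp)
      omega
  have hinfA : ∀ (i j : ℤ), b ^ j * a ^ i ≠ 1 → ¬ IsOfFinOrder (b ^ j * a ^ i) := by
    intro i j hne hfin
    obtain ⟨m, hm, hm'⟩ := isOfFinOrder_iff_pow_eq_one.1 hfin
    rw [(hab.symm.zpow_zpow j i).mul_pow, ← zpow_natCast, ← zpow_natCast, ← zpow_mul,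
      ← zpow_mul] at hm'
    have h4 := hind (i * m) (-(j * m)) (by rw [zpow_neg]; exact eq_inv_of_mul_eq_one_right hm')
    have h5 : i = 0 := by
      rcases mul_eq_zero.1 h4 with h | h
      · exact h
      · omega
    subst h5
    simp only [zero_mul, zpow_zero, mul_one] at hm' hne
    apply hb
    rw [isOfFinOrder_iff_zpow_eq_one]
    refine ⟨j * m, ?_, hm'⟩
    intro h6
    rcases mul_eq_zero.1 h6 with h | h
    · subst h; simp at hne
    · omega
  have hex : ∃ (i j : ℤ) (k : Fin n) (y : G), b ^ j * a ^ i ≠ 1 ∧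
      y⁻¹ * (b ^ j * a ^ i) * y ∈ H k := by
    by_contra hc
    push Not at hc
    obtain ⟨R, N0, hR⟩ := F.coarea a b hab f h1 h2 h3
    choose! jj hjj using hR
    have hinj : Function.Injective (fun m : ℕ => b ^ (m + N0) * a ^ jj (m + N0)) := by
      intro m m' hmm
      simp only at hmm
      have h4 : a ^ (jj (m + N0) - jj (m' + N0)) = b ^ (((m' + N0 : ℕ) : ℤ) - (m + N0 : ℕ)) := by
        rw [zpow_sub, sub_eq_neg_add, zpow_add, zpow_neg, zpow_natCast, zpow_natCast,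
          mul_inv_eq_iff_eq_mul, mul_assoc, ← hmm]
        simp
      have h5 := hind _ _ h4
      rw [h5, zpow_zero] at h4
      by_contra hne
      apply hb
      rw [isOfFinOrder_iff_zpow_eq_one]
      exact ⟨_, by omega, h4.symm⟩
    refine F.proper b R (Set.range (fun m : ℕ => b ^ (m + N0) * a ^ jj (m + N0)))
      (Set.infinite_range_of_injective hinj) ?_ ?_ ?_ ?_
    · rintro _ ⟨m, rfl⟩
      exact hjj (m + N0) (by omega)
    · rintro _ ⟨m, rfl⟩
      exact ((Commute.refl b).pow_right _).mul_right (hab.symm.zpow_right _)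
    · intro m hm i y hy
      apply hc 0 m i y
      · simp only [zpow_zero, mul_one, zpow_natCast]
        intro h4
        exact hb (isOfFinOrder_iff_pow_eq_one.2 ⟨m, hm, h4⟩)
      · simpa using hy
    · rintro _ ⟨m, rfl⟩ _ ⟨m', rfl⟩ i y hy
      simp only at hy ⊢
      have e : (b ^ (m + N0) * a ^ jj (m + N0))⁻¹ * (b ^ (m' + N0) * a ^ jj (m' + N0))
          = b ^ (((m' + N0 : ℕ) : ℤ) - (m + N0 : ℕ)) * a ^ (jj (m' + N0) - jj (m + N0)) := by
        rw [sub_eq_neg_add, sub_eq_neg_add, zpow_add, zpow_add, zpow_neg, zpow_neg, zpow_natCast,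
          zpow_natCast, mul_inv_rev]
        have h4 : Commute (a ^ jj (m + N0))⁻¹ ((b ^ (m + N0))⁻¹ * b ^ (m' + N0)) :=
          (((hab.zpow_left _).pow_right _).inv_right.mul_right
            ((hab.zpow_left _).pow_right _)).inv_left
        simp only [mul_assoc] at h4 ⊢
        rw [← mul_assoc (b ^ (m + N0))⁻¹, ← mul_assoc (a ^ jj (m + N0))⁻¹, h4.eq]
        simp only [mul_assoc]
      by_contra hne
      rw [e] at hy
      refine hc _ _ i y ?_ hy
      rw [← e]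
      intro h4
      exact hne (inv_mul_eq_one.1 h4)
  obtain ⟨i, j, k, y, hne, hy⟩ := hex
  have : Commute b (b ^ j * a ^ i) :=
    ((Commute.refl b).zpow_right _).mul_right (hab.symm.zpow_right _)
  exact ⟨k, y, rel_norm hrel k y b _ hy (by rw [this.eq]; simpa using hy) (hinfA i j hne)⟩

end

variable {P : SemigroupPresentation.{u, v}}

theorem chamber_le {H : Subgroup (UG P)} {z : Wd P}
    (hn : ∀ g c, NQ QF z z g → NQ QF z z c → c ≠ 1 → c ∈ H → g * c * g⁻¹ ∈ H → g ∈ H)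
    {p q : Wd P} {x : P.Letter} (e : z = p ++ x :: q) (t1 : Triv p) (t2 : ¬ Triv (p ++ [x]))
    {d : UG P} (d1 : Hom q q d) (d2 : d ≠ 1) (h : ctx (p ++ [x]) [] d ∈ H) {g : UG P}
    (hg : NQ QF z z g) : g ∈ H := by
  have a1 : ∀ {c m}, NQ QF z z c → c ≠ 1 → 0 < m → c ^ m ≠ 1 := fun hc h1 h2 h3 =>
    hc.hom.not_isOfFinOrder h1 (isOfFinOrder_iff_pow_eq_one.2 ⟨_, h2, h3⟩)
  have a2 : ∀ {c} m, NQ QF z z c → NQ QF z z (c ^ m) := fun m hc => (NG QF z).pow_mem hc m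
  have hCP : CP H z := fun c g hc hg c1 c2 ⟨m, m1, m2⟩ => ⟨1, one_pos, by
    rw [pow_one]
    exact hn g _ hg (a2 m hc) (a1 hc c1 m1) m2 (by rwa [(c2.pow_right m).eq, mul_inv_cancel_right])⟩
  have b1 : NQ QF z z (ctx (p ++ [x]) [] d) := by simpa [e] using (nq_right t2 d1).toF
  have b2 : ctx (p ++ [x]) [] d ≠ 1 := fun e' => d2 (ctx_inj d1 _ _ e')
  have b3 : NQ QF z (p ++ x :: q) 1 := by rw [← e]; exact NQ.one z
  obtain ⟨m, m1, m2⟩ := hCP.spread b1 b2 b3 hg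
    (hCP.good_of b3 t1 t2 d1 d2 ⟨1, one_pos, by simpa using h⟩) p x q e t1 t2 d d1
  exact hn g _ hg (a2 m b1) (a1 b1 b2 m1) (pow_mem h m) (by rwa [conj_pow] at m2)

section

variable {G : Type w} [Group G] {w0 : Wd P} {θ : G →* UG P} {n : ℕ} {H : Fin n → Subgroup G}

theorem rel_seed (hθ : Function.Injective θ) (hθ' : θ.range = DG w0) (hrel : IsRelHyperbolic H)
    {p q : Wd P} {k : UG P} (hk : Hom w0 (p ++ q) k) (hp : ¬ Triv p) (hq : ¬ Triv q) :
    ∃ d b i y, Hom q q d ∧ d ≠ 1 ∧ θ b = k * ctx p [] d * k⁻¹ ∧ y⁻¹ * b * y ∈ H i := by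
  have t1 : ∀ g, Hom w0 w0 (θ g) := fun g => hθ'.le ⟨g, rfl⟩
  have t2 : ∀ {g}, Hom w0 w0 g → ∃ a, θ a = g := fun hg => (hθ'.ge hg : _ ∈ θ.range)
  obtain ⟨l, y, g, Q, hQ, h1, h2, h3⟩ := exists_chi hp
  obtain ⟨j, hj⟩ := h1.hom
  obtain ⟨d, hd, hd'⟩ := exists_inf hq
  obtain ⟨F, F1, F2, F3⟩ := exists_height l y [] q
  simp only [List.append_nil, List.nil_append] at F1 F2 F3
  have hk' := hk.mul (hj.ctxR q)
  set k' := k * ctx [] q j with hk''
  obtain ⟨a, ha⟩ := t2 ((hk'.mul (h2.ctx l q)).mul hk'.inv)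
  obtain ⟨b, hb⟩ := t2 ((hk'.mul (hd.ctxL (l ++ y))).mul hk'.inv)
  have com : Commute (ctx l q g) (ctx (l ++ y) [] d) := by
    have := inter (h2.ctxL l) hd
    simp only [ctx_ctx, List.nil_append] at this
    exact this
  obtain ⟨i, y', h4⟩ := rel_zz hrel a b (hθ (by
      simpa [ha, hb] using (com.map (MulAut.conj k')).eq))
    (fun hf => not_isOfFinOrder_conj' k' (hd' _ _) (hb ▸ θ.isOfFinOrder hf))
    (fun γ => F (k'⁻¹ * θ γ * k')) (fun γ => by
      simpa [hb, mul_assoc] using F1 d _ hd ((hk'.inv.mul (t1 γ)).mul hk')) (fun x => by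
      obtain ⟨D, hD⟩ := F2 _ ((hk'.inv.mul (t1 x)).mul hk')
      exact ⟨D, fun γ => by simpa [mul_assoc] using hD _ ((hk'.inv.mul (t1 γ)).mul hk')⟩)
    fun m => by
      have h4 := F3 Q hQ _ (h2.pow m)
      simp only [map_pow, toAdd_pow, nsmul_eq_mul] at h4
      simp only [map_pow, ha, conj_pow]
      simp only [mul_assoc, inv_mul_cancel_left, inv_mul_cancel, mul_one]
      have : (m : ℤ) ≤ F (ctx l q g ^ m) := le_trans (by nlinarith) h4
      exact_mod_cast this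
  refine ⟨d, b, i, y', hd, fun e => hd' [] [] (by simp [e]), ?_, h4⟩
  rw [hb, hk'', mul_assoc k (ctx [] q j), inter hj hd]
  group

theorem chamber_par (hθ : Function.Injective θ) (hθ' : θ.range = DG w0) (hrel : IsRelHyperbolic H)
    {z : Wd P} {k : UG P} (hk : Hom w0 z k) (h0 : NG QF z ≠ ⊥) :
    ∃ i y, ∀ g, NQ QF z z (k⁻¹ * θ g * k) → y⁻¹ * g * y ∈ H i := by
  have t2 : ∀ {g}, NQ QF z z g → ∃ a, θ a = k * g * k⁻¹ := fun hg =>
    (hθ'.ge ((hk.mul hg.hom).mul hk.inv) : _ ∈ θ.range)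
  obtain ⟨⟨g0, hg0⟩, hne⟩ := Subgroup.ne_bot_iff_exists_ne_one.1 h0
  have hne' : g0 ≠ 1 := fun e => hne (Subtype.ext e)
  obtain ⟨p, x, q, e, a1, a2⟩ := exists_dec (z := z) fun t => hne' (t _ (NQ.hom hg0))
  have a3 := thick (q := q) hg0 hne' (k := 1) (by rw [← e]; exact NQ.one z) a1 a2
  obtain ⟨d, b, i, y, d1, d2, b1, b2⟩ := rel_seed hθ hθ' hrel (p := p ++ [x]) (q := q) (k := k)
    (by simpa [e] using hk) a2 a3
  let K : Subgroup (UG P) := (((H i).comap (MulAut.conj y⁻¹).toMonoidHom).map θ).comap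
    (MulAut.conj k).toMonoidHom
  have hK : ∀ a g, θ a = k * g * k⁻¹ → (g ∈ K ↔ y⁻¹ * a * y ∈ H i) := fun a g h => by
    change k * g * k⁻¹ ∈ Subgroup.map θ _ ↔ _
    rw [← h, Subgroup.mem_map_iff_mem hθ]
    simp
  refine ⟨i, y, fun g hg => (hK g _ (by simp [mul_assoc])).1
    (chamber_le (fun g c hg hc c1 c2 c3 => ?_) e a1 a2 d1 d2 ((hK b _ b1).2 b2) hg)⟩
  obtain ⟨g', g1⟩ := t2 hg
  obtain ⟨c', c4⟩ := t2 hc
  exact (hK g' g g1).2 (rel_norm hrel i y g' c' ((hK c' c c4).1 c2)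
    ((hK _ _ (by simp [g1, c4, mul_assoc])).1 c3) fun hf =>
      not_isOfFinOrder_conj' k (hc.hom.not_isOfFinOrder c1) (c4 ▸ θ.isOfFinOrder hf))

end

theorem structure_thm {G : Type w} [Group G] (x : Vertex P) (e : G ≃* DiagramGroup P x) :
    ∃ (J : Type u) (A : J → Subgroup G) (F : Subgroup G), IsFreeGroup F ∧ Function.Bijective
        (Monoid.Coprod.lift (Monoid.CoprodI.lift fun j => (A j).subtype) F.subtype) ∧
      ∀ j, (∃ f : Multiplicative (ℤ × ℤ) →* A j, Function.Injective f) ∧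
        (∀ (H : Subgroup (A j)) (n : ℕ), HeightLE H n → H.index = 0 → IsFreeGroup H) ∧
        ∀ (n : ℕ) (H : Fin n → Subgroup G), IsRelHyperbolic H →
          ∃ i y, ∀ g ∈ A j, y⁻¹ * g * y ∈ H i := by
  obtain ⟨f⟩ := bridge x
  let θ : G →* UG P := (DG x.1).subtype.comp (e.trans f).toMonoidHom
  have h1 : Function.Injective θ := Subtype.val_injective.comp (e.trans f).injective
  have h2 : θ.range = DG x.1 := by
    rw [MonoidHom.range_comp, MonoidHom.range_eq_top.2 (e.trans f).surjective,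
      ← MonoidHom.range_eq_map, Subgroup.range_subtype]
  obtain ⟨J, z, k, A, F, a1, a2, a3⟩ := decomposition θ h1 h2
  refine ⟨J, A, F, a1, a2, fun j => ?_⟩
  obtain ⟨b1, b2, b3⟩ := a3 j
  let η : A j →* UG P := (MulAut.conj (k j)⁻¹).toMonoidHom.comp (θ.comp (A j).subtype)
  have c1 : Function.Injective η :=
    (MulAut.conj (k j)⁻¹).injective.comp (h1.comp Subtype.val_injective)
  have c2 : η.range = NG QF (z j) := by
    ext g
    constructor
    · rintro ⟨a, rfl⟩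
      simpa [η, NG] using (b3 a).1 a.2
    · intro hg
      obtain ⟨a, ha⟩ : k j * g * (k j)⁻¹ ∈ θ.range := h2.ge ((b1.mul (NQ.hom hg)).mul b1.inv)
      exact ⟨⟨a, (b3 a).2 (by simpa [ha, mul_assoc, NG] using hg)⟩, by simp [η, ha, mul_assoc]⟩
  refine ⟨chamber_zz c1 c2 b2, fun H n => chamber_free c1 c2, fun n H hrel => ?_⟩
  obtain ⟨i, y, h⟩ := chamber_par h1 h2 hrel b1 b2
  exact ⟨i, y, fun g hg => h g ((b3 g).1 hg)⟩

end Pool.Agent.Lib.MP_e6550d_al
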