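import Pool.Agent.Lib.MP_e6550d_al.Defs

namespace Pool.Agent.Lib.MP_e6550d_al

universe w

variable {G : Type w} [Group G] {n : ℕ} {H : Fin n → Subgroup G} {X : Finset G}

/-- letters, the identities of the `H i` included -/
abbrev Lt (H : Fin n → Subgroup G) (X : Finset G) : Type w := (Σ i : Fin n, H i) ⊕ (X × Bool)

def Lt.val : Lt H X → G
  | Sum.inl ⟨_, h⟩ => h
  | Sum.inr (x, true) => x
  | Sum.inr (x, false) => (x : G)⁻¹

def Lt.inv : Lt H X → Lt H X
  | Sum.inl ⟨i, h⟩ => Sum.inl ⟨i, h⁻¹⟩
  | Sum.inr (x, b) => Sum.inr (x, !b)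

def Lt.ev : Lt H X → RelFree H X
  | Sum.inl ⟨_, h⟩ => Monoid.Coprod.inl (Monoid.CoprodI.of h)
  | Sum.inr (x, true) => Monoid.Coprod.inr (FreeGroup.of x)
  | Sum.inr (x, false) => Monoid.Coprod.inr (FreeGroup.of x)⁻¹

theorem Lt.val_inv (l : Lt H X) : l.inv.val = l.val⁻¹ := by
  rcases l with ⟨i, h⟩ | ⟨x, _ | _⟩ <;> simp [Lt.inv, Lt.val]

theorem Lt.ev_inv (l : Lt H X) : l.inv.ev = l.ev⁻¹ := by
  rcases l with ⟨i, h⟩ | ⟨x, _ | _⟩ <;> simp [Lt.inv, Lt.ev]

theorem Lt.relEval_ev (l : Lt H X) : relEval H X l.ev = l.val := by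
  rcases l with ⟨i, h⟩ | ⟨x, _ | _⟩ <;> simp [Lt.val, Lt.ev, relEval]

def wval (W : List (Lt H X)) : G := (W.map Lt.val).prod
def wev (W : List (Lt H X)) : RelFree H X := (W.map Lt.ev).prod
def winv (W : List (Lt H X)) : List (Lt H X) := (W.map Lt.inv).reverse

@[simp] theorem wval_nil : wval ([] : List (Lt H X)) = 1 := rfl
@[simp] theorem wval_cons (l : Lt H X) (W : List (Lt H X)) : wval (l :: W) = l.val * wval W := by
  simp [wval]
@[simp] theorem wval_append (V W : List (Lt H X)) : wval (V ++ W) = wval V * wval W := by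
  simp [wval]
@[simp] theorem wev_nil : wev ([] : List (Lt H X)) = 1 := rfl
@[simp] theorem wev_cons (l : Lt H X) (W : List (Lt H X)) : wev (l :: W) = l.ev * wev W := by
  simp [wev]
@[simp] theorem wev_append (V W : List (Lt H X)) : wev (V ++ W) = wev V * wev W := by
  simp [wev]
@[simp] theorem winv_nil : winv ([] : List (Lt H X)) = [] := rfl
@[simp] theorem winv_cons (l : Lt H X) (W : List (Lt H X)) :
    winv (l :: W) = winv W ++ [l.inv] := by simp [winv]
@[simp] theorem length_winv (W : List (Lt H X)) : (winv W).length = W.length := by simp [winv]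
@[simp] theorem wval_winv (W : List (Lt H X)) : wval (winv W) = (wval W)⁻¹ := by
  induction W with
  | nil => simp
  | cons l W ih => simp [ih, Lt.val_inv]
@[simp] theorem wev_winv (W : List (Lt H X)) : wev (winv W) = (wev W)⁻¹ := by
  induction W with
  | nil => simp
  | cons l W ih => simp [ih, Lt.ev_inv]

theorem relEval_wev (W : List (Lt H X)) : relEval H X (wev W) = wval W := by
  induction W with
  | nil => simp
  | cons l W ih => simp [ih, Lt.relEval_ev]

theorem exists_wev (φ : RelFree H X) : ∃ W : List (Lt H X), wev W = φ := by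
  induction φ using Monoid.Coprod.induction_on with
  | inl m =>
    induction m using Monoid.CoprodI.induction_on with
    | one => exact ⟨[], by simp⟩
    | of i h => exact ⟨[Sum.inl ⟨i, h⟩], by simp [Lt.ev]⟩
    | mul x y hx hy =>
      obtain ⟨V, hV⟩ := hx
      obtain ⟨W, hW⟩ := hy
      exact ⟨V ++ W, by simp [hV, hW]⟩
  | inr m =>
    induction m using FreeGroup.induction_on with
    | C1 => exact ⟨[], by simp⟩
    | of x => exact ⟨[Sum.inr (x, true)], by simp [Lt.ev]⟩
    | inv_of x hx => exact ⟨[Sum.inr (x, false)], by simp [Lt.ev]⟩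
    | mul x y hx hy =>
      obtain ⟨V, hV⟩ := hx
      obtain ⟨W, hW⟩ := hy
      exact ⟨V ++ W, by simp [hV, hW]⟩
  | mul x y hx hy =>
    obtain ⟨V, hV⟩ := hx
    obtain ⟨W, hW⟩ := hy
    exact ⟨V ++ W, by simp [hV, hW]⟩

/-- the steps (current vertex, letter) of the path read from `g` along a word -/
def steps : G → List (Lt H X) → List (G × Lt H X)
  | _, [] => []
  | g, l :: W => (g, l) :: steps (g * l.val) W

@[simp] theorem steps_nil (g : G) : steps g ([] : List (Lt H X)) = [] := rfl
@[simp] theorem steps_cons (g : G) (l : Lt H X) (W : List (Lt H X)) :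
    steps g (l :: W) = (g, l) :: steps (g * l.val) W := rfl

@[simp] theorem steps_append (g : G) (V W : List (Lt H X)) :
    steps g (V ++ W) = steps g V ++ steps (g * wval V) W := by
  induction V generalizing g with
  | nil => simp
  | cons l V ih => simp [ih, mul_assoc]

@[simp] theorem length_steps (g : G) (W : List (Lt H X)) : (steps g W).length = W.length := by
  induction W generalizing g with
  | nil => simp
  | cons l V ih => simp [ih]

theorem steps_mul (k g : G) (W : List (Lt H X)) :
    steps (k * g) W = (steps g W).map (fun p => (k * p.1, p.2)) := by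
  induction W generalizing g with
  | nil => simp
  | cons l V ih => simp [mul_assoc, ih]

theorem mem_steps {g : G} {W : List (Lt H X)} {p : G × Lt H X} (h : p ∈ steps g W) :
    ∃ V V', W = V ++ p.2 :: V' ∧ p.1 = g * wval V := by
  induction W generalizing g with
  | nil => simp at h
  | cons l W ih =>
    simp only [steps_cons, List.mem_cons] at h
    rcases h with rfl | h
    · exact ⟨[], W, by simp, by simp⟩
    · obtain ⟨V, V', h1, h2⟩ := ih h
      exact ⟨l :: V, V', by simp [h1], by simp [h2, mul_assoc]⟩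

theorem mem_steps_winv {g : G} {W : List (Lt H X)} {p : G × Lt H X}
    (h : p ∈ steps (g * wval W) (winv W)) :
    ∃ q ∈ steps g W, p = (q.1 * q.2.val, q.2.inv) := by
  induction W generalizing g with
  | nil => simp at h
  | cons l W ih =>
    simp only [winv_cons, steps_append, wval_cons, wval_winv, steps_cons, steps_nil,
      List.mem_append, List.mem_cons, List.not_mem_nil, or_false] at h
    rcases h with h | h
    · rw [← mul_assoc] at h
      obtain ⟨q, hq, e⟩ := ih h
      exact ⟨q, by simp [hq], e⟩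
    · exact ⟨(g, l), by simp, by rw [h]; simp [mul_assoc]⟩

/-- a relative 1-cochain evaluated on a step -/
def lam (u : Fin n → G → ℤ) (κ : G → X → ℤ) : G × Lt H X → ℤ
  | (g, Sum.inl ⟨i, h⟩) => u i (g * h) - u i g
  | (g, Sum.inr (x, true)) => κ g x
  | (g, Sum.inr (x, false)) => -κ (g * (x : G)⁻¹) x

def lamW (u : Fin n → G → ℤ) (κ : G → X → ℤ) (g : G) (W : List (Lt H X)) : ℤ :=
  ((steps g W).map (lam u κ)).sum

variable {u : Fin n → G → ℤ} {κ : G → X → ℤ}

@[simp] theorem lamW_nil (g : G) : lamW u κ g ([] : List (Lt H X)) = 0 := rfl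
@[simp] theorem lamW_cons (g : G) (l : Lt H X) (W : List (Lt H X)) :
    lamW u κ g (l :: W) = lam u κ (g, l) + lamW u κ (g * l.val) W := by simp [lamW]
@[simp] theorem lamW_append (g : G) (V W : List (Lt H X)) :
    lamW u κ g (V ++ W) = lamW u κ g V + lamW u κ (g * wval V) W := by simp [lamW]

theorem lam_inv (g : G) (l : Lt H X) : lam u κ (g * l.val, l.inv) = -lam u κ (g, l) := by
  rcases l with ⟨i, h⟩ | ⟨x, _ | _⟩ <;> simp [Lt.inv, Lt.val, lam]

theorem lamW_winv (g : G) (W : List (Lt H X)) :
    lamW u κ (g * wval W) (winv W) = -lamW u κ g W := by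
  induction W generalizing g with
  | nil => simp
  | cons l W ih =>
    simp only [winv_cons, wval_cons, lamW_append, wval_winv, lamW_cons, lamW_nil]
    rw [← mul_assoc, ih]
    simp [lam_inv]

def shiftPerm (x : G) (μ : G → ℤ) : Equiv.Perm (G × ℤ) where
  toFun p := (p.1 * x, p.2 + μ p.1)
  invFun p := (p.1 * x⁻¹, p.2 - μ (p.1 * x⁻¹))
  left_inv p := by simp
  right_inv p := by simp

def homH (u : Fin n → G → ℤ) (i : Fin n) : H i →* (Equiv.Perm (G × ℤ))ᵐᵒᵖ where
  toFun h := MulOpposite.op (shiftPerm (h : G) (fun g => u i (g * h) - u i g))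
  map_one' := by
    apply MulOpposite.unop_injective
    ext p <;> simp [shiftPerm]
  map_mul' a b := by
    apply MulOpposite.unop_injective
    ext p
    · simp [shiftPerm, mul_assoc]
    · simp [shiftPerm, mul_assoc]; ring

def homF (u : Fin n → G → ℤ) (κ : G → X → ℤ) : RelFree H X →* (Equiv.Perm (G × ℤ))ᵐᵒᵖ :=
  Monoid.Coprod.lift (Monoid.CoprodI.lift (homH u))
    (FreeGroup.lift fun x => MulOpposite.op (shiftPerm (x : G) (fun g => κ g x)))

theorem homF_ev (l : Lt H X) (g : G) (m : ℤ) :
    (homF u κ l.ev).unop (g, m) = (g * l.val, m + lam u κ (g, l)) := by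
  rcases l with ⟨i, h⟩ | ⟨x, _ | _⟩
  · simp [homF, Lt.ev, Lt.val, homH, shiftPerm, lam]
  · simp only [homF, Lt.ev, Lt.val, lam, map_inv, Monoid.Coprod.lift_apply_inr,
      FreeGroup.lift_apply_of, MulOpposite.unop_inv, MulOpposite.unop_op]
    rw [Equiv.Perm.inv_eq_iff_eq]
    simp [shiftPerm]
  · simp [homF, Lt.ev, Lt.val, shiftPerm, lam]

theorem homF_wev (W : List (Lt H X)) (g : G) (m : ℤ) :
    (homF u κ (wev W)).unop (g, m) = (g * wval W, m + lamW u κ g W) := by
  induction W generalizing g m with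
  | nil => simp
  | cons l W ih =>
    simp only [wev_cons, map_mul, MulOpposite.unop_mul, Equiv.Perm.coe_mul, Function.comp_apply,
      homF_ev, ih, wval_cons, lamW_cons, mul_assoc, add_assoc]

theorem lamW_congr {V W : List (Lt H X)} (h : wev V = wev W) (g : G) :
    lamW u κ g V = lamW u κ g W := by
  have h1 := homF_wev (u := u) (κ := κ) V g 0
  have h2 := homF_wev (u := u) (κ := κ) W g 0
  rw [h, h2] at h1
  have := congrArg Prod.snd h1
  simpa using this.symm

/-- homological consequence of a linear relative Dehn function -/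
structure Fill (H : Fin n → Subgroup G) (X : Finset G) (RW : Set (List (Lt H X))) (C : ℕ) :
    Prop where
  fin : RW.Finite
  surj : ∀ g, ∃ W : List (Lt H X), wval W = g
  rel : ∀ r ∈ RW, wval r = 1
  fill : ∀ W : List (Lt H X), wval W = 1 → ∃ cells : List (G × List (Lt H X)),
    cells.length ≤ C * W.length + C ∧ (∀ c ∈ cells, c.2 ∈ RW) ∧
    ∀ (u : Fin n → G → ℤ) (κ : G → X → ℤ),
      (∀ c ∈ cells, lamW u κ c.1 c.2 = 0) → lamW u κ 1 W = 0

theorem exists_relWord (W : List (Lt H X)) : ∃ W' : List (RelLetter H X),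
    W'.length ≤ W.length ∧ (W'.map (relLetter H X)).prod = wev W := by
  induction W with
  | nil => exact ⟨[], by simp, by simp⟩
  | cons l W ih =>
    obtain ⟨W', h1, h2⟩ := ih
    rcases l with ⟨i, h⟩ | ⟨x, _ | _⟩
    · by_cases hh : h = 1
      · exact ⟨W', by simp; omega, by simp [h2, hh, Lt.ev]⟩
      · exact ⟨Sum.inl ⟨i, ⟨h, hh⟩⟩ :: W', by simpa using h1, by simp [h2, Lt.ev, relLetter]⟩
    · exact ⟨Sum.inr (x, false) :: W', by simpa using h1, by simp [h2, Lt.ev, relLetter]⟩
    · exact ⟨Sum.inr (x, true) :: W', by simpa using h1, by simp [h2, Lt.ev, relLetter]⟩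

theorem fill_of_relHyp (h : IsRelHyperbolic H) :
    ∃ (X : Finset G) (RW : Set (List (Lt H X))) (C : ℕ), Fill H X RW C := by
  obtain ⟨X, R, hsurj, hfin, hker, C, hC⟩ := h
  choose wd hwd using (exists_wev (H := H) (X := X))
  have hR : ∀ r ∈ R, wval (wd r) = 1 := by
    intro r hr
    rw [← relEval_wev, hwd, ← MonoidHom.mem_ker, ← hker]
    exact Subgroup.subset_normalClosure hr
  refine ⟨X, wd '' R, C, hfin.image _, ?_, ?_, ?_⟩
  · intro g
    obtain ⟨φ, hφ⟩ := hsurj g
    exact ⟨wd φ, by rw [← relEval_wev, hwd, hφ]⟩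
  · rintro r ⟨r', hr', rfl⟩
    exact hR r' hr'
  · intro W hW
    obtain ⟨W', hlen, hW'⟩ := exists_relWord W
    obtain ⟨l, hl1, hl2, hl3⟩ := hC W' (by rw [hW', relEval_wev, hW])
    classical
    let cell : RelFree H X × RelFree H X → G × List (Lt H X) := fun p =>
      ((relEval H X p.1)⁻¹, if p.2 ∈ R then wd p.2 else wd p.2⁻¹)
    refine ⟨l.map cell, ?_, ?_, ?_⟩
    · rw [List.length_map]
      exact hl1.trans (by gcongr)
    · intro c hc
      obtain ⟨p, hp, rfl⟩ := List.mem_map.1 hc
      by_cases h1 : p.2 ∈ R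
      · exact ⟨p.2, h1, by simp [cell, h1]⟩
      · exact ⟨p.2⁻¹, (hl2 p hp).resolve_left h1, by simp [cell, h1]⟩
    · intro u κ hz
      rw [hW'] at hl3
      have key : ∀ l' : List (RelFree H X × RelFree H X), (∀ p ∈ l', p ∈ l) →
          ∃ V : List (Lt H X), wev V = (l'.map fun p => p.1⁻¹ * p.2 * p.1).prod ∧ wval V = 1 ∧
            lamW u κ 1 V = 0 := by
        intro l'
        induction l' with
        | nil => intro _; exact ⟨[], by simp, by simp, by simp⟩
        | cons p l' ih =>
          intro hp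
          obtain ⟨V, hV1, hV2, hV3⟩ := ih (fun q hq => hp q (List.mem_cons_of_mem _ hq))
          have hpl : p ∈ l := hp p List.mem_cons_self
          have hc := hz (cell p) (List.mem_map_of_mem hpl)
          have hmid : wval (wd p.2) = 1 ∧ lamW u κ (relEval H X p.1)⁻¹ (wd p.2) = 0 := by
            by_cases h1 : p.2 ∈ R
            · exact ⟨hR _ h1, by simpa [cell, h1] using hc⟩
            · have h2 := (hl2 p hpl).resolve_left h1
              have h3 := hR _ h2
              have h4 : lamW u κ (relEval H X p.1)⁻¹ (wd p.2⁻¹) = 0 := by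
                simpa [cell, h1] using hc
              have h5 : wev (wd p.2) = wev (winv (wd p.2⁻¹)) := by simp [hwd]
              refine ⟨?_, ?_⟩
              · rw [← relEval_wev, h5, relEval_wev, wval_winv, h3, inv_one]
              · rw [lamW_congr h5]
                have := lamW_winv (u := u) (κ := κ) (relEval H X p.1)⁻¹ (wd p.2⁻¹)
                rw [h3, mul_one, h4] at this
                simpa using this
          have hv : wval (wd p.1) = relEval H X p.1 := by rw [← relEval_wev, hwd]
          refine ⟨winv (wd p.1) ++ wd p.2 ++ wd p.1 ++ V, ?_, ?_, ?_⟩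
          · simp [hwd, hV1, mul_assoc]
          · simp [hmid.1, hV2]
          · have := lamW_winv (u := u) (κ := κ) (wval (wd p.1))⁻¹ (wd p.1)
            rw [inv_mul_cancel] at this
            simp only [lamW_append, wval_append, wval_winv, hmid.1, one_mul, mul_one,
              inv_mul_cancel, hV3, this]
            rw [hv, hmid.2]
            ring
      obtain ⟨V, hV1, -, hV3⟩ := key l (fun p hp => hp)
      rw [lamW_congr (hl3.trans hV1.symm), hV3]

end Pool.Agent.Lib.MP_e6550d_al
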