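import Pool.Agent.Lib.MP_e6550d_al.RelA

namespace Pool.Agent.Lib.MP_e6550d_al

universe w

theorem avg {α : Type*} (T : List α) (cut : α → ℕ → Prop) (D K t0 : ℕ) (hK : 0 < K)
    (h : ∀ x ∈ T, ∃ a : ℕ, ∀ t, cut x t → a ≤ t ∧ t < a + D) :
    ∃ t, t0 ≤ t ∧ t < t0 + K ∧ ∃ T' : List α, (∀ x ∈ T, cut x t → x ∈ T') ∧
      (∀ x ∈ T', x ∈ T) ∧ K * T'.length ≤ D * T.length := by
  classical
  have key : ∑ t ∈ Finset.Ico t0 (t0 + K), (T.filter (fun x => decide (cut x t))).length
      ≤ D * T.length := by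
    induction T with
    | nil => simp
    | cons x T ih =>
      have ih' := ih (fun y hy => h y (List.mem_cons_of_mem _ hy))
      obtain ⟨a, ha⟩ := h x List.mem_cons_self
      have e : ∀ t, ((x :: T).filter (fun x => decide (cut x t))).length
          = (if cut x t then 1 else 0) + (T.filter (fun x => decide (cut x t))).length := by
        intro t
        by_cases hc : cut x t <;> simp [hc, add_comm]
      simp only [e, Finset.sum_add_distrib, List.length_cons]
      have h1 : ∑ t ∈ Finset.Ico t0 (t0 + K), (if cut x t then 1 else 0) ≤ D := by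
        rw [← Finset.card_filter]
        calc _ ≤ (Finset.Ico a (a + D)).card := by
              apply Finset.card_le_card
              intro t ht
              rw [Finset.mem_filter] at ht
              exact Finset.mem_Ico.2 (ha t ht.2)
          _ = D := by simp
      nlinarith
  by_contra hc
  push Not at hc
  have h2 : ∀ t ∈ Finset.Ico t0 (t0 + K),
      D * T.length + 1 ≤ K * (T.filter (fun x => decide (cut x t))).length := by
    intro t ht
    rw [Finset.mem_Ico] at ht
    apply hc t ht.1 ht.2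
    · intro x hx hcx
      simp [hx, hcx]
    · intro x hx
      exact (List.mem_filter.1 hx).1
  have h3 := Finset.sum_le_sum h2
  rw [← Finset.mul_sum] at h3
  simp only [Finset.sum_const, Nat.card_Ico, Nat.add_sub_cancel_left, smul_eq_mul] at h3
  have h4 := Nat.mul_le_mul_left K key
  nlinarith

theorem avg0 {α : Type*} (T : List α) (cut : α → ℕ → Prop) (D t0 : ℕ)
    (h : ∀ x ∈ T, ∃ a : ℕ, ∀ t, cut x t → a ≤ t ∧ t < a + D) :
    ∃ t, t0 ≤ t ∧ t ≤ t0 + D * T.length ∧ ∀ x ∈ T, ¬ cut x t := by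
  obtain ⟨t, h1, h2, T', h3, -, h5⟩ := avg T cut D (D * T.length + 1) t0 (by omega) h
  refine ⟨t, h1, by omega, fun x hx hc => ?_⟩
  have : 1 ≤ T'.length := List.length_pos_of_mem (h3 x hx hc)
  nlinarith

variable {G : Type w} [Group G] {n : ℕ} {H : Fin n → Subgroup G} {X : Finset G}

/-- the step is an `H i`-letter read inside the coset `y H i` -/
def Use (i : Fin n) (y : G) (p : G × Lt H X) : Prop :=
  ∃ h : H i, p.2 = Sum.inl ⟨i, h⟩ ∧ y⁻¹ * p.1 ∈ H i

def Avoid (i : Fin n) (y g : G) (W : List (Lt H X)) : Prop := ∀ p ∈ steps g W, ¬ Use i y p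

theorem avoid_nil (i : Fin n) (y g : G) : Avoid i y g ([] : List (Lt H X)) := by
  simp [Avoid]

theorem avoid_cons {i : Fin n} {y g : G} {l : Lt H X} {W : List (Lt H X)} :
    Avoid i y g (l :: W) ↔ ¬ Use i y (g, l) ∧ Avoid i y (g * l.val) W := by
  simp [Avoid]

theorem avoid_append {i : Fin n} {y g : G} {V W : List (Lt H X)} :
    Avoid i y g (V ++ W) ↔ Avoid i y g V ∧ Avoid i y (g * wval V) W := by
  simp [Avoid, or_imp, forall_and]

theorem Avoid.winv {i : Fin n} {y g : G} {W : List (Lt H X)} (h : Avoid i y g W) :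
    Avoid i y (g * wval W) (winv W) := by
  intro p hp
  obtain ⟨q, hq, rfl⟩ := mem_steps_winv hp
  rintro ⟨k, hk1, hk2⟩
  apply h q hq
  obtain ⟨g', l⟩ := q
  rcases l with ⟨j, h'⟩ | ⟨x, b⟩
  · simp only [Lt.inv, Sum.inl.injEq, Sigma.mk.injEq] at hk1
    obtain ⟨rfl, -⟩ := hk1
    refine ⟨h', rfl, ?_⟩
    simp only [Lt.val] at hk2
    have := (H j).mul_mem hk2 ((H j).inv_mem h'.2)
    simpa [mul_assoc] using this
  · simp [Lt.inv] at hk1

theorem Avoid.mul {i : Fin n} {y g : G} {W : List (Lt H X)} (h : Avoid i y g W) (k : G) :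
    Avoid i (k * y) (k * g) W := by
  intro p hp
  rw [steps_mul] at hp
  obtain ⟨q, hq, rfl⟩ := List.mem_map.1 hp
  rintro ⟨h', h1, h2⟩
  exact h q hq ⟨h', h1, by simpa [mul_assoc] using h2⟩

theorem Avoid.congr {i : Fin n} {y y' g : G} {W : List (Lt H X)} (h : Avoid i y g W)
    (hy : y⁻¹ * y' ∈ H i) : Avoid i y' g W := by
  intro p hp
  rintro ⟨h', h1, h2⟩
  exact h p hp ⟨h', h1, by simpa [mul_assoc] using (H i).mul_mem hy h2⟩

theorem split_last (i : Fin n) (y g : G) (W : List (Lt H X)) : Avoid i y g W ∨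
    ∃ (V V' : List (Lt H X)) (h : H i), W = V ++ Sum.inl ⟨i, h⟩ :: V' ∧
      y⁻¹ * (g * wval V) ∈ H i ∧ Avoid i y (g * wval V * h) V' := by
  induction W generalizing g with
  | nil => exact Or.inl (avoid_nil _ _ _)
  | cons l W ih =>
    rcases ih (g * l.val) with h | ⟨V, V', h, h1, h2, h3⟩
    · by_cases hu : Use i y (g, l)
      · obtain ⟨h', h1, h2⟩ := hu
        simp only at h1 h2
        subst h1
        exact Or.inr ⟨[], W, h', by simp, by simpa using h2, by simpa [Lt.val] using h⟩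
      · exact Or.inl (avoid_cons.2 ⟨hu, h⟩)
    · exact Or.inr ⟨l :: V, V', h, by simp [h1], by simpa [mul_assoc] using h2,
        by simpa [mul_assoc] using h3⟩

theorem first_entry (i : Fin n) (y g : G) (W : List (Lt H X)) (hW : y⁻¹ * (g * wval W) ∈ H i) :
    ∃ V : List (Lt H X), Avoid i y g V ∧ y⁻¹ * (g * wval V) ∈ H i := by
  induction W generalizing g with
  | nil => exact ⟨[], avoid_nil _ _ _, hW⟩
  | cons l W ih =>
    by_cases hu : Use i y (g, l)
    · obtain ⟨h', -, h2⟩ := hu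
      exact ⟨[], avoid_nil _ _ _, by simpa using h2⟩
    · obtain ⟨V, h1, h2⟩ := ih (g * l.val) (by simpa [mul_assoc] using hW)
      exact ⟨l :: V, avoid_cons.2 ⟨hu, h1⟩, by simpa [mul_assoc] using h2⟩

/-- products of at most `t` elements of `Ω` -/
def ballS (Ω : Set G) : ℕ → Set G
  | 0 => {1}
  | t + 1 => ballS Ω t ∪ Set.image2 (· * ·) (ballS Ω t) Ω

theorem ballS_finite {Ω : Set G} (hΩ : Ω.Finite) (t : ℕ) : (ballS Ω t).Finite := by
  induction t with
  | zero => exact Set.finite_singleton _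
  | succ t ih => exact ih.union (ih.image2 _ hΩ)

theorem ballS_mono (Ω : Set G) {s t : ℕ} (h : s ≤ t) : ballS Ω s ⊆ ballS Ω t := by
  induction h with
  | refl => exact le_rfl
  | step _ ih => exact ih.trans Set.subset_union_left

theorem ballS_straddle (Ω : Set G) (z z' : G) (h1 : z⁻¹ * z' ∈ Ω) (h2 : z'⁻¹ * z ∈ Ω) :
    ∃ a : ℕ, ∀ t, ¬ (z ∈ ballS Ω t ↔ z' ∈ ballS Ω t) → a ≤ t ∧ t < a + 1 := by
  classical
  by_cases hex : ∃ t, z ∈ ballS Ω t ∨ z' ∈ ballS Ω t
  · refine ⟨Nat.find hex, fun t ht => ⟨?_, ?_⟩⟩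
    · apply Nat.find_min'
      tauto
    · by_contra hlt
      have hle : Nat.find hex + 1 ≤ t := by omega
      have hb : z ∈ ballS Ω (Nat.find hex + 1) ∧ z' ∈ ballS Ω (Nat.find hex + 1) := by
        rcases Nat.find_spec hex with h | h
        · exact ⟨Or.inl h, Or.inr ⟨z, h, _, h1, by simp⟩⟩
        · exact ⟨Or.inr ⟨z', h, _, h2, by simp⟩, Or.inl h⟩
      exact ht (iff_of_true (ballS_mono Ω hle hb.1) (ballS_mono Ω hle hb.2))
  · push Not at hex
    exact ⟨0, fun t ht => absurd (iff_of_false (hex t).1 (hex t).2) ht⟩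

theorem length_flatMap_steps (cells : List (G × List (Lt H X))) (M : ℕ)
    (h : ∀ c ∈ cells, c.2.length ≤ M) :
    (cells.flatMap (fun c => steps c.1 c.2)).length ≤ M * cells.length := by
  induction cells with
  | nil => simp
  | cons c cells ih =>
    have h1 := h c List.mem_cons_self
    have h2 := ih (fun d hd => h d (List.mem_cons_of_mem _ hd))
    simp only [List.flatMap_cons, List.length_append, length_steps, List.length_cons]
    nlinarith

variable {RW : Set (List (Lt H X))} {C : ℕ}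

theorem Fill.exists_bound (F : Fill H X RW C) : ∃ M, ∀ r ∈ RW, r.length ≤ M := by
  obtain ⟨M, hM⟩ := (F.fin.image List.length).bddAbove
  exact ⟨M, fun r hr => hM ⟨r, hr, rfl⟩⟩

theorem lamW_eq_zero {u : Fin n → G → ℤ} {κ : G → X → ℤ} {g : G} {W : List (Lt H X)}
    (h : ∀ p ∈ steps g W, lam u κ p = 0) : lamW u κ g W = 0 := by
  unfold lamW
  apply List.sum_eq_zero
  intro x hx
  obtain ⟨p, hp, rfl⟩ := List.mem_map.1 hx
  exact h p hp

theorem Fill.fine0 (F : Fill H X RW C) (L : ℕ) (i : Fin n) :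
    {h : G | h ∈ H i ∧ ∃ W : List (Lt H X), W.length ≤ L ∧ wval W = h ∧ Avoid i 1 1 W}.Finite := by
  classical
  obtain ⟨M, hM⟩ := F.exists_bound
  let Ω : Set G := ⋃ r ∈ RW, ((fun l : Lt H X => l.val) '' {l | l ∈ r} ∪
    (fun l : Lt H X => l.val⁻¹) '' {l | l ∈ r})
  have hΩ : Ω.Finite := F.fin.biUnion (fun r _ =>
    ((List.finite_toSet r).image _).union ((List.finite_toSet r).image _))
  refine (ballS_finite hΩ (M * (C * (L + 1) + C))).subset ?_
  rintro h ⟨hh, W, hW1, hW2, hW3⟩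
  obtain ⟨cells, hc1, hc2, hc3⟩ := F.fill (W ++ [Sum.inl ⟨i, ⟨h, hh⟩⁻¹⟩])
    (by simp [hW2, Lt.val])
  obtain ⟨t, -, ht2, ht3⟩ := avg0 (cells.flatMap (fun c => steps c.1 c.2))
    (fun p t => ¬ (p.1 ∈ ballS Ω t ↔ p.1 * p.2.val ∈ ballS Ω t)) 1 0 (by
      intro p hp
      obtain ⟨c, hc, hp⟩ := List.mem_flatMap.1 hp
      obtain ⟨V, V', e, -⟩ := mem_steps hp
      have hl : p.2 ∈ c.2 := by rw [e]; simp
      apply ballS_straddle
      · simp only [inv_mul_cancel_left]
        exact Set.mem_biUnion (hc2 c hc) (Or.inl ⟨p.2, hl, rfl⟩)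
      · simp only [mul_inv_rev, inv_mul_cancel_right]
        exact Set.mem_biUnion (hc2 c hc) (Or.inr ⟨p.2, hl, rfl⟩))
  have hlen := length_flatMap_steps cells M (fun c hc => hM _ (hc2 c hc))
  have ht4 : t ≤ M * (C * (L + 1) + C) := by
    simp only [List.length_append, List.length_singleton] at hc1
    have : cells.length ≤ C * (L + 1) + C := hc1.trans (by gcongr)
    calc t ≤ M * cells.length := by omega
      _ ≤ _ := by gcongr
  apply ballS_mono Ω ht4
  by_contra hnot
  let u : Fin n → G → ℤ := fun j z => if j = i ∧ z ∈ H i ∧ z ∈ ballS Ω t then 1 else 0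
  have h0 := hc3 u (fun _ _ => 0) (by
    intro c hc
    apply lamW_eq_zero
    intro p hp
    have hp' := ht3 p (List.mem_flatMap.2 ⟨c, hc, hp⟩)
    rw [not_not] at hp'
    obtain ⟨g, l⟩ := p
    rcases l with ⟨j, k⟩ | ⟨x, _ | _⟩
    · simp only [lam, u, Lt.val] at hp' ⊢
      by_cases hj : j = i
      · subst hj
        have : g * k ∈ H j ↔ g ∈ H j := (H j).mul_mem_cancel_right k.2
        simp [this, hp']
      · simp [hj]
    · simp [lam]
    · simp [lam])
  have h1 : lamW u (fun _ _ => 0) 1 W = 0 := by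
    apply lamW_eq_zero
    intro p hp
    have hp' := hW3 p hp
    obtain ⟨g, l⟩ := p
    rcases l with ⟨j, k⟩ | ⟨x, _ | _⟩
    · simp only [lam, u]
      by_cases hj : j = i
      · subst hj
        have h2 : g ∉ H j := fun hg => hp' ⟨k, rfl, by simpa using hg⟩
        have : g * k ∈ H j ↔ g ∈ H j := (H j).mul_mem_cancel_right k.2
        simp [this, h2]
      · simp [hj]
    · simp [lam]
    · simp [lam]
  have h2 : (1 : G) ∈ ballS Ω t := ballS_mono Ω (Nat.zero_le t) rfl
  simp [h1, hW2, lam, u, hnot, h2, (H i).one_mem] at h0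

theorem Fill.fine (F : Fill H X RW C) (L : ℕ) (i : Fin n) (y y' : G) (hy : y⁻¹ * y' ∈ H i) :
    {z : G | y⁻¹ * z ∈ H i ∧ ∃ W : List (Lt H X), W.length ≤ L ∧ y' * wval W = z ∧
      Avoid i y y' W}.Finite := by
  refine ((F.fine0 L i).image (fun h => y' * h)).subset ?_
  rintro z ⟨hz, W, h1, h2, h3⟩
  refine ⟨wval W, ⟨?_, W, h1, rfl, ?_⟩, h2⟩
  · have := (H i).mul_mem ((H i).inv_mem hy) hz
    rw [← h2] at this
    simpa [mul_assoc] using this
  · have := (h3.congr hy).mul y'⁻¹
    simpa using this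

theorem Fill.mal (F : Fill H X RW C) {i j : Fin n} {g c : G} (hc : c ∈ H i)
    (hinf : ¬ IsOfFinOrder c) (hcg : g⁻¹ * c * g ∈ H j) : i = j ∧ g ∈ H i := by
  by_contra hne
  obtain ⟨V, hV⟩ := F.surj g
  obtain ⟨y, V', hy, hg, hav⟩ : ∃ (y : G) (V' : List (Lt H X)), y ∈ H i ∧ y * wval V' = g ∧
      Avoid i 1 y V' := by
    rcases split_last i 1 1 V with h | ⟨V1, V2, h, h1, h2, h3⟩
    · exact ⟨1, V, (H i).one_mem, by simpa using hV, h⟩
    · refine ⟨wval V1 * h, V2, (H i).mul_mem (by simpa using h2) h.2, ?_, by simpa using h3⟩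
      rw [← hV, h1]; simp [Lt.val, mul_assoc]
  have hfin := F.fine (V'.length + 1 + V'.length) i 1 y (by simpa using hy)
  refine Set.infinite_of_injective_forall_mem (f := fun k : ℕ => c ^ k * y) ?_ ?_ hfin
  · intro a b hab
    exact injective_pow_iff_not_isOfFinOrder.2 hinf (mul_right_cancel hab)
  · intro k
    have hk : g⁻¹ * c ^ k * g ∈ H j := by
      have := (H j).pow_mem hcg k
      have e : (g⁻¹ * c * g) ^ k = g⁻¹ * c ^ k * g := by
        have := conj_pow (i := k) (a := g⁻¹) (b := c)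
        simpa using this
      rwa [e] at this
    have hck : c ^ k ∈ H i := (H i).pow_mem hc k
    refine ⟨by simpa using (H i).mul_mem hck hy,
      V' ++ [Sum.inl ⟨j, ⟨_, hk⟩⟩] ++ winv V', by simp; omega, ?_, ?_⟩
    · simp only [wval_append, wval_cons, wval_nil, wval_winv, Lt.val, ← hg]
      group
    · rw [avoid_append, avoid_append]
      refine ⟨⟨hav, ?_⟩, ?_⟩
      · rw [avoid_cons]
        refine ⟨?_, avoid_nil _ _ _⟩
        rintro ⟨h', h1, h2⟩
        simp only [Sum.inl.injEq, Sigma.mk.injEq] at h1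
        apply hne
        exact ⟨h1.1.symm, by simpa [hg] using h2⟩
      · have h1 := ((hav.mul (c ^ k)).congr (y' := 1) (by simpa using hck)).winv
        have e : y * wval (V' ++ [Sum.inl ⟨j, ⟨_, hk⟩⟩]) = c ^ k * y * wval V' := by
          simp only [wval_append, wval_cons, wval_nil, Lt.val, ← hg]
          group
        rw [e]; exact h1

end Pool.Agent.Lib.MP_e6550d_al
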