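import Pool.Agent.Lib.MP_e6550d_al.RelB

namespace Pool.Agent.Lib.MP_e6550d_al

universe w

variable {G : Type w} [Group G] {n : ℕ} {H : Fin n → Subgroup G} {X : Finset G}
variable {RW : Set (List (Lt H X))} {C : ℕ}

theorem esc (R : ℕ) (T : Set G) (hT : T.Infinite)
    (hW : ∀ α ∈ T, ∃ W : List (Lt H X), W.length ≤ R ∧ wval W = α) :
    ∃ (i : Fin n) (y : G), ∀ F E : Set G, F.Finite → E.Finite → ∃ α ∈ T, α ∉ E ∧ ∃ z, z ∉ F ∧
      y⁻¹ * z ∈ H i ∧ ∃ V : List (Lt H X), V.length ≤ R ∧ z * wval V = α ∧ Avoid i y z V := by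
  induction R generalizing T with
  | zero =>
    exfalso
    apply hT
    refine (Set.finite_singleton (1 : G)).subset ?_
    intro α hα
    obtain ⟨W, h1, h2⟩ := hW α hα
    have : W = [] := List.length_eq_zero_iff.1 (by omega)
    subst this
    simpa using h2.symm
  | succ R ih =>
    let TR : Set G := {α | α ∈ T ∧ ∃ W : List (Lt H X), W.length ≤ R ∧ wval W = α}
    let TL : Lt H X → Set G := fun l =>
      {α | α ∈ T ∧ ∃ V : List (Lt H X), V.length ≤ R ∧ l.val * wval V = α}
    by_cases h1 : TR.Infinite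
    · obtain ⟨i, y, h⟩ := ih TR h1 (fun α hα => hα.2)
      refine ⟨i, y, fun F E hF hE => ?_⟩
      obtain ⟨α, hα, h2, z, h3, h4, V, h5, h6, h7⟩ := h F E hF hE
      exact ⟨α, hα.1, h2, z, h3, h4, V, by omega, h6, h7⟩
    by_cases h2 : ∃ l, (TL l).Infinite
    · obtain ⟨l, hl⟩ := h2
      have hinj : Function.Injective (fun g : G => l.val⁻¹ * g) := mul_right_injective _
      obtain ⟨i, y, h⟩ := ih ((fun g => l.val⁻¹ * g) '' TL l) (hl.image hinj.injOn) (by
        rintro _ ⟨α, ⟨-, V, h3, h4⟩, rfl⟩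
        exact ⟨V, h3, by simp [← h4]⟩)
      refine ⟨i, l.val * y, fun F E hF hE => ?_⟩
      obtain ⟨_, ⟨α, hα, rfl⟩, h2, z, h3, h4, V, h5, h6, h7⟩ :=
        h _ _ (hF.image (fun g => l.val⁻¹ * g)) (hE.image (fun g => l.val⁻¹ * g))
      refine ⟨α, hα.1, fun hE' => h2 ⟨α, hE', rfl⟩, l.val * z,
        fun hF' => h3 ⟨_, hF', by simp⟩, by simpa [mul_assoc] using h4, V, by omega, ?_,
        h7.mul _⟩
      simp only at h6
      rw [mul_assoc, h6]; simp
    rw [Set.not_infinite] at h1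
    push Not at h2
    let TI : Fin n → Set G := fun i =>
      {α | α ∈ T ∧ ∃ (h : H i) (V : List (Lt H X)), V.length ≤ R ∧ (h : G) * wval V = α}
    have hex : ∃ i, (TI i).Infinite := by
      by_contra hc
      push Not at hc
      apply hT
      refine ((h1.union (Set.finite_iUnion (fun x : X × Bool => h2 (Sum.inr x)))).union
        (Set.finite_iUnion hc)).subset ?_
      intro α hα
      obtain ⟨W, h3, h4⟩ := hW α hα
      rcases W with _ | ⟨l, V⟩
      · exact Or.inl (Or.inl ⟨hα, [], by simp, h4⟩)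
      · have h5 : V.length ≤ R := by simpa using h3
        rcases l with ⟨i, h⟩ | x
        · exact Or.inr (Set.mem_iUnion.2 ⟨i, hα, h, V, h5, by simpa [Lt.val] using h4⟩)
        · exact Or.inl (Or.inr (Set.mem_iUnion.2 ⟨x, hα, V, h5, by simpa using h4⟩))
    obtain ⟨i, hi⟩ := hex
    refine ⟨i, 1, fun F E hF hE => ?_⟩
    have hF' : {h : H i | (h : G) ∈ F}.Finite :=
      hF.preimage (f := fun h : H i => (h : G)) Subtype.val_injective.injOn
    have hfin := (hE.union h1).union (hF'.biUnion (fun h _ => h2 (Sum.inl ⟨i, h⟩)))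
    obtain ⟨α, ⟨hα, h, V, h3, h4⟩, hn⟩ := (hi.sdiff hfin).nonempty
    refine ⟨α, hα, fun hE' => hn (Or.inl (Or.inl hE')), h, ?_, by simp, V, by omega, h4, ?_⟩
    · intro hF''
      exact hn (Or.inr (Set.mem_biUnion (x := h) hF'' ⟨hα, V, h3, by simpa [Lt.val] using h4⟩))
    · rcases split_last i 1 (h : G) V with h5 | ⟨V1, V2, k, h5, h6, -⟩
      · exact h5
      · exfalso
        refine hn (Or.inl (Or.inr ⟨hα, Sum.inl ⟨i, ⟨h * wval V1, by simpa using h6⟩ * k⟩ :: V2,
          ?_, ?_⟩))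
        · rw [h5] at h3
          simp at h3 ⊢
          omega
        · rw [← h4, h5]
          simp [Lt.val, mul_assoc]

theorem Fill.proper (F : Fill H X RW C) (b : G) (R : ℕ) (T : Set G) (hT : T.Infinite)
    (hW : ∀ α ∈ T, ∃ W : List (Lt H X), W.length ≤ R ∧ wval W = α)
    (hcomm : ∀ α ∈ T, Commute b α)
    (hb : ∀ m : ℕ, 0 < m → ∀ (i : Fin n) (y : G), y⁻¹ * b ^ m * y ∉ H i)
    (hTT : ∀ α ∈ T, ∀ α' ∈ T, ∀ (i : Fin n) (y : G), y⁻¹ * (α⁻¹ * α') * y ∈ H i → α = α') :
    False := by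
  obtain ⟨i, y, h⟩ := esc R T hT hW
  choose wd hwd using F.surj
  have fe : ∀ m : ℕ, ∃ V : List (Lt H X), Avoid i (b ^ m * y) 1 V ∧
      (b ^ m * y)⁻¹ * (1 * wval V) ∈ H i := fun m =>
    first_entry i (b ^ m * y) 1 (wd (b ^ m * y)) (by simp [hwd])
  choose V1 hV1 hV1' using fe
  let Fm : ℕ → Set G := fun m => (fun z => b ^ m * z) ⁻¹'
    {z : G | (b ^ m * y)⁻¹ * z ∈ H i ∧ ∃ W : List (Lt H X),
      W.length ≤ (V1 m).length + R + (wd (b ^ m)).length + R ∧ wval (V1 m) * wval W = z ∧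
      Avoid i (b ^ m * y) (wval (V1 m)) W}
  have hFm : ∀ m, (Fm m).Finite := fun m =>
    (F.fine _ i _ _ (by simpa using hV1' m)).preimage (mul_right_injective _).injOn
  let Em : ℕ → Set G := fun m => {α | α ∈ T ∧ ¬ Avoid i (b ^ m * y) α (wd (b ^ m))}
  have hEm : ∀ m, (Em m).Finite := by
    intro m
    have h1 : ∀ q : G × Lt H X, {α | α ∈ T ∧ (b ^ m * y)⁻¹ * (α * q.1) ∈ H i}.Finite := by
      intro q
      apply Set.Subsingleton.finite
      rintro α ⟨h1, h2⟩ α' ⟨h3, h4⟩
      apply hTT α h1 α' h3 i q.1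
      have := (H i).mul_mem ((H i).inv_mem h2) h4
      simpa [mul_assoc] using this
    refine ((List.finite_toSet (steps 1 (wd (b ^ m)))).biUnion (fun q _ => h1 q)).subset ?_
    rintro α ⟨h2, h3⟩
    simp only [Avoid, not_forall, not_not] at h3
    obtain ⟨p, hp, k, -, h4⟩ := h3
    rw [← mul_one α, steps_mul] at hp
    obtain ⟨q, hq, rfl⟩ := List.mem_map.1 hp
    exact Set.mem_biUnion (x := q) hq ⟨h2, h4⟩
  obtain ⟨α, hα, hE, z, hF, hz, V, hV, hzV, hav⟩ := h (⋃ m ∈ Set.Iic R, Fm m)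
    (⋃ m ∈ Set.Iic R, Em m) ((Set.finite_Iic R).biUnion (fun m _ => hFm m))
    ((Set.finite_Iic R).biUnion (fun m _ => hEm m))
  obtain ⟨Wα, hWα1, hWα2⟩ := hW α hα
  obtain ⟨m, -, hm, hm'⟩ := avg0 (steps 1 Wα) (fun p m => Use i (b ^ m * y) p) 1 0 (by
    intro p _
    by_cases hex : ∃ m, Use i (b ^ m * y) p
    · obtain ⟨m, k, -, hk⟩ := hex
      refine ⟨m, ?_⟩
      rintro t ⟨k', -, hk'⟩
      rcases lt_trichotomy t m with hlt | heq | hlt
      · exfalso
        apply hb (m - t) (by omega) i y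
        have := (H i).mul_mem hk' ((H i).inv_mem hk)
        have e : b ^ m = b ^ t * b ^ (m - t) := by rw [← pow_add]; congr 1; omega
        rw [e] at this
        simpa [mul_assoc] using this
      · omega
      · exfalso
        apply hb (t - m) (by omega) i y
        have := (H i).mul_mem hk ((H i).inv_mem hk')
        have e : b ^ t = b ^ m * b ^ (t - m) := by rw [← pow_add]; congr 1; omega
        rw [e] at this
        simpa [mul_assoc] using this
    · push Not at hex
      exact ⟨0, fun t ht => absurd ht (hex t)⟩)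
  have hmR : m ≤ R := by
    simp only [length_steps] at hm
    omega
  apply hF
  refine Set.mem_biUnion (x := m) hmR ⟨by simpa [mul_assoc] using hz,
    winv (V1 m) ++ Wα ++ wd (b ^ m) ++ winv V, by simp; omega, ?_, ?_⟩
  · simp only [wval_append, wval_winv, hWα2, hwd, mul_assoc, mul_inv_cancel_left]
    rw [← mul_assoc, ← ((hcomm α hα).pow_left m).eq, ← hzV]
    simp [mul_assoc]
  · rw [avoid_append, avoid_append, avoid_append]
    refine ⟨⟨⟨by simpa using (hV1 m).winv, ?_⟩, ?_⟩, ?_⟩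
    · have : Avoid i (b ^ m * y) 1 Wα := hm'
      simpa using this
    · have : Avoid i (b ^ m * y) α (wd (b ^ m)) := by
        by_contra hc
        exact hE (Set.mem_biUnion (x := m) hmR ⟨hα, hc⟩)
      simpa [hWα2] using this
    · have h1 := (hav.mul (b ^ m)).winv
      have e : wval (V1 m) * wval (winv (V1 m) ++ Wα ++ wd (b ^ m)) = b ^ m * z * wval V := by
        simp only [wval_append, wval_winv, hWα2, hwd, mul_assoc, mul_inv_cancel_left]
        rw [← ((hcomm α hα).pow_left m).eq, hzV]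
      rw [e]; exact h1

def wpow (V : List (Lt H X)) : ℕ → List (Lt H X)
  | 0 => []
  | m + 1 => V ++ wpow V m

theorem wval_wpow (V : List (Lt H X)) (m : ℕ) : wval (wpow V m) = wval V ^ m := by
  induction m with
  | zero => simp [wpow]
  | succ m ih => simp [wpow, ih, pow_succ']

theorem length_wpow (V : List (Lt H X)) (m : ℕ) : (wpow V m).length = m * V.length := by
  induction m with
  | zero => simp [wpow]
  | succ m ih => simp [wpow, ih]; ring

theorem mem_steps_wpow {V : List (Lt H X)} {m : ℕ} {g : G} {p : G × Lt H X}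
    (h : p ∈ steps g (wpow V m)) :
    ∃ (k : ℕ) (V1 V2 : List (Lt H X)), V = V1 ++ p.2 :: V2 ∧ p.1 = g * wval V ^ k * wval V1 := by
  induction m generalizing g with
  | zero => simp [wpow] at h
  | succ m ih =>
    simp only [wpow, steps_append, List.mem_append] at h
    rcases h with h | h
    · obtain ⟨V1, V2, h1, h2⟩ := mem_steps h
      exact ⟨0, V1, V2, h1, by simpa using h2⟩
    · obtain ⟨k, V1, V2, h1, h2⟩ := ih h
      exact ⟨k + 1, V1, V2, h1, by rw [h2, pow_succ']; simp [mul_assoc]⟩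

section dist
variable (H X)

/-- relative distance from the cyclic subgroup generated by `a` -/
noncomputable def dA (a g : G) : ℕ :=
  sInf {k | ∃ (j : ℤ) (W : List (Lt H X)), W.length = k ∧ a ^ j * wval W = g}

noncomputable def dC (a : G) (i : Fin n) (g : G) : ℕ := sInf {k | ∃ h : H i, dA H X a (g * h) = k}

variable {H X}

noncomputable def eta (a : G) : G × Lt H X → ℕ
  | (g, Sum.inl ⟨i, _⟩) => dC H X a i g
  | (g, Sum.inr (_, true)) => dA H X a g
  | (g, Sum.inr (x, false)) => dA H X a (g * (x : G)⁻¹)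

theorem dA_le (a : G) (j : ℤ) (W : List (Lt H X)) : dA H X a (a ^ j * wval W) ≤ W.length :=
  Nat.sInf_le ⟨j, W, rfl, rfl⟩

theorem dA_spec (hs : ∀ g, ∃ W : List (Lt H X), wval W = g) (a g : G) :
    ∃ (j : ℤ) (W : List (Lt H X)), W.length = dA H X a g ∧ a ^ j * wval W = g := by
  obtain ⟨W, hW⟩ := hs g
  exact Nat.sInf_mem (s := {k | ∃ (j : ℤ) (W : List (Lt H X)), W.length = k ∧ a ^ j * wval W = g})
    ⟨W.length, 0, W, rfl, by simp [hW]⟩

theorem dA_mul (hs : ∀ g, ∃ W : List (Lt H X), wval W = g) (a g : G) (V : List (Lt H X)) :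
    dA H X a (g * wval V) ≤ dA H X a g + V.length := by
  obtain ⟨j, W, h1, h2⟩ := dA_spec hs a g
  have := dA_le a j (W ++ V)
  rw [wval_append, ← mul_assoc, h2, List.length_append, h1] at this
  exact this

theorem dA_mul' (hs : ∀ g, ∃ W : List (Lt H X), wval W = g) (a g : G) (V : List (Lt H X)) :
    dA H X a g ≤ dA H X a (g * wval V) + V.length := by
  have := dA_mul hs a (g * wval V) (winv V)
  simpa using this

theorem dC_mul (a : G) (i : Fin n) (g : G) (h : H i) : dC H X a i (g * h) = dC H X a i g := by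
  unfold dC
  congr 1
  ext k
  constructor
  · rintro ⟨h', e⟩
    exact ⟨h * h', by simpa [mul_assoc] using e⟩
  · rintro ⟨h', e⟩
    exact ⟨h⁻¹ * h', by simpa [mul_assoc] using e⟩

theorem eta_bounds (hs : ∀ g, ∃ W : List (Lt H X), wval W = g) (a : G) (p : G × Lt H X) :
    eta a p ≤ dA H X a p.1 + 1 ∧ dA H X a p.1 ≤ eta a p + 1 := by
  obtain ⟨g, l⟩ := p
  rcases l with ⟨i, h⟩ | ⟨x, _ | _⟩
  · simp only [eta]
    constructor
    · have : dC H X a i g ≤ dA H X a g := Nat.sInf_le ⟨1, by simp⟩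
      omega
    · obtain ⟨h', e⟩ := Nat.sInf_mem (s := {k | ∃ h : H i, dA H X a (g * h) = k}) ⟨_, 1, rfl⟩
      have := dA_mul' hs a g [Sum.inl ⟨i, h'⟩]
      simp only [wval_cons, wval_nil, mul_one, Lt.val, List.length_singleton, e] at this
      exact this
  · have h1 := dA_mul hs a g [Sum.inr (x, false)]
    have h2 := dA_mul' hs a g [Sum.inr (x, false)]
    simp only [wval_cons, wval_nil, mul_one, Lt.val, List.length_singleton] at h1 h2
    exact ⟨h1, h2⟩
  · simp [eta]

noncomputable def cutU (a : G) (s : ℕ) (U : G → ℤ) : Fin n → G → ℤ :=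
  fun i z => if dC H X a i z ≤ s then U z else 0

noncomputable def cutK (a : G) (s : ℕ) (U : G → ℤ) : G → X → ℤ :=
  fun z x => if dA H X a z ≤ s then U (z * x) - U z else 0

theorem lam_cut (a : G) (s : ℕ) (U : G → ℤ) (p : G × Lt H X) :
    lam (cutU (H := H) (X := X) a s U) (cutK (H := H) a s U) p
      = if eta a p ≤ s then U (p.1 * p.2.val) - U p.1 else 0 := by
  obtain ⟨g, l⟩ := p
  rcases l with ⟨i, h⟩ | ⟨x, _ | _⟩
  · simp only [lam, cutU, eta, dC_mul, Lt.val]
    split_ifs <;> simp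
  · simp only [lam, cutK, eta, Lt.val]
    split_ifs <;> simp
  · simp only [lam, cutK, eta, Lt.val]

theorem lamW_tele {u : Fin n → G → ℤ} {κ : G → X → ℤ} (U : G → ℤ) {g : G} {W : List (Lt H X)}
    (h : ∀ p ∈ steps g W, lam u κ p = U (p.1 * p.2.val) - U p.1) :
    lamW u κ g W = U (g * wval W) - U g := by
  induction W generalizing g with
  | nil => simp
  | cons l W ih =>
    rw [lamW_cons, ih (fun p hp => h p (by simp [hp])), h (g, l) (by simp)]
    simp [mul_assoc]

end dist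

theorem Fill.coarea (F : Fill H X RW C) (a b : G) (hab : Commute a b) (f : G → ℕ)
    (hfb : ∀ g, f (b * g) = f g) (hfl : ∀ x, ∃ D, ∀ g, f (g * x) ≤ f g + D)
    (hfa : ∀ m : ℕ, m ≤ f (a ^ m)) :
    ∃ R N0 : ℕ, ∀ m, N0 ≤ m → ∃ (j : ℤ) (W : List (Lt H X)), W.length ≤ R ∧
      wval W = b ^ m * a ^ j := by
  classical
  obtain ⟨M, hM⟩ := F.exists_bound
  obtain ⟨Wa, hWa⟩ := F.surj a
  obtain ⟨Wb, hWb⟩ := F.surj b
  have hfbk : ∀ (k : ℕ) g, f (b ^ k * g) = f g := by
    intro k g
    induction k with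
    | zero => simp
    | succ k ih => rw [pow_succ', mul_assoc, hfb, ih]
  obtain ⟨D, hD⟩ : ∃ D, ∀ r, (r ∈ RW ∨ r = Wb) → ∀ V, V <+: r → ∀ g,
      f (g * wval V) ≤ f g + D ∧ f g ≤ f (g * wval V) + D := by
    choose Dx hDx using hfl
    have hfin : (⋃ r ∈ insert Wb RW, {V : List (Lt H X) | V ∈ r.inits}).Finite :=
      (F.fin.insert Wb).biUnion (fun r _ => List.finite_toSet _)
    obtain ⟨D, hD⟩ := (hfin.image (fun V => Dx (wval V) + Dx (wval V)⁻¹)).bddAbove
    refine ⟨D, fun r hr V hV g => ?_⟩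
    have h1 : Dx (wval V) + Dx (wval V)⁻¹ ≤ D :=
      hD ⟨V, Set.mem_biUnion (x := r) (by simpa using hr.symm) (by simpa using hV), rfl⟩
    have h2 := hDx (wval V) g
    have h3 := hDx (wval V)⁻¹ (g * wval V)
    simp only [mul_inv_cancel_right] at h3
    omega
  have hD' : ∀ r, (r ∈ RW ∨ r = Wb) → ∀ V1 l V2, r = V1 ++ l :: V2 → ∀ g,
      (f (g * wval V1) ≤ f g + D ∧ f g ≤ f (g * wval V1) + D) ∧
      (f (g * wval V1 * l.val) ≤ f g + D ∧ f g ≤ f (g * wval V1 * l.val) + D) := by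
    intro r hr V1 l V2 e g
    refine ⟨hD r hr V1 ⟨_, e.symm⟩ g, ?_⟩
    have := hD r hr (V1 ++ [l]) ⟨V2, by simp [e]⟩ g
    simpa [mul_assoc] using this
  set ℓ := Wa.length + Wb.length with hℓ
  set B := 4 * D * (2 * C * ℓ + C) with hB
  refine ⟨Wa.length + 1 + (2 * M + 2) * B + 1 + Wa.length, 2 * (2 * D + f 1) + 2, fun m hm => ?_⟩
  obtain ⟨cells, hc1, hc2, hc3⟩ := F.fill
    (wpow Wa m ++ wpow Wb m ++ winv (wpow Wa m) ++ winv (wpow Wb m)) (by
      simp only [wval_append, wval_winv, wval_wpow, hWa, hWb]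
      rw [(hab.pow_pow m m).eq]; group)
  have hc1' : cells.length ≤ m * (2 * C * ℓ + C) := by
    simp only [List.length_append, length_winv, length_wpow] at hc1
    have : C ≤ m * C := Nat.le_mul_of_pos_left _ (by omega)
    calc cells.length ≤ _ := hc1
      _ = m * (2 * C * ℓ) + C := by rw [hℓ]; ring
      _ ≤ m * (2 * C * ℓ) + m * C := by omega
      _ = _ := by ring
  let U : ℕ → G → ℤ := fun t z => if t < f z then 1 else 0
  obtain ⟨t, ht1, ht2, T', hT1, hT2, hT3⟩ := avg cells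
    (fun c t => ∃ p ∈ steps c.1 c.2, U t (p.1 * p.2.val) ≠ U t p.1) (2 * D) (m - 2 * D - f 1)
    (f 1 + D) (by omega) (by
      intro c hc
      refine ⟨f c.1 - D, ?_⟩
      rintro t ⟨p, hp, hne⟩
      obtain ⟨V1, V2, e1, e2⟩ := mem_steps hp
      have := hD' c.2 (Or.inl (hc2 c hc)) V1 p.2 V2 e1 c.1
      rw [← e2] at this
      simp only [U] at hne
      split_ifs at hne <;> first | exact absurd rfl hne | omega)
  have hT4 : T'.length ≤ B := by
    have h1 : m * T'.length ≤ 2 * ((m - 2 * D - f 1) * T'.length) := by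
      rw [← mul_assoc]; gcongr; omega
    have h2 : m * T'.length ≤ m * B := by
      calc m * T'.length ≤ 2 * (2 * D * cells.length) := by omega
        _ ≤ 2 * (2 * D * (m * (2 * C * ℓ + C))) := by gcongr
        _ = m * B := by rw [hB]; ring
    exact Nat.le_of_mul_le_mul_left h2 (by omega)
  obtain ⟨s, hs1, hs2, hs3⟩ := avg0 T'
    (fun c s => ∃ p ∈ steps c.1 c.2, ∃ p' ∈ steps c.1 c.2, eta a p ≤ s ∧ s < eta a p')
    (2 * M + 2) (Wa.length + 1) (by
      intro c hc
      refine ⟨dA H X a c.1 - M - 1, ?_⟩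
      rintro s ⟨p, hp, p', hp', h1, h2⟩
      have hcM := hM _ (hc2 c (hT2 c hc))
      obtain ⟨V1, V2, e1, e2⟩ := mem_steps hp
      obtain ⟨V1', V2', e1', e2'⟩ := mem_steps hp'
      have l1 : V1.length ≤ M := by rw [e1] at hcM; simp at hcM; omega
      have l2 : V1'.length ≤ M := by rw [e1'] at hcM; simp at hcM; omega
      have a1 := (eta_bounds F.surj a p).2
      have a2 := (eta_bounds F.surj a p').1
      have a3 := dA_mul' F.surj a c.1 V1
      have a4 := dA_mul F.surj a c.1 V1'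
      rw [← e2] at a3
      rw [← e2'] at a4
      omega)
  have h0 := hc3 (cutU (H := H) (X := X) a s (U t)) (cutK (H := H) a s (U t)) (by
    intro c hc
    by_cases hcut : ∃ p ∈ steps c.1 c.2, U t (p.1 * p.2.val) ≠ U t p.1
    · have h1 := hs3 c (hT1 c hc hcut)
      push Not at h1
      by_cases h2 : ∃ p ∈ steps c.1 c.2, eta a p ≤ s
      · obtain ⟨p, hp, h2⟩ := h2
        rw [lamW_tele (U t) (fun q hq => by rw [lam_cut, if_pos (h1 p hp q hq h2)]),
          F.rel _ (hc2 c hc)]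
        simp
      · push Not at h2
        exact lamW_eq_zero (fun q hq => by rw [lam_cut, if_neg (not_le.2 (h2 q hq))])
    · push Not at hcut
      exact lamW_eq_zero (fun q hq => by rw [lam_cut, hcut q hq]; simp))
  have hbot : lamW (cutU (H := H) (X := X) a s (U t)) (cutK (H := H) a s (U t)) 1 (wpow Wa m)
      = 1 := by
    rw [lamW_tele (U t)]
    · have := hfa m
      simp only [U, wval_wpow, hWa, one_mul]
      rw [if_pos (by omega), if_neg (by omega)]; simp
    · intro q hq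
      rw [lam_cut, if_pos]
      obtain ⟨k, V1, V2, e1, e2⟩ := mem_steps_wpow hq
      have a1 := (eta_bounds F.surj a q).1
      have a2 := dA_le (H := H) (X := X) a k V1
      have l1 : V1.length ≤ Wa.length := by rw [e1]; simp
      rw [e2, hWa, one_mul] at a1
      rw [zpow_natCast] at a2
      omega
  have hside : ∀ g, (f g + D ≤ t ∨ t + D < f g) → (∀ k : ℕ, Commute g (b ^ k)) →
      lamW (cutU (H := H) (X := X) a s (U t)) (cutK (H := H) a s (U t)) g (wpow Wb m) = 0 := by
    intro g hg hcom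
    apply lamW_eq_zero
    intro q hq
    obtain ⟨k, V1, V2, e1, e2⟩ := mem_steps_wpow hq
    have h1 := hD' Wb (Or.inr rfl) V1 q.2 V2 e1 g
    rw [hWb, (hcom k).eq] at e2
    have : U t (q.1 * q.2.val) = U t q.1 := by
      simp only [U, e2, mul_assoc, hfbk] at h1 ⊢
      split_ifs <;> first | rfl | omega
    rw [lam_cut, this]; simp
  have hright := hside (a ^ m) (Or.inr (by have := hfa m; omega)) (fun k => hab.pow_pow m k)
  have hleft := hside 1 (Or.inl ht1) (fun k => Commute.one_left _)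
  have htop : ∃ q ∈ steps (b ^ m) (wpow Wa m), eta a q ≤ s := by
    by_contra hc
    push Not at hc
    have h1 : lamW (cutU (H := H) (X := X) a s (U t)) (cutK (H := H) a s (U t)) (b ^ m)
        (wpow Wa m) = 0 :=
      lamW_eq_zero (fun q hq => by rw [lam_cut, if_neg (not_le.2 (hc q hq))])
    have h2 := lamW_winv (u := cutU (H := H) (X := X) a s (U t)) (κ := cutK (H := H) a s (U t))
      (b ^ m) (wpow Wa m)
    have h3 := lamW_winv (u := cutU (H := H) (X := X) a s (U t)) (κ := cutK (H := H) a s (U t))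
      1 (wpow Wb m)
    simp only [lamW_append, wval_append, wval_winv, wval_wpow, hWa, hWb, one_mul] at h0 h2 h3
    rw [(hab.pow_pow m m).eq, mul_inv_cancel_right, h2, h3, hbot, hright, h1, hleft] at h0
    simp at h0
  obtain ⟨q, hq, hq'⟩ := htop
  obtain ⟨k, V1, V2, e1, e2⟩ := mem_steps_wpow hq
  obtain ⟨j, W, h1, h2⟩ := dA_spec F.surj a q.1
  have a1 := (eta_bounds F.surj a q).2
  have l1 : V1.length ≤ Wa.length := by rw [e1]; simp
  refine ⟨k - j, W ++ winv V1, ?_, ?_⟩
  · have : (2 * M + 2) * T'.length ≤ (2 * M + 2) * B := by gcongr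
    simp only [List.length_append, length_winv]
    omega
  · rw [e2, hWa] at h2
    have h3 : wval W = (a ^ j)⁻¹ * (b ^ m * a ^ k * wval V1) := by rw [← h2]; simp
    have h4 : Commute (a ^ j)⁻¹ (b ^ m) := (hab.zpow_left j).inv_left.pow_right m
    rw [wval_append, wval_winv, h3, zpow_sub, zpow_natCast]
    simp only [← mul_assoc, mul_inv_cancel_right]
    rw [h4.eq, mul_assoc, mul_assoc]
    congr 1
    exact ((Commute.refl a).zpow_left j).inv_left.pow_right k |>.eq

end Pool.Agent.Lib.MP_e6550d_al
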